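import Mathlib

set_option autoImplicit false

open NumberField IsDedekindDomain

namespace Pool.Agent.Lib.MP_44a246_ntNU

/-- The primes of `E` above the primes in `S`. -/
def above (K E : Type*) [Field K] [NumberField K] [Field E] [NumberField E] [Algebra K E]
    (S : Set (HeightOneSpectrum (𝓞 K))) : Set (HeightOneSpectrum (𝓞 E)) :=
  {w | ∃ v ∈ S, w.asIdeal.comap (algebraMap (𝓞 K) (𝓞 E)) = v.asIdeal}

/-- The absolute norm of the relative discriminant of `E / K`, i.e. of the relative different. -/
noncomputable def discNorm (K E : Type*) [Field K] [NumberField K] [Field E] [NumberField E]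
    [Algebra K E] : ℝ := (Ideal.absNorm (differentIdeal (𝓞 K) (𝓞 E)) : ℝ)

/-- The forms `L_j`, over an extension field. -/
def up {K : Type*} (E : Type*) [Field K] [Field E] [Algebra K E] {n q : ℕ}
    (L : Fin q → Fin (n + 1) → K) : Fin q → Fin (n + 1) → E := fun j i => algebraMap K E (L j i)

end Pool.Agent.Lib.MP_44a246_ntNU
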