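import Pool.Agent.Lib.MP_44a246_ntNF.Tools
import Pool.Agent.Lib.MP_44a246_ntNU.Defs

set_option autoImplicit false

open NumberField IsDedekindDomain Height
open Pool.Agent.Lib.MP_4d5ce1_nt (fa nv ordv)
open Pool.Agent.Lib.MP_44a246_ntNF

namespace Pool.Agent.Lib.MP_44a246_ntNU

universe u

/-- Every prime of a number field contains a rational prime which divides its norm. -/
theorem NU1_exists_prime {E : Type u} [Field E] [NumberField E]
    (v : HeightOneSpectrum (𝓞 E)) :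
    ∃ p : ℕ, p.Prime ∧ p ∣ Ideal.absNorm v.asIdeal ∧ ((p : ℕ) : 𝓞 E) ∈ v.asIdeal := by
  have h0 : Ideal.absNorm v.asIdeal ≠ 0 := by
    have h := Pool.Agent.Lib.MP_4d5ce1_nt.two_le_nv v
    intro h1
    unfold nv at h
    rw [h1] at h
    norm_num at h
  have key : ∀ n : ℕ, n ≠ 0 → ((n : ℕ) : 𝓞 E) ∈ v.asIdeal →
      ∃ p : ℕ, p.Prime ∧ p ∣ n ∧ ((p : ℕ) : 𝓞 E) ∈ v.asIdeal := by
    intro n
    induction n using Nat.strong_induction_on with
    | _ n ih =>
      intro hn hm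
      by_cases h1 : n = 1
      · subst h1
        exfalso
        refine v.isPrime.ne_top ((Ideal.eq_top_iff_one _).2 ?_)
        simpa using hm
      · obtain ⟨p, hp, m, rfl⟩ := Nat.exists_prime_and_dvd h1
        rw [Nat.cast_mul] at hm
        rcases v.isPrime.mem_or_mem hm with h2 | h2
        · exact ⟨p, hp, Dvd.intro m rfl, h2⟩
        · have hm0 : m ≠ 0 := right_ne_zero_of_mul hn
          have hlt : m < p * m := by
            have := hp.two_le
            have hpos := Nat.pos_of_ne_zero hm0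
            nlinarith
          obtain ⟨q, hq, hqm, hqv⟩ := ih m hlt hm0 h2
          exact ⟨q, hq, Dvd.dvd.mul_left hqm p, hqv⟩
  exact key _ h0 (Ideal.absNorm_mem v.asIdeal)

/-- At most `[E : ℚ]` primes contain `p` and have a norm divisible by `p`. -/
theorem NU1_card_over {E : Type u} [Field E] [NumberField E] {p : ℕ} (hp : p.Prime)
    (W : Finset (HeightOneSpectrum (𝓞 E)))
    (hW : ∀ v ∈ W, p ∣ Ideal.absNorm v.asIdeal ∧ ((p : ℕ) : 𝓞 E) ∈ v.asIdeal) :
    W.card ≤ Module.finrank ℚ E := by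
  classical
  have h1 : (∏ v ∈ W, v.asIdeal) ∣ Ideal.span {((p : ℕ) : 𝓞 E)} := by
    refine Finset.prod_dvd_of_coprime ?_ ?_
    · intro v _ w _ hvw
      exact v.isCoprime_of_ne w hvw
    · intro v hv
      rw [Ideal.dvd_iff_le, Ideal.span_singleton_le_iff_mem]
      exact (hW v hv).2
  have h2 : Ideal.absNorm (∏ v ∈ W, v.asIdeal) ∣ p ^ Module.finrank ℚ E := by
    have h := map_dvd Ideal.absNorm h1
    rwa [Ideal.absNorm_span_natCast, RingOfIntegers.rank] at h
  have h3 : p ^ W.card ∣ Ideal.absNorm (∏ v ∈ W, v.asIdeal) := by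
    rw [map_prod, ← Finset.prod_const]
    exact Finset.prod_dvd_prod_of_dvd _ _ fun v hv => (hW v hv).1
  exact (Nat.pow_dvd_pow_iff_le_right hp.one_lt).1 (h3.trans h2)

/-- NU1a -/
theorem sum_nv_bound_u (d : ℕ) (s : ℝ) (hs : 1 < s) : ∃ C : ℝ, 0 < C ∧
    ∀ (E : Type u) [Field E] [NumberField E], Module.finrank ℚ E ≤ d →
      ∀ W : Finset (HeightOneSpectrum (𝓞 E)), ∑ v ∈ W, nv v ^ (-s) ≤ C := by
  classical
  have hsum : Summable fun n : ℕ => (n : ℝ) ^ (-s) := Real.summable_nat_rpow.2 (by linarith)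
  have hnn : ∀ n : ℕ, 0 ≤ (n : ℝ) ^ (-s) := fun n => Real.rpow_nonneg (Nat.cast_nonneg n) _
  refine ⟨d * (∑' n : ℕ, (n : ℝ) ^ (-s)) + 1, ?_, ?_⟩
  · have : 0 ≤ ∑' n : ℕ, (n : ℝ) ^ (-s) := tsum_nonneg hnn
    positivity
  · intro E _ _ hE W
    choose P hP1 hP2 hP3 using fun v : HeightOneSpectrum (𝓞 E) => NU1_exists_prime v
    have h1 : ∀ v : HeightOneSpectrum (𝓞 E), nv v ^ (-s) ≤ (P v : ℝ) ^ (-s) := by
      intro v
      have hpos : (0 : ℝ) < P v := by exact_mod_cast (hP1 v).pos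
      refine Real.rpow_le_rpow_of_nonpos hpos ?_ (by linarith)
      have h2 := Pool.Agent.Lib.MP_4d5ce1_nt.two_le_nv v
      have h0 : 0 < Ideal.absNorm v.asIdeal := by
        unfold nv at h2
        have : (0 : ℝ) < (Ideal.absNorm v.asIdeal : ℝ) := by linarith
        exact_mod_cast this
      unfold nv
      exact_mod_cast Nat.le_of_dvd h0 (hP2 v)
    calc ∑ v ∈ W, nv v ^ (-s) ≤ ∑ v ∈ W, (P v : ℝ) ^ (-s) := Finset.sum_le_sum fun v _ => h1 v
      _ = ∑ n ∈ W.image P, ∑ v ∈ W.filter (fun v => P v = n), (P v : ℝ) ^ (-s) := by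
          rw [Finset.sum_fiberwise_of_maps_to]
          intro v hv
          exact Finset.mem_image_of_mem _ hv
      _ ≤ ∑ n ∈ W.image P, (d : ℝ) * (n : ℝ) ^ (-s) := by
          refine Finset.sum_le_sum fun n hn => ?_
          have e : ∑ v ∈ W.filter (fun v => P v = n), (P v : ℝ) ^ (-s) =
              ((W.filter (fun v => P v = n)).card : ℝ) * (n : ℝ) ^ (-s) := by
            rw [← nsmul_eq_mul, ← Finset.sum_const]
            refine Finset.sum_congr rfl fun v hv => ?_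
            rw [Finset.mem_filter] at hv
            rw [hv.2]
          rw [e]
          refine mul_le_mul_of_nonneg_right ?_ (hnn n)
          obtain ⟨w, hw, hwn⟩ := Finset.mem_image.1 hn
          have hc := NU1_card_over (hwn ▸ hP1 w) (W.filter (fun v => P v = n)) (by
            intro v hv
            rw [Finset.mem_filter] at hv
            rw [← hv.2]
            exact ⟨hP2 v, hP3 v⟩)
          exact_mod_cast hc.trans hE
      _ = (d : ℝ) * ∑ n ∈ W.image P, (n : ℝ) ^ (-s) := by rw [Finset.mul_sum]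
      _ ≤ (d : ℝ) * ∑' n : ℕ, (n : ℝ) ^ (-s) :=
          mul_le_mul_of_nonneg_left (hsum.sum_le_tsum _ fun n _ => hnn n) (Nat.cast_nonneg d)
      _ ≤ (d : ℝ) * (∑' n : ℕ, (n : ℝ) ^ (-s)) + 1 := by linarith

/-- NU1b -/
theorem card_nv_le_u (d : ℕ) (B : ℝ) : ∃ N : ℕ,
    ∀ (E : Type u) [Field E] [NumberField E], Module.finrank ℚ E ≤ d →
      ∀ W : Finset (HeightOneSpectrum (𝓞 E)), (∀ v ∈ W, nv v ≤ B) → W.card ≤ N := by
  obtain ⟨C, hC, hb⟩ := sum_nv_bound_u.{u} d 2 (by norm_num)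
  by_cases hB : 0 < B
  · obtain ⟨N, hN⟩ := exists_nat_ge (C * B ^ (2 : ℝ))
    refine ⟨N, fun E _ _ hE W hW => ?_⟩
    have h1 := hb E hE W
    have h2 : (W.card : ℝ) * B ^ (-(2 : ℝ)) ≤ ∑ v ∈ W, nv v ^ (-(2 : ℝ)) := by
      rw [← nsmul_eq_mul, ← Finset.sum_const]
      refine Finset.sum_le_sum fun v hv => ?_
      have hpos : 0 < nv v := by linarith [Pool.Agent.Lib.MP_4d5ce1_nt.two_le_nv v]
      exact Real.rpow_le_rpow_of_nonpos hpos (hW v hv) (by norm_num)
    have h3 : (W.card : ℝ) * B ^ (-(2 : ℝ)) ≤ C := h2.trans h1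
    rw [Real.rpow_neg hB.le, ← div_eq_mul_inv, div_le_iff₀ (Real.rpow_pos_of_pos hB _)] at h3
    exact_mod_cast h3.trans hN
  · refine ⟨0, fun E _ _ hE W hW => ?_⟩
    rw [Nat.le_zero, Finset.card_eq_zero, Finset.eq_empty_iff_forall_notMem]
    intro v hv
    have h1 := hW v hv
    have h2 := Pool.Agent.Lib.MP_4d5ce1_nt.two_le_nv v
    linarith

end Pool.Agent.Lib.MP_44a246_ntNU
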