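import Pool.Agent.Lib.MP_44a246_ntNF.Tools
import Pool.Agent.Lib.MP_44a246_ntNU.Defs

set_option autoImplicit false
set_option linter.deprecated false

open NumberField IsDedekindDomain Height
open Pool.Agent.Lib.MP_4d5ce1_nt (fa nv ordv)
open Pool.Agent.Lib.MP_44a246_ntNF

namespace Pool.Agent.Lib.MP_44a246_ntNU

universe u

lemma nv_up {K : Type*} {E : Type*} [Field K] [NumberField K] [Field E] [NumberField E]
    [Algebra K E] {v : HeightOneSpectrum (𝓞 K)} {w : HeightOneSpectrum (𝓞 E)}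
    (h : w.asIdeal.comap (algebraMap (𝓞 K) (𝓞 E)) = v.asIdeal) :
    nv w = nv v ^ (v.asIdeal.inertiaDeg' w.asIdeal) := by
  have : w.asIdeal.LiesOver v.asIdeal := ⟨h.symm⟩
  unfold Pool.Agent.Lib.MP_4d5ce1_nt.nv
  rw [Ideal.absNorm_eq_pow_inertiaDeg'_of_liesOver w.asIdeal v.asIdeal v.isPrime v.ne_bot]
  push_cast
  rfl

lemma ordv_up {K : Type*} {E : Type*} [Field K] [NumberField K] [Field E] [NumberField E]
    [Algebra K E] {v : HeightOneSpectrum (𝓞 K)} {w : HeightOneSpectrum (𝓞 E)}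
    (h : w.asIdeal.comap (algebraMap (𝓞 K) (𝓞 E)) = v.asIdeal) (x : K) :
    ordv w (algebraMap K E x) = (v.asIdeal.ramificationIdx' w.asIdeal : ℤ) * ordv v x := by
  have : w.asIdeal.LiesOver v.asIdeal := ⟨h.symm⟩
  unfold Pool.Agent.Lib.MP_4d5ce1_nt.ordv
  rw [← HeightOneSpectrum.valuation_liesOver (A := 𝓞 K) (B := 𝓞 E) E v w x, WithZero.log_pow]
  simp

/-- NU6a -/
theorem fa_up_lt_iff {K : Type*} {E : Type*} [Field K] [NumberField K] [Field E] [NumberField E]
    [Algebra K E] {v : HeightOneSpectrum (𝓞 K)} {w : HeightOneSpectrum (𝓞 E)}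
    (h : w.asIdeal.comap (algebraMap (𝓞 K) (𝓞 E)) = v.asIdeal) :
    ∃ m : ℕ, 1 ≤ m ∧ m ≤ Module.finrank K E ∧
      ∀ x : K, fa w (algebraMap K E x) = fa v x ^ m := by
  have hlo : w.asIdeal.LiesOver v.asIdeal := ⟨h.symm⟩
  have hmax : v.asIdeal.IsMaximal := v.isMaximal
  have he : v.asIdeal.ramificationIdx' w.asIdeal ≠ 0 :=
    Ideal.IsDedekindDomain.ramificationIdx'_ne_zero_of_liesOver _ v.ne_bot
  have hf : v.asIdeal.inertiaDeg' w.asIdeal ≠ 0 := Ideal.inertiaDeg'_ne_zero _ _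
  refine ⟨v.asIdeal.ramificationIdx' w.asIdeal * v.asIdeal.inertiaDeg' w.asIdeal,
    Nat.one_le_iff_ne_zero.mpr (Nat.mul_ne_zero he hf), ?_, ?_⟩
  · rw [← Ideal.sum_ramification_inertia (𝓞 E) K E v.ne_bot]
    have hP : w.asIdeal ∈ IsDedekindDomain.primesOverFinset v.asIdeal (𝓞 E) :=
      (IsDedekindDomain.mem_primesOverFinset_iff v.ne_bot _).mpr ⟨w.isPrime, hlo⟩
    exact Finset.single_le_sum
      (f := fun P => v.asIdeal.ramificationIdx' P * v.asIdeal.inertiaDeg' P)
      (fun _ _ => Nat.zero_le _) hP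
  · intro x
    rcases eq_or_ne x 0 with rfl | hx
    · rw [map_zero, Pool.Agent.Lib.MP_4d5ce1_nt.fa_zero, Pool.Agent.Lib.MP_4d5ce1_nt.fa_zero,
        zero_pow (Nat.mul_ne_zero he hf)]
    · have hx' : algebraMap K E x ≠ 0 := by simpa using hx
      rw [Pool.Agent.Lib.MP_4d5ce1_nt.fa_eq w hx', Pool.Agent.Lib.MP_4d5ce1_nt.fa_eq v hx,
        nv_up h, ordv_up h, ← zpow_natCast, ← zpow_natCast, ← zpow_mul, ← zpow_mul]
      congr 1
      push_cast
      ring

/-- NU6b -/
theorem above_finset {K : Type*} (E : Type*) [Field K] [NumberField K] [Field E] [NumberField E]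
    [Algebra K E] (S : Finset (HeightOneSpectrum (𝓞 K))) :
    ∃ S' : Finset (HeightOneSpectrum (𝓞 E)),
      (S' : Set (HeightOneSpectrum (𝓞 E))) = above K E (S : Set (HeightOneSpectrum (𝓞 K))) ∧
      S'.card ≤ Module.finrank K E * S.card := by
  classical
  have key : ∀ v : HeightOneSpectrum (𝓞 K), ∃ T : Finset (HeightOneSpectrum (𝓞 E)),
      (∀ w, w ∈ T ↔ w.asIdeal.comap (algebraMap (𝓞 K) (𝓞 E)) = v.asIdeal) ∧
      T.card ≤ Module.finrank K E := by
    intro v
    have hmax : v.asIdeal.IsMaximal := v.isMaximal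
    have hinj : Set.InjOn (fun w : HeightOneSpectrum (𝓞 E) => w.asIdeal)
        ((fun w : HeightOneSpectrum (𝓞 E) => w.asIdeal) ⁻¹'
          (IsDedekindDomain.primesOverFinset v.asIdeal (𝓞 E) : Set (Ideal (𝓞 E)))) := by
      intro a _ b _ hab
      exact HeightOneSpectrum.ext hab
    refine ⟨(IsDedekindDomain.primesOverFinset v.asIdeal (𝓞 E)).preimage
      (fun w : HeightOneSpectrum (𝓞 E) => w.asIdeal) hinj, ?_, ?_⟩
    · intro w
      rw [Finset.mem_preimage, IsDedekindDomain.mem_primesOverFinset_iff v.ne_bot]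
      constructor
      · intro hw
        exact (hw.2.over).symm
      · intro hw
        exact ⟨w.isPrime, ⟨hw.symm⟩⟩
    · have hcard : (IsDedekindDomain.primesOverFinset v.asIdeal (𝓞 E)).card ≤
          Module.finrank K E := by
        rw [← Ideal.sum_ramification_inertia (𝓞 E) K E v.ne_bot, Finset.card_eq_sum_ones]
        refine Finset.sum_le_sum fun P hP ↦ ?_
        have : P.IsPrime := ((IsDedekindDomain.mem_primesOverFinset_iff v.ne_bot _).mp hP).1
        have : P.LiesOver v.asIdeal :=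
          ((IsDedekindDomain.mem_primesOverFinset_iff v.ne_bot _).mp hP).2
        refine Right.one_le_mul ?_ ?_
        · exact Nat.pos_iff_ne_zero.mpr <|
            Ideal.IsDedekindDomain.ramificationIdx'_ne_zero_of_liesOver _ v.ne_bot
        · exact Nat.pos_iff_ne_zero.mpr <| Ideal.inertiaDeg'_ne_zero v.asIdeal P
      refine le_trans ?_ hcard
      exact Finset.card_le_card_of_injOn (fun w : HeightOneSpectrum (𝓞 E) => w.asIdeal)
        (fun w hw => Finset.mem_preimage.mp hw)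
        (fun a _ b _ hab => HeightOneSpectrum.ext hab)
  choose T hT hTc using key
  refine ⟨S.biUnion T, ?_, ?_⟩
  · ext w
    simp only [Finset.coe_biUnion, Set.mem_iUnion, Finset.mem_coe, above, exists_prop]
    constructor
    · rintro ⟨v, hv, hw⟩
      exact ⟨v, hv, (hT v w).mp hw⟩
    · rintro ⟨v, hv, hw⟩
      exact ⟨v, hv, (hT v w).mpr hw⟩
  · refine le_trans (Finset.card_biUnion_le) ?_
    refine le_trans (Finset.sum_le_card_nsmul S _ _ (fun v _ => hTc v)) ?_
    rw [smul_eq_mul, mul_comm]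

end Pool.Agent.Lib.MP_44a246_ntNU
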