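import Pool.Agent.Lib.MP_44a246_ntNF.NF5
import Pool.Agent.Lib.MP_44a246_ntNU.NU6

/-!
# Good reduction passes to extensions
-/

set_option autoImplicit false

open NumberField IsDedekindDomain Height
open Pool.Agent.Lib.MP_4d5ce1_nt (fa nv ordv)
open Pool.Agent.Lib.MP_44a246_ntNF

namespace Pool.Agent.Lib.MP_44a246_ntNU

universe u

/-- There is a prime below every prime. -/
lemma exists_below {K : Type*} {E : Type*} [Field K] [NumberField K] [Field E] [NumberField E]
    [Algebra K E] (w : HeightOneSpectrum (𝓞 E)) :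
    ∃ v : HeightOneSpectrum (𝓞 K), w.asIdeal.comap (algebraMap (𝓞 K) (𝓞 E)) = v.asIdeal := by
  have hp : (w.asIdeal.comap (algebraMap (𝓞 K) (𝓞 E))).IsPrime := by
    have := w.isPrime
    exact Ideal.comap_isPrime _ _
  refine ⟨⟨w.asIdeal.comap (algebraMap (𝓞 K) (𝓞 E)), hp, ?_⟩, rfl⟩
  intro h
  exact w.ne_bot (Ideal.eq_bot_of_comap_eq_bot h)

/-- NU6c -/
theorem good_up {K : Type*} {E : Type*} [Field K] [NumberField K] [Field E] [NumberField E]
    [Algebra K E] {n q : ℕ} (hq : n + 1 ≤ q) {L : Fin q → Fin (n + 1) → K}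
    {cc : Finset (Fin q) → Fin q → K}
    (hL : ∀ J : Fin (n + 1) → Fin q, Function.Injective J →
      LinearIndependent K (fun i => L (J i)))
    {S : Finset (HeightOneSpectrum (𝓞 K))} (hcc : IsRel L cc) (hS : Good L cc S)
    (S' : Finset (HeightOneSpectrum (𝓞 E)))
    (hS' : (S' : Set (HeightOneSpectrum (𝓞 E))) =
      above K E (S : Set (HeightOneSpectrum (𝓞 K)))) :
    IsRel (up E L) (fun C j => algebraMap K E (cc C j)) ∧
      Good (up E L) (fun C j => algebraMap K E (cc C j)) S' ∧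
      (∀ J : Fin (n + 1) → Fin q, Function.Injective J →
        LinearIndependent E (fun i => up E L (J i))) := by
  classical
  have hinj : Function.Injective (algebraMap K E) := (algebraMap K E).injective
  have hdet : ∀ J : Fin (n + 1) → Fin q, Function.Injective J →
      IsUnit (Matrix.of fun i => L (J i)).det := by
    intro J hJ
    have h2 := (Matrix.linearIndependent_rows_iff_isUnit (A := Matrix.of fun i => L (J i))).1
      (hL J hJ)
    exact (Matrix.isUnit_iff_isUnit_det _).1 h2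
  have hbelow : ∀ w ∉ S', ∃ v : HeightOneSpectrum (𝓞 K), v ∉ S ∧ ∃ m : ℕ, 1 ≤ m ∧
      ∀ x : K, fa w (algebraMap K E x) = fa v x ^ m := by
    intro w hw
    obtain ⟨v, hv⟩ := exists_below (K := K) w
    refine ⟨v, ?_, ?_⟩
    · intro hvS
      apply hw
      have h1 : w ∈ (S' : Set (HeightOneSpectrum (𝓞 E))) := by
        rw [hS']
        exact ⟨v, hvS, hv⟩
      exact h1
    · obtain ⟨m, hm, _, h⟩ := fa_up_lt_iff (K := K) (E := E) hv
      exact ⟨m, hm, h⟩
  refine ⟨?_, ⟨?_, ?_, ?_, ?_⟩, ?_⟩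
  · intro C hC
    obtain ⟨h1, h2⟩ := hcc C hC
    refine ⟨fun j => ?_, ?_⟩
    · rw [← h1 j]
      simp
    · funext i
      have h3 := congrFun h2 i
      simp only [Finset.sum_apply, Pi.smul_apply, smul_eq_mul, Pi.zero_apply] at h3 ⊢
      simp only [up]
      rw [← map_zero (algebraMap K E), ← h3, map_sum]
      refine Finset.sum_congr rfl fun j _ => ?_
      rw [map_mul]
  · intro w hw j x
    obtain ⟨v, hv, m, _, hm⟩ := hbelow w hw
    unfold lin
    refine Pool.Agent.Lib.MP_4d5ce1_nt.fa_sum_le w _ _ _ (sz_nonneg w x) fun i _ => ?_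
    rw [Pool.Agent.Lib.MP_4d5ce1_nt.fa_mul]
    have h1 : fa w (up E L j i) ≤ 1 := by
      simp only [up]
      rw [hm]
      refine pow_le_one₀ (Pool.Agent.Lib.MP_4d5ce1_nt.fa_nonneg v _) ?_
      rw [← hS.one v hv j]
      exact fa_le_sz v (L j) i
    calc fa w (up E L j i) * fa w (x i) ≤ 1 * sz w x :=
          mul_le_mul h1 (fa_le_sz w x i) (Pool.Agent.Lib.MP_4d5ce1_nt.fa_nonneg w _) zero_le_one
      _ = sz w x := one_mul _
  · intro w hw j
    obtain ⟨v, hv, m, _, hm⟩ := hbelow w hw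
    have hone := hS.one v hv j
    refine le_antisymm (ciSup_le fun i => ?_) ?_
    · simp only [up]
      rw [hm]
      refine pow_le_one₀ (Pool.Agent.Lib.MP_4d5ce1_nt.fa_nonneg v _) ?_
      rw [← hone]
      exact fa_le_sz v (L j) i
    · obtain ⟨i, hi⟩ := exists_eq_ciSup_of_finite (f := fun i => fa v (L j i))
      have h1 : fa v (L j i) = 1 := by
        rw [← hone]
        exact hi
      have h2 : fa w (up E L j i) = 1 := by
        simp only [up]
        rw [hm, h1, one_pow]
      rw [← h2]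
      exact fa_le_sz w (up E L j) i
  · intro w hw J hJ x
    obtain ⟨v, hv, m, _, hm⟩ := hbelow w hw
    have hu := hdet J hJ
    set M : Matrix (Fin (n + 1)) (Fin (n + 1)) K := Matrix.of fun i => L (J i) with hM
    have hMN : M * M⁻¹ = 1 := Matrix.mul_nonsing_inv M hu
    have hNM : M⁻¹ * M = 1 := Matrix.nonsing_inv_mul M hu
    have hN : ∀ a k, fa v (M⁻¹ a k) ≤ 1 := by
      intro a k
      obtain ⟨i, hi⟩ := hS.ge v hv J hJ (fun b => M⁻¹ b k)
      have h1 : lin (L (J i)) (fun b => M⁻¹ b k) = (1 : Matrix (Fin (n + 1)) (Fin (n + 1)) K) i k := by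
        rw [← hMN, Matrix.mul_apply]
        rfl
      rw [h1] at hi
      refine (fa_le_sz v (fun b => M⁻¹ b k) a).trans (hi.trans ?_)
      rw [Matrix.one_apply]
      split_ifs
      · rw [Pool.Agent.Lib.MP_4d5ce1_nt.fa_one]
      · rw [Pool.Agent.Lib.MP_4d5ce1_nt.fa_zero]
        exact zero_le_one
    obtain ⟨i₀, hi₀⟩ := Finite.exists_max (fun i => fa w (lin (up E L (J i)) x))
    refine ⟨i₀, ciSup_le fun a => ?_⟩
    have hmap : (M⁻¹.map (algebraMap K E)) * (M.map (algebraMap K E)) = 1 := by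
      rw [← Matrix.map_mul, hNM, Matrix.map_one _ (map_zero _) (map_one _)]
    have hx : x a = ∑ k, algebraMap K E (M⁻¹ a k) * lin (up E L (J k)) x := by
      have h1 : ((M⁻¹.map (algebraMap K E)) * (M.map (algebraMap K E))).mulVec x a = x a := by
        rw [hmap, Matrix.one_mulVec]
      rw [← h1, ← Matrix.mulVec_mulVec]
      rfl
    rw [hx]
    refine Pool.Agent.Lib.MP_4d5ce1_nt.fa_sum_le w _ _ _
      (Pool.Agent.Lib.MP_4d5ce1_nt.fa_nonneg w _) fun k _ => ?_
    rw [Pool.Agent.Lib.MP_4d5ce1_nt.fa_mul]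
    have h1 : fa w (algebraMap K E (M⁻¹ a k)) ≤ 1 := by
      rw [hm]
      exact pow_le_one₀ (Pool.Agent.Lib.MP_4d5ce1_nt.fa_nonneg v _) (hN a k)
    calc fa w (algebraMap K E (M⁻¹ a k)) * fa w (lin (up E L (J k)) x) ≤
          1 * fa w (lin (up E L (J i₀)) x) :=
          mul_le_mul h1 (hi₀ k) (Pool.Agent.Lib.MP_4d5ce1_nt.fa_nonneg w _) zero_le_one
      _ = fa w (lin (up E L (J i₀)) x) := one_mul _
  · intro w hw C hC j hj
    obtain ⟨v, hv, m, _, hm⟩ := hbelow w hw
    rw [hm, hS.cone v hv C hC j hj, one_pow]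
  · intro J hJ
    have h1 : IsUnit (Matrix.of fun i => up E L (J i)).det := by
      have h2 : (Matrix.of fun i => up E L (J i)) =
          (algebraMap K E).mapMatrix (Matrix.of fun i => L (J i)) := by
        ext a b
        rfl
      rw [h2, ← RingHom.map_det]
      exact (hdet J hJ).map (algebraMap K E)
    exact (Matrix.linearIndependent_rows_iff_isUnit (A := Matrix.of fun i => up E L (J i))).2
      ((Matrix.isUnit_iff_isUnit_det _).2 h1)

end Pool.Agent.Lib.MP_44a246_ntNU
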