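import Pool.Agent.Lib.MP_44a246_ntNU.FC4

/-!
# MP_44a246_nt, FC5, part a: finite sets of roots
-/

set_option autoImplicit false

open NumberField

namespace Pool.Agent.Lib.MP_44a246_ntNU

universe u

/-- The integral elements of a box are in a small finite set. -/
theorem fc5_box (d : ℕ) (R : ℝ) : ∃ C : ℝ, 0 < C ∧
    ∀ (E : Type u) [Field E] [NumberField E], Module.finrank ℚ E ≤ d →
      ∀ (v₀ : InfinitePlace E) (Z : ℝ), 1 ≤ Z → ∃ A : Finset E, (A.card : ℝ) ≤ C * Z ∧
        ∀ x : E, IsIntegral ℤ x → (∀ v : InfinitePlace E, v ≠ v₀ → v x ≤ R) →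
          v₀ x ^ v₀.mult ≤ Z → x ∈ A := by
  classical
  obtain ⟨C, hC, h⟩ := card_box_u.{u} d R
  refine ⟨C, hC, ?_⟩
  intro E _ _ hd v₀ Z hZ
  set S : Set (𝓞 E) := {c | (∀ v : InfinitePlace E, v ≠ v₀ → v (c : E) ≤ R) ∧
    v₀ (c : E) ^ v₀.mult ≤ Z} with hS
  have hfin : S.Finite := by
    by_contra hinf
    obtain ⟨n, hn⟩ := exists_nat_gt (C * Z)
    obtain ⟨t, ht, htc⟩ := Set.Infinite.exists_subset_card_eq hinf n
    have := h E hd v₀ Z hZ t (fun c hc => ht hc)
    rw [htc] at this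
    linarith
  refine ⟨hfin.toFinset.image (fun c : 𝓞 E => (c : E)), ?_, ?_⟩
  · have h0 : ∀ c ∈ hfin.toFinset, (∀ v : InfinitePlace E, v ≠ v₀ → v (c : E) ≤ R) ∧
        v₀ (c : E) ^ v₀.mult ≤ Z := fun c hc => (Set.Finite.mem_toFinset hfin).mp hc
    refine le_trans ?_ (h E hd v₀ Z hZ hfin.toFinset h0)
    exact_mod_cast Finset.card_image_le
  · intro x hx h1 h2
    rw [Finset.mem_image]
    exact ⟨⟨x, hx⟩, by rw [Set.Finite.mem_toFinset]; exact ⟨h1, h2⟩, rfl⟩

open Polynomial in
/-- The roots of the monic polynomials with lower coefficients in given finite sets. -/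
theorem fc5_roots {F : Type*} [Field F] (Ω : Type*) [Field Ω] [Algebra F Ω] (n : ℕ)
    (A : Fin n → Finset F) : ∃ T : Finset Ω, T.card ≤ (∏ i, (A i).card) * n ∧
      ∀ (t : Ω) (p : F[X]), p.Monic → p.natDegree = n → (∀ i : Fin n, p.coeff i ∈ A i) →
        aeval t p = 0 → t ∈ T := by
  classical
  set P : (Fin n → F) → F[X] := fun f => X ^ n + ∑ i : Fin n, C (f i) * X ^ (i : ℕ) with hP
  have hdeg : ∀ f : Fin n → F, (∑ i : Fin n, C (f i) * X ^ (i : ℕ) : F[X]).degree < n :=
    fun f => degree_sum_fin_lt f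
  refine ⟨(Fintype.piFinset A).biUnion (fun f => ((P f).aroots Ω).toFinset), ?_, ?_⟩
  · refine le_trans (Finset.card_biUnion_le_card_mul _ _ n ?_) ?_
    · intro f _
      refine le_trans (Multiset.toFinset_card_le _) ?_
      refine le_trans (card_roots' _) ?_
      refine le_trans natDegree_map_le ?_
      refine natDegree_le_of_degree_le ?_
      refine le_trans (degree_add_le _ _) ?_
      rw [degree_X_pow]
      exact max_le le_rfl (hdeg f).le
    · rw [Fintype.card_piFinset]
  · intro t p hp hn hA ht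
    rw [Finset.mem_biUnion]
    refine ⟨fun i => p.coeff i, ?_, ?_⟩
    · rw [Fintype.mem_piFinset]
      exact hA
    · have hpP : P (fun i => p.coeff i) = p := by
        rw [hP]
        simp only
        conv_rhs => rw [hp.as_sum, hn]
        rw [Finset.sum_range]
      rw [Multiset.mem_toFinset, mem_aroots, hpP]
      exact ⟨hp.ne_zero, ht⟩

open Polynomial in
/-- The roots of quadratic polynomials over a number field `F`, with coefficients in a box. -/
theorem fc5_quad (d : ℕ) : ∃ C : ℝ, 0 < C ∧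
    ∀ (F : Type u) [Field F] [NumberField F], Module.finrank ℚ F ≤ d →
      ∀ (Ω : Type u) [Field Ω] [Algebra F Ω] (Z : ℝ), 1 ≤ Z → ∃ T : Finset Ω, 
        (T.card : ℝ) ≤ C * Z ∧ ∀ (t : Ω) (vF : InfinitePlace F) (p : F[X]), vF.IsReal →
          p.Monic → p.natDegree = 2 → (∀ i, IsIntegral ℤ (p.coeff i)) →
          (∀ i, ∀ v : InfinitePlace F, v ≠ vF → v (p.coeff i) ≤ 4) → vF (p.coeff 1) ≤ 4 →
          vF (p.coeff 0) ≤ Z → aeval t p = 0 → t ∈ T := by
  classical
  obtain ⟨C, hC, h⟩ := fc5_box.{u} d 4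
  refine ⟨(d + 1) * (2 * ((C * 4) * C)), by positivity, ?_⟩
  intro F _ _ hd Ω _ _ Z hZ
  choose A hA1 hA2 using fun vF : InfinitePlace F => h F hd vF Z hZ
  choose B hB1 hB2 using fun vF : InfinitePlace F => h F hd vF 4 (by norm_num)
  choose T hT1 hT2 using fun vF : InfinitePlace F => fc5_roots Ω 2 ![A vF, B vF]
  refine ⟨Finset.univ.biUnion T, ?_, ?_⟩
  · have h1 : ∀ vF : InfinitePlace F, ((T vF).card : ℝ) ≤ 2 * ((C * 4) * C) * Z := by
      intro vF
      have h2 : ((T vF).card : ℝ) ≤ ((A vF).card * (B vF).card) * 2 := by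
        have := hT1 vF
        simp only [Fin.prod_univ_two, Matrix.cons_val_zero, Matrix.cons_val_one] at this
        exact_mod_cast this
      refine le_trans h2 ?_
      have h3 : ((A vF).card : ℝ) * (B vF).card ≤ (C * Z) * (C * 4) :=
        mul_le_mul (hA1 vF) (hB1 vF) (by positivity) (by positivity)
      nlinarith
    have h4 : ((Finset.univ.biUnion T).card : ℝ) ≤ ∑ vF : InfinitePlace F, ((T vF).card : ℝ) := by
      exact_mod_cast Finset.card_biUnion_le
    refine le_trans h4 ?_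
    refine le_trans (Finset.sum_le_sum (fun vF _ => h1 vF)) ?_
    rw [Finset.sum_const, nsmul_eq_mul, Finset.card_univ]
    have h5 : (Fintype.card (InfinitePlace F) : ℝ) ≤ d + 1 := by
      have h6 : Fintype.card (InfinitePlace F) ≤ Module.finrank ℚ F := by
        rw [← InfinitePlace.card_add_two_mul_card_eq_rank F]
        rw [InfinitePlace.card_eq_nrRealPlaces_add_nrComplexPlaces]
        omega
      have : Fintype.card (InfinitePlace F) ≤ d + 1 := by omega
      exact_mod_cast this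
    have h7 : 0 ≤ 2 * ((C * 4) * C) * Z := by positivity
    calc (Fintype.card (InfinitePlace F) : ℝ) * (2 * ((C * 4) * C) * Z)
        ≤ (d + 1) * (2 * ((C * 4) * C) * Z) := mul_le_mul_of_nonneg_right h5 h7
      _ = _ := by ring
  · intro t vF p hvF hp hn hint h1 h2 h3 ht
    rw [Finset.mem_biUnion]
    refine ⟨vF, Finset.mem_univ _, hT2 vF t p hp hn ?_ ht⟩
    rw [Fin.forall_fin_two]
    refine ⟨?_, ?_⟩
    · simp only [Matrix.cons_val_zero, Fin.val_zero]
      refine hA2 vF _ (hint 0) (fun v hv => h1 0 v hv) ?_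
      rw [hvF.mult_eq_one, pow_one]
      exact h3
    · simp only [Matrix.cons_val_one, Fin.val_one]
      refine hB2 vF _ (hint 1) (fun v hv => h1 1 v hv) ?_
      rw [hvF.mult_eq_one, pow_one]
      exact h2

end Pool.Agent.Lib.MP_44a246_ntNU
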