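import Pool.Agent.Lib.MP_44a246_ntNU.Defs

set_option autoImplicit false

open NumberField IsDedekindDomain Height

namespace Pool.Agent.Lib.MP_44a246_ntNU

variable {K : Type*} {L : Type*} [Field K] [NumberField K] [Field L] [NumberField L] [Algebra K L]

section fc2

omit [NumberField K] [Algebra K L] in
/-- An embedding with the same value at `a`. -/
private lemma fc2_key {w₀ : InfinitePlace L} {a : 𝓞 L} (ha : a ≠ 0)
    (hw : ∀ w : InfinitePlace L, w ≠ w₀ → w (a : L) < 1) (ψ : L →+* ℂ)
    (hψ : w₀.embedding (a : L) = ψ (a : L)) :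
    w₀.embedding = ψ ∨ ComplexEmbedding.conjugate w₀.embedding = ψ := by
  have h : 1 ≤ w₀ (a : L) := InfinitePlace.one_le_of_lt_one ha (fun w' h' => hw w' h')
  have main : w₀ = InfinitePlace.mk ψ := by
    rw [← InfinitePlace.norm_embedding_eq, hψ] at h
    contrapose! h
    exact hw _ h.symm
  rw [(InfinitePlace.mk_embedding w₀).symm, InfinitePlace.mk_eq_iff] at main
  exact main

omit [NumberField K] [NumberField L] in
private lemma fc2_comap (w₀ : InfinitePlace L) : w₀.comap (algebraMap K L) =
    InfinitePlace.mk (w₀.embedding.comp (algebraMap K L)) := by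
  conv_lhs => rw [← InfinitePlace.mk_embedding w₀]
  rw [InfinitePlace.comap_mk]

/-- FC2a -/
theorem prim_of_mult {w₀ : InfinitePlace L} (h : w₀.mult = (w₀.comap (algebraMap K L)).mult)
    {a : 𝓞 L} (ha : a ≠ 0) (hw : ∀ w : InfinitePlace L, w ≠ w₀ → w (a : L) < 1) :
    IntermediateField.adjoin K {(a : L)} = ⊤ := by
  let _ : Algebra K ℂ := (w₀.embedding.comp (algebraMap K L)).toAlgebra
  let φ : L →ₐ[K] ℂ := { w₀.embedding with commutes' := fun _ => rfl }
  refine (Field.primitive_element_iff_algHom_eq_of_eval K ℂ
    (fun x => IsAlgClosed.splits _) _ φ).mpr ?_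
  intro ψ hψ
  rcases fc2_key ha hw ψ.toRingHom hψ with h1 | h1
  · apply AlgHom.coe_ringHom_injective
    exact h1
  · have h2 : ComplexEmbedding.conjugate (w₀.embedding.comp (algebraMap K L)) =
        w₀.embedding.comp (algebraMap K L) := by
      ext x
      have h3 := RingHom.congr_fun h1 (algebraMap K L x)
      have h4 : ψ (algebraMap K L x) = algebraMap K ℂ x := ψ.commutes x
      exact h3.trans h4
    have h5 : (w₀.comap (algebraMap K L)).IsReal := by
      rw [fc2_comap, InfinitePlace.isReal_mk_iff, ComplexEmbedding.isReal_iff]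
      exact h2
    rw [h5.mult_eq_one] at h
    have h6 : w₀.IsReal := by
      by_contra h7
      rw [InfinitePlace.not_isReal_iff_isComplex] at h7
      rw [h7.mult_eq_two] at h
      omega
    rw [InfinitePlace.conjugate_embedding_eq_of_isReal h6] at h1
    apply AlgHom.coe_ringHom_injective
    exact h1

/-- FC2b -/
theorem prim_of_im {w₀ : InfinitePlace L} {a : 𝓞 L} (ha : a ≠ 0)
    (hw : ∀ w : InfinitePlace L, w ≠ w₀ → w (a : L) < 1)
    (him : (w₀.embedding (a : L)).im ≠ 0) :
    IntermediateField.adjoin K {(a : L)} = ⊤ := by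
  let _ : Algebra K ℂ := (w₀.embedding.comp (algebraMap K L)).toAlgebra
  let φ : L →ₐ[K] ℂ := { w₀.embedding with commutes' := fun _ => rfl }
  refine (Field.primitive_element_iff_algHom_eq_of_eval K ℂ
    (fun x => IsAlgClosed.splits _) _ φ).mpr ?_
  intro ψ hψ
  rcases fc2_key ha hw ψ.toRingHom hψ with h1 | h1
  · apply AlgHom.coe_ringHom_injective
    exact h1
  · exfalso
    apply him
    rw [← Complex.conj_eq_iff_im]
    have h3 := RingHom.congr_fun h1 (a : L)
    exact h3.trans hψ.symm

/-- FC2c -/
theorem finrank_of_im {w₀ : InfinitePlace L} (h0 : w₀.IsComplex)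
    (h1 : (w₀.comap (algebraMap K L)).IsReal) {a : 𝓞 L} (ha : a ≠ 0)
    (hw : ∀ w : InfinitePlace L, w ≠ w₀ → w (a : L) < 1)
    (him : (w₀.embedding (a : L)).im = 0) :
    Module.finrank (IntermediateField.adjoin K {(a : L)}) L = 2 ∧
      (w₀.comap (algebraMap (IntermediateField.adjoin K {(a : L)}) L)).IsReal := by
  classical
  have hreal : ComplexEmbedding.conjugate (w₀.embedding.comp (algebraMap K L)) =
      w₀.embedding.comp (algebraMap K L) := by
    rw [fc2_comap, InfinitePlace.isReal_mk_iff, ComplexEmbedding.isReal_iff] at h1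
    exact h1
  have hF : ∀ x : IntermediateField.adjoin K {(a : L)},
      ComplexEmbedding.conjugate w₀.embedding (x : L) = w₀.embedding (x : L) := by
    let _ : Algebra K ℂ := (w₀.embedding.comp (algebraMap K L)).toAlgebra
    let φ : L →ₐ[K] ℂ := { w₀.embedding with commutes' := fun _ => rfl }
    let φ' : L →ₐ[K] ℂ := { ComplexEmbedding.conjugate w₀.embedding with
      commutes' := fun x => RingHom.congr_fun hreal x }
    have h2 : φ'.comp (IntermediateField.adjoin K {(a : L)}).val =
        φ.comp (IntermediateField.adjoin K {(a : L)}).val := by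
      apply IntermediateField.algHom_ext_of_eq_adjoin K rfl
      intro x hx
      rw [Set.mem_singleton_iff] at hx
      subst hx
      change ComplexEmbedding.conjugate w₀.embedding (a : L) = w₀.embedding (a : L)
      rw [ComplexEmbedding.conjugate_coe_eq, Complex.conj_eq_iff_im]
      exact him
    intro x
    exact AlgHom.congr_fun h2 x
  constructor
  · let _ : Algebra (IntermediateField.adjoin K {(a : L)}) ℂ :=
      (w₀.embedding.comp (algebraMap (IntermediateField.adjoin K {(a : L)}) L)).toAlgebra
    let φ : L →ₐ[IntermediateField.adjoin K {(a : L)}] ℂ :=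
      { w₀.embedding with commutes' := fun _ => rfl }
    let φ' : L →ₐ[IntermediateField.adjoin K {(a : L)}] ℂ :=
      { ComplexEmbedding.conjugate w₀.embedding with commutes' := fun x => hF x }
    have hne : φ ≠ φ' := by
      intro h2
      apply InfinitePlace.not_isReal_iff_isComplex.mpr h0
      rw [InfinitePlace.isReal_iff, ComplexEmbedding.isReal_iff]
      ext x
      exact (AlgHom.congr_fun h2 x).symm
    rw [← AlgHom.card (IntermediateField.adjoin K {(a : L)}) L ℂ]
    have huniv : (Finset.univ : Finset (L →ₐ[IntermediateField.adjoin K {(a : L)}] ℂ)) =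
        {φ, φ'} := by
      ext ψ
      simp only [Finset.mem_univ, Finset.mem_insert, Finset.mem_singleton, true_iff]
      have hψ : w₀.embedding (a : L) = ψ (a : L) := by
        have h3 := ψ.commutes (IntermediateField.AdjoinSimple.gen K (a : L))
        exact h3.symm
      rcases fc2_key ha hw ψ.toRingHom hψ with h4 | h4
      · left
        apply AlgHom.coe_ringHom_injective
        exact h4.symm
      · right
        apply AlgHom.coe_ringHom_injective
        exact h4.symm
    rw [← Finset.card_univ, huniv]
    exact Finset.card_pair hne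
  · have h2 : w₀.comap (algebraMap (IntermediateField.adjoin K {(a : L)}) L) =
        InfinitePlace.mk (w₀.embedding.comp
          (algebraMap (IntermediateField.adjoin K {(a : L)}) L)) := by
      conv_lhs => rw [← InfinitePlace.mk_embedding w₀]
      rw [InfinitePlace.comap_mk]
    rw [h2, InfinitePlace.isReal_mk_iff, ComplexEmbedding.isReal_iff]
    ext x
    exact hF x

end fc2

end Pool.Agent.Lib.MP_44a246_ntNU
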