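import Pool.Agent.Lib.MP_44a246_ntNU.Defs

set_option autoImplicit false

open NumberField IsDedekindDomain Polynomial

namespace Pool.Agent.Lib.MP_44a246_ntNU

universe u

variable {K : Type*} {L : Type*} [Field K] [NumberField K] [Field L] [NumberField L] [Algebra K L]

/-- the roots of the minimal polynomial under an embedding -/
theorem FC3_mem_roots (φ : K →+* ℂ) (x : L) (z : ℂ) :
    z ∈ ((minpoly K x).map φ).roots ↔
      ∃ ψ : L →+* ℂ, ψ.comp (algebraMap K L) = φ ∧ ψ x = z := by
  have : FiniteDimensional K L := Module.Finite.of_restrictScalars_finite ℚ K L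
  let _ : Algebra K ℂ := φ.toAlgebra
  have h := Algebra.IsAlgebraic.range_eval_eq_rootSet_minpoly (F := K) (K := L) ℂ x
  have h2 : z ∈ (minpoly K x).rootSet ℂ ↔ z ∈ ((minpoly K x).map φ).roots := by
    rw [Polynomial.rootSet, Finset.mem_coe, Multiset.mem_toFinset]
    rfl
  rw [← h2, ← h]
  constructor
  · rintro ⟨ψ, hψ⟩
    refine ⟨ψ.toRingHom, ?_, hψ⟩
    ext y
    exact ψ.commutes y
  · rintro ⟨ψ, hψ, hz⟩
    refine ⟨{ ψ with commutes' := fun y => ?_ }, hz⟩
    exact RingHom.congr_fun hψ y

theorem FC3_nodup (φ : K →+* ℂ) (x : L) : ((minpoly K x).map φ).roots.Nodup := by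
  have : FiniteDimensional K L := Module.Finite.of_restrictScalars_finite ℚ K L
  apply Polynomial.nodup_roots
  have : (minpoly K x).Separable :=
    (minpoly.irreducible (Algebra.IsIntegral.isIntegral x)).separable
  exact this.map

theorem FC3_bound (φ : K →+* ℂ) (x : L) (i : ℕ) :
    ‖φ ((minpoly K x).coeff i)‖ ≤ 2 ^ Module.finrank K L *
      ∏ z ∈ ((minpoly K x).map φ).roots.toFinset, max 1 ‖z‖ := by
  have : FiniteDimensional K L := Module.Finite.of_restrictScalars_finite ℚ K L
  have hm : ((minpoly K x).map φ).Monic :=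
    (minpoly.monic (Algebra.IsIntegral.isIntegral x)).map φ
  have h := Polynomial.norm_coeff_le_choose_mul_mahlerMeasure i ((minpoly K x).map φ)
  rw [Polynomial.coeff_map] at h
  rw [Polynomial.mahlerMeasure_eq_leadingCoeff_mul_prod_roots, hm.leadingCoeff, norm_one,
    one_mul] at h
  have h3 : (((minpoly K x).map φ).roots.map (fun a ↦ max 1 ‖a‖)).prod =
      ∏ z ∈ ((minpoly K x).map φ).roots.toFinset, max 1 ‖z‖ := by
    rw [Finset.prod_eq_multiset_prod, Multiset.toFinset_val, Multiset.dedup_eq_self.2
      (FC3_nodup φ x)]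
  rw [h3] at h
  refine h.trans ?_
  have hpos : (0 : ℝ) ≤ ∏ z ∈ ((minpoly K x).map φ).roots.toFinset, max 1 ‖z‖ :=
    Finset.prod_nonneg (fun z _ => le_trans zero_le_one (le_max_left _ _))
  apply mul_le_mul_of_nonneg_right _ hpos
  have h4 : (((minpoly K x).map φ).natDegree.choose i : ℝ) ≤
      2 ^ ((minpoly K x).map φ).natDegree := by
    exact_mod_cast Nat.choose_le_two_pow _ _
  refine h4.trans ?_
  apply pow_le_pow_right₀ (by norm_num)
  rw [Polynomial.natDegree_map]
  exact minpoly.natDegree_le x

theorem FC3_prod_le (s t : Finset ℂ) (h : ∀ z ∈ s, z ∉ t → ‖z‖ < 1) :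
    ∏ z ∈ s, max 1 ‖z‖ ≤ ∏ z ∈ t, max 1 ‖z‖ := by
  classical
  have h1 : ∏ z ∈ s, max 1 ‖z‖ = ∏ z ∈ s.filter (· ∈ t), max 1 ‖z‖ := by
    rw [Finset.prod_filter]
    apply Finset.prod_congr rfl
    intro z hz
    split_ifs with hzt
    · rfl
    · exact max_eq_left (h z hz hzt).le
  rw [h1]
  have hsub : s.filter (· ∈ t) ⊆ t := fun z hz => (Finset.mem_filter.1 hz).2
  rw [← Finset.prod_sdiff hsub]
  have h2 : (1 : ℝ) ≤ ∏ z ∈ t \ s.filter (· ∈ t), max 1 ‖z‖ := by
    apply Finset.prod_induction _ (fun r : ℝ => 1 ≤ r)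
    · intro a b ha hb
      nlinarith
    · exact le_rfl
    · intro z _
      exact le_max_left _ _
  have h3 : (0 : ℝ) ≤ ∏ z ∈ s.filter (· ∈ t), max 1 ‖z‖ :=
    Finset.prod_nonneg (fun z _ => le_trans zero_le_one (le_max_left _ _))
  nlinarith

omit [NumberField L] in
/-- a root of absolute value at least `1` comes from the place `w₀` -/
theorem FC3_big {w₀ : InfinitePlace L} {x : L}
    (hw : ∀ w : InfinitePlace L, w ≠ w₀ → w x < 1) (ψ : L →+* ℂ) (h1 : 1 ≤ ‖ψ x‖) :
    w₀.embedding = ψ ∨ ComplexEmbedding.conjugate w₀.embedding = ψ := by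
  have h : InfinitePlace.mk ψ = w₀ := by
    by_contra hne
    have := hw _ hne
    rw [InfinitePlace.apply] at this
    linarith
  rw [← InfinitePlace.mk_embedding w₀] at h
  exact InfinitePlace.mk_eq_iff.1 h.symm

theorem FC3_other {w₀ : InfinitePlace L} {x : L}
    (hw : ∀ w : InfinitePlace L, w ≠ w₀ → w x < 1) (v : InfinitePlace K)
    (hv : v ≠ w₀.comap (algebraMap K L)) (i : ℕ) :
    v ((minpoly K x).coeff i) ≤ 2 ^ Module.finrank K L := by
  have h := FC3_bound v.embedding x i
  have h2 := FC3_prod_le ((minpoly K x).map v.embedding).roots.toFinset ∅ (by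
    intro z hz _
    rw [Multiset.mem_toFinset, FC3_mem_roots] at hz
    obtain ⟨ψ, hψ, rfl⟩ := hz
    by_contra hcon
    push Not at hcon
    apply hv
    rw [← InfinitePlace.mk_embedding v, ← InfinitePlace.mk_embedding w₀,
      InfinitePlace.comap_mk, InfinitePlace.mk_eq_iff]
    rcases FC3_big hw ψ hcon with h | h
    · left
      rw [h, hψ]
    · right
      rw [← hψ, ← h]
      ext y
      simp)
  rw [Finset.prod_empty] at h2
  have h3 : (0 : ℝ) < 2 ^ Module.finrank K L := by positivity
  have h4 : v ((minpoly K x).coeff i) = ‖v.embedding ((minpoly K x).coeff i)‖ :=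
    (InfinitePlace.norm_embedding_eq v _).symm
  rw [h4]
  nlinarith

theorem FC3_max_sq {a : ℝ} (ha : 0 ≤ a) : max 1 (a ^ 2) = max 1 a ^ 2 := by
  rcases le_total a 1 with h | h
  · rw [max_eq_left h, max_eq_left (by nlinarith)]
    norm_num
  · rw [max_eq_right h, max_eq_right (by nlinarith)]

theorem FC3_prod_main {w₀ : InfinitePlace L} {x : L}
    (hw : ∀ w : InfinitePlace L, w ≠ w₀ → w x < 1) :
    (∏ z ∈ ((minpoly K x).map (w₀.comap (algebraMap K L)).embedding).roots.toFinset,
        max 1 ‖z‖) ^ (w₀.comap (algebraMap K L)).mult ≤ max 1 (w₀ x ^ w₀.mult) := by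
  classical
  set v := w₀.comap (algebraMap K L) with hv
  have hn1 : ‖w₀.embedding x‖ = w₀ x := InfinitePlace.norm_embedding_eq w₀ x
  have hn2 : ‖ComplexEmbedding.conjugate w₀.embedding x‖ = w₀ x := by
    rw [ComplexEmbedding.conjugate_coe_eq, RCLike.norm_conj, hn1]
  have hpos : 0 ≤ w₀ x := by
    rw [← hn1]
    exact norm_nonneg _
  have hP : (0 : ℝ) ≤ ∏ z ∈ ((minpoly K x).map v.embedding).roots.toFinset, max 1 ‖z‖ :=
    Finset.prod_nonneg (fun z _ => le_trans zero_le_one (le_max_left _ _))
  have hm1 : 1 ≤ max 1 (w₀ x) := le_max_left _ _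
  rcases InfinitePlace.isReal_or_isComplex v with hvr | hvc
  · rw [hvr.mult_eq_one, pow_one]
    rcases InfinitePlace.isReal_or_isComplex w₀ with hwr | hwc
    · rw [hwr.mult_eq_one, pow_one]
      refine (FC3_prod_le _ {w₀.embedding x} ?_).trans ?_
      · intro z hz hz2
        rw [Multiset.mem_toFinset, FC3_mem_roots] at hz
        obtain ⟨ψ, hψ, rfl⟩ := hz
        by_contra hcon
        push Not at hcon
        apply hz2
        rw [Finset.mem_singleton]
        rcases FC3_big hw ψ hcon with h | h
        · rw [h]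
        · rw [← h, InfinitePlace.conjugate_embedding_eq_of_isReal hwr]
      · rw [Finset.prod_singleton, hn1]
    · rw [hwc.mult_eq_two, FC3_max_sq hpos]
      refine (FC3_prod_le _ {w₀.embedding x, ComplexEmbedding.conjugate w₀.embedding x}
        ?_).trans ?_
      · intro z hz hz2
        rw [Multiset.mem_toFinset, FC3_mem_roots] at hz
        obtain ⟨ψ, hψ, rfl⟩ := hz
        by_contra hcon
        push Not at hcon
        apply hz2
        rw [Finset.mem_insert, Finset.mem_singleton]
        rcases FC3_big hw ψ hcon with h | h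
        · left; rw [h]
        · right; rw [h]
      · by_cases he : w₀.embedding x = ComplexEmbedding.conjugate w₀.embedding x
        · rw [← he, Finset.pair_eq_singleton, Finset.prod_singleton, hn1]
          nlinarith
        · rw [Finset.prod_pair he, hn1, hn2, sq]
  · have hwc : w₀.IsComplex := by
      rw [← InfinitePlace.not_isReal_iff_isComplex]
      intro hwr
      rw [← InfinitePlace.not_isReal_iff_isComplex] at hvc
      exact hvc (hwr.comap (algebraMap K L))
    rw [hvc.mult_eq_two, hwc.mult_eq_two, FC3_max_sq hpos]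
    apply pow_le_pow_left₀ hP
    have hne : ComplexEmbedding.conjugate v.embedding ≠ v.embedding := by
      intro hc
      exact (InfinitePlace.isComplex_iff.1 hvc) hc
    by_cases h0 : w₀.embedding.comp (algebraMap K L) = v.embedding
    · refine (FC3_prod_le _ {w₀.embedding x} ?_).trans ?_
      · intro z hz hz2
        rw [Multiset.mem_toFinset, FC3_mem_roots] at hz
        obtain ⟨ψ, hψ, rfl⟩ := hz
        by_contra hcon
        push Not at hcon
        apply hz2
        rw [Finset.mem_singleton]
        rcases FC3_big hw ψ hcon with h | h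
        · rw [h]
        · exfalso
          apply hne
          rw [← h] at hψ
          nth_rewrite 2 [← hψ]
          rw [← h0]
          ext y
          simp
      · rw [Finset.prod_singleton, hn1]
    · refine (FC3_prod_le _ {ComplexEmbedding.conjugate w₀.embedding x} ?_).trans ?_
      · intro z hz hz2
        rw [Multiset.mem_toFinset, FC3_mem_roots] at hz
        obtain ⟨ψ, hψ, rfl⟩ := hz
        by_contra hcon
        push Not at hcon
        apply hz2
        rw [Finset.mem_singleton]
        rcases FC3_big hw ψ hcon with h | h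
        · exfalso
          apply h0
          rw [h, hψ]
        · rw [h]
      · rw [Finset.prod_singleton, hn2]

/-- FC3a -/
theorem coeff_le {w₀ : InfinitePlace L} {a : 𝓞 L}
    (hw : ∀ w : InfinitePlace L, w ≠ w₀ → w (a : L) < 1) (i : ℕ) :
    (∀ v : InfinitePlace K, v ≠ w₀.comap (algebraMap K L) →
      v ((minpoly K (a : L)).coeff i) ≤ 2 ^ Module.finrank K L) ∧
    (w₀.comap (algebraMap K L)) ((minpoly K (a : L)).coeff i) ^
        (w₀.comap (algebraMap K L)).mult ≤
      4 ^ Module.finrank K L * max 1 (w₀ (a : L) ^ w₀.mult) := by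
  refine ⟨fun v hv => FC3_other hw v hv i, ?_⟩
  have h1 := FC3_prod_main (K := K) hw
  have h2 := FC3_bound (w₀.comap (algebraMap K L)).embedding (a : L) i
  rw [InfinitePlace.norm_embedding_eq] at h2
  set v := w₀.comap (algebraMap K L) with hv
  set P := ∏ z ∈ ((minpoly K (a : L)).map v.embedding).roots.toFinset, max 1 ‖z‖ with hP
  have h3 : v ((minpoly K (a : L)).coeff i) ^ v.mult ≤
      (2 ^ Module.finrank K L * P) ^ v.mult := by
    apply pow_le_pow_left₀ _ h2
    rw [← InfinitePlace.norm_embedding_eq]
    exact norm_nonneg _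
  refine h3.trans ?_
  rw [mul_pow]
  have h4 : ((2 : ℝ) ^ Module.finrank K L) ^ v.mult ≤ 4 ^ Module.finrank K L := by
    have h5 : ((2 : ℝ) ^ Module.finrank K L) ^ v.mult ≤ ((2 : ℝ) ^ Module.finrank K L) ^ 2 := by
      apply pow_le_pow_right₀
      · exact one_le_pow₀ (by norm_num)
      · unfold InfinitePlace.mult
        split_ifs <;> norm_num
    refine h5.trans (le_of_eq ?_)
    rw [← pow_mul, mul_comm, pow_mul]
    norm_num
  have hP0 : 0 ≤ P ^ v.mult := by
    apply pow_nonneg
    exact Finset.prod_nonneg (fun z _ => le_trans zero_le_one (le_max_left _ _))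
  exact mul_le_mul h4 h1 hP0 (by positivity)

/-- two embeddings that agree on `K` and on a generator are equal -/
theorem FC3_ext {a : L} (ha : IntermediateField.adjoin K {a} = ⊤) (σ τ : L →+* ℂ)
    (h : σ.comp (algebraMap K L) = τ.comp (algebraMap K L)) (hx : σ a = τ a) : σ = τ := by
  let _ : Algebra K ℂ := (τ.comp (algebraMap K L)).toAlgebra
  let σ' : L →ₐ[K] ℂ := { σ with commutes' := fun y => RingHom.congr_fun h y }
  let τ' : L →ₐ[K] ℂ := { τ with commutes' := fun y => rfl }
  have : FiniteDimensional K L := Module.Finite.of_restrictScalars_finite ℚ K L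
  have hadj : Algebra.adjoin K {a} = ⊤ := by
    rw [← IntermediateField.adjoin_simple_toSubalgebra_of_isAlgebraic
      (IsAlgebraic.of_finite K a), ha, IntermediateField.top_toSubalgebra]
  have hst : σ' = τ' := by
    apply AlgHom.ext_of_adjoin_eq_top hadj
    intro z hz
    rw [Set.mem_singleton_iff] at hz
    rw [hz]
    exact hx
  ext y
  exact AlgHom.congr_fun hst y

/-- FC3b -/
theorem coeff_one_le (hr : Module.finrank K L = 2) {w₀ : InfinitePlace L} (h0 : w₀.IsComplex)
    (h1 : (w₀.comap (algebraMap K L)).IsReal) {a : 𝓞 L}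
    (ha : IntermediateField.adjoin K {(a : L)} = ⊤)
    (hre : |(w₀.embedding (a : L)).re| < 1) :
    (w₀.comap (algebraMap K L)) ((minpoly K (a : L)).coeff 1) ≤ 4 := by
  classical
  have : FiniteDimensional K L := Module.Finite.of_restrictScalars_finite ℚ K L
  set v := w₀.comap (algebraMap K L) with hv
  have hint : IsIntegral K (a : L) := Algebra.IsIntegral.isIntegral _
  have hdeg : (minpoly K (a : L)).natDegree = 2 := by
    rw [← IntermediateField.adjoin.finrank hint, ha, IntermediateField.finrank_top', hr]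
  have hm : ((minpoly K (a : L)).map v.embedding).Monic := (minpoly.monic hint).map _
  have hdeg2 : ((minpoly K (a : L)).map v.embedding).natDegree = 2 := by
    rw [Polynomial.natDegree_map, hdeg]
  have hov : w₀.embedding.comp (algebraMap K L) = v.embedding := by
    have h2 : InfinitePlace.mk (w₀.embedding.comp (algebraMap K L)) =
        InfinitePlace.mk v.embedding := by
      rw [InfinitePlace.mk_embedding, hv, ← InfinitePlace.comap_mk, InfinitePlace.mk_embedding]
    rcases InfinitePlace.mk_eq_iff.1 h2 with h | h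
    · exact h
    · rw [← InfinitePlace.conjugate_embedding_eq_of_isReal h1, ← h]
      ext y
      simp
  have hovc : (ComplexEmbedding.conjugate w₀.embedding).comp (algebraMap K L) =
      v.embedding := by
    rw [← InfinitePlace.conjugate_embedding_eq_of_isReal h1, ← hov]
    ext y
    simp
  have hne : w₀.embedding (a : L) ≠ ComplexEmbedding.conjugate w₀.embedding (a : L) := by
    intro he
    have h3 := FC3_ext ha w₀.embedding (ComplexEmbedding.conjugate w₀.embedding)
      (by rw [hov, hovc]) he
    exact (InfinitePlace.isComplex_iff.1 h0) h3.symm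
  have hroots : ((minpoly K (a : L)).map v.embedding).roots =
      {w₀.embedding (a : L), ComplexEmbedding.conjugate w₀.embedding (a : L)} := by
    symm
    apply Multiset.eq_of_le_of_card_le
    · rw [Multiset.le_iff_subset]
      · intro z hz
        simp only [Multiset.insert_eq_cons, Multiset.mem_cons, Multiset.mem_singleton] at hz
        rw [FC3_mem_roots]
        rcases hz with rfl | rfl
        · exact ⟨_, hov, rfl⟩
        · exact ⟨_, hovc, rfl⟩
      · exact Multiset.nodup_cons.2 ⟨by simpa using hne, Multiset.nodup_singleton _⟩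
    · rw [IsAlgClosed.card_roots_eq_natDegree, hdeg2]
      simp
  have hc := (IsAlgClosed.splits ((minpoly K (a : L)).map v.embedding)
    ).nextCoeff_eq_neg_sum_roots_of_monic hm
  rw [hroots, Polynomial.nextCoeff_of_natDegree_pos (by omega), hdeg2,
    Polynomial.coeff_map] at hc
  have hval : v ((minpoly K (a : L)).coeff 1) =
      ‖v.embedding ((minpoly K (a : L)).coeff 1)‖ :=
    (InfinitePlace.norm_embedding_eq v _).symm
  rw [hval]
  have hsum : v.embedding ((minpoly K (a : L)).coeff 1) =
      ((-(2 * (w₀.embedding (a : L)).re) : ℝ) : ℂ) := by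
    rw [Multiset.insert_eq_cons, Multiset.sum_cons, Multiset.sum_singleton,
      ComplexEmbedding.conjugate_coe_eq, Complex.add_conj] at hc
    rw [Complex.ofReal_neg]
    exact hc
  rw [hsum, Complex.norm_real, Real.norm_eq_abs, abs_neg, abs_mul]
  norm_num
  linarith

end Pool.Agent.Lib.MP_44a246_ntNU
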