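import Pool.Agent.Lib.MP_44a246_ntNU.FC1
import Pool.Agent.Lib.MP_44a246_ntNU.FC2
import Pool.Agent.Lib.MP_44a246_ntNU.FC3

/-!
# MP_44a246_nt, FC5, part b: generators of a number field extension
-/

set_option autoImplicit false

open NumberField

namespace Pool.Agent.Lib.MP_44a246_ntNU

variable {K : Type*} {L : Type*} [Field K] [NumberField K] [Field L] [NumberField L] [Algebra K L]

/-- The coefficients of the minimal polynomial of an algebraic integer are algebraic integers. -/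
theorem fc5_coeff_int {F Ω : Type*} [Field F] [Field Ω] [Algebra F Ω] {t : Ω}
    (ht : IsIntegral ℤ t) (i : ℕ) : IsIntegral ℤ ((minpoly F t).coeff i) := by
  have ht' : IsIntegral F t := ht.tower_top
  obtain ⟨p, hp, hpt⟩ := ht
  refine Polynomial.isIntegral_coeff_of_dvd p (minpoly F t) hp (minpoly.monic ht') ?_ i
  refine minpoly.dvd F t ?_
  rw [Polynomial.aeval_map_algebraMap]
  exact hpt

open IntermediateField in
/-- The second case: a real place of the subfield and a generator of the quadratic extension. -/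
def Quad (K : Type*) {L : Type*} [Field K] [NumberField K] [Field L] [NumberField L] [Algebra K L]
    (Z : ℝ) (a : L) : Prop :=
  ∃ (vF : InfinitePlace K⟮a⟯) (b : L), vF.IsReal ∧ IsIntegral ℤ b ∧ adjoin K⟮a⟯ {b} = ⊤ ∧
    (minpoly K⟮a⟯ b).natDegree = 2 ∧
    (∀ i, ∀ v : InfinitePlace K⟮a⟯, v ≠ vF → v ((minpoly K⟮a⟯ b).coeff i) ≤ 4) ∧
    vF ((minpoly K⟮a⟯ b).coeff 1) ≤ 4 ∧ vF ((minpoly K⟮a⟯ b).coeff 0) ≤ Z

open IntermediateField in
theorem fc5_quad_of {w₀ : InfinitePlace L} (h0 : w₀.IsComplex) {a : L}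
    (hF : Module.finrank K⟮a⟯ L = 2) (h1 : (w₀.comap (algebraMap K⟮a⟯ L)).IsReal) {Y : ℝ}
    (hY : 2 ^ Module.finrank ℚ L * √|((discr L : ℤ) : ℝ)| < Y) :
    Quad K (16 * (1 + Y ^ 2)) a := by
  have : NumberField K⟮a⟯ := NumberField.of_module_finite K K⟮a⟯
  obtain ⟨b, hb0, hb1, hb2, hb3⟩ := body2 L w₀ h0 Y hY
  have hb4 : 1 ≤ w₀ (b : L) := InfinitePlace.one_le_of_lt_one hb0 (fun w' h' => hb1 w' h')
  have hb5 : w₀ (b : L) ^ 2 = (w₀.embedding (b : L)).re ^ 2 + (w₀.embedding (b : L)).im ^ 2 := by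
    rw [← InfinitePlace.norm_embedding_eq, ← Complex.normSq_eq_norm_sq, Complex.normSq_apply]
    ring
  have hb6 : (w₀.embedding (b : L)).im ≠ 0 := by
    intro h
    rw [h] at hb5
    have : (w₀.embedding (b : L)).re ^ 2 < 1 := by
      rw [sq_lt_one_iff_abs_lt_one]
      exact hb2
    nlinarith
  have hprim : IntermediateField.adjoin K⟮a⟯ {(b : L)} = ⊤ := prim_of_im hb0 hb1 hb6
  refine ⟨w₀.comap (algebraMap K⟮a⟯ L), b, h1, b.2, hprim, ?_, ?_, ?_, ?_⟩
  · rw [← IntermediateField.adjoin.finrank (IsIntegral.of_finite K⟮a⟯ (b : L)), hprim, 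
      IntermediateField.finrank_top', hF]
  · intro i v hv
    have := (coeff_le (K := K⟮a⟯) hb1 i).1 v hv
    rw [hF] at this
    linarith
  · exact coeff_one_le hF h0 h1 hprim hb2
  · have := (coeff_le (K := K⟮a⟯) hb1 0).2
    rw [hF, h1.mult_eq_one, h0.mult_eq_two, pow_one] at this
    refine le_trans this ?_
    have h2 : max 1 (w₀ (b : L) ^ 2) ≤ 1 + Y ^ 2 := by
      refine max_le (by nlinarith) ?_
      rw [hb5]
      have h3 : (w₀.embedding (b : L)).re ^ 2 < 1 := by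
        rw [sq_lt_one_iff_abs_lt_one]
        exact hb2
      have h4 : (w₀.embedding (b : L)).im ^ 2 < Y ^ 2 := sq_lt_sq' (by linarith [abs_lt.mp hb3]) (abs_lt.mp hb3).2
      linarith
    nlinarith

open IntermediateField in
/-- Generators with small minimal polynomials. -/
theorem fc5_claim {r : ℕ} (hr : 2 ≤ r) (hrk : Module.finrank K L = r) (v₀ : InfinitePlace K)
    {Y : ℝ} (hY1 : 1 ≤ Y) (hY : 2 ^ Module.finrank ℚ L * √|((discr L : ℤ) : ℝ)| < Y) :
    (∃ t : L, K⟮t⟯ = ⊤ ∧ IsIntegral ℤ t ∧ ∀ i,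
      (∀ v : InfinitePlace K, v ≠ v₀ → v ((minpoly K t).coeff i) ≤ 2 ^ r) ∧
      v₀ ((minpoly K t).coeff i) ^ v₀.mult ≤ 4 ^ r * Y) ∨
    ∃ a : L, ((r = 2 ∧ a = 0) ∨ (4 ≤ r ∧ IsIntegral ℤ a ∧ 2 * (minpoly K a).natDegree = r ∧ ∀ i,
      (∀ v : InfinitePlace K, v ≠ v₀ → v ((minpoly K a).coeff i) ≤ 2 ^ r) ∧
      v₀ ((minpoly K a).coeff i) ^ v₀.mult ≤ 4 ^ r * Y)) ∧ Quad K (16 * (1 + Y ^ 2)) a := by
  classical
  obtain ⟨w₀, hw₀, hcase⟩ : ∃ w₀ : InfinitePlace L, w₀.comap (algebraMap K L) = v₀ ∧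
      (w₀.mult = v₀.mult ∨ (w₀.IsComplex ∧ v₀.IsReal)) := by
    obtain ⟨w₀, hw₀⟩ := InfinitePlace.comap_surjective (K := L) (k := K) v₀
    refine ⟨w₀, hw₀, ?_⟩
    rcases InfinitePlace.isReal_or_isComplex w₀ with h | h
    · left
      have : v₀.IsReal := hw₀ ▸ h.comap (algebraMap K L)
      rw [h.mult_eq_one, this.mult_eq_one]
    · rcases InfinitePlace.isReal_or_isComplex v₀ with h' | h'
      · exact Or.inr ⟨h, h'⟩
      · left
        rw [h.mult_eq_two, h'.mult_eq_two]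
  obtain ⟨a, ha0, ha1, ha2⟩ := body1 L w₀ Y hY
  have hcoef : ∀ i, (∀ v : InfinitePlace K, v ≠ v₀ → v ((minpoly K (a : L)).coeff i) ≤ 2 ^ r) ∧
      v₀ ((minpoly K (a : L)).coeff i) ^ v₀.mult ≤ 4 ^ r * Y := by
    intro i
    have h := coeff_le (K := K) ha1 i
    rw [hw₀, hrk] at h
    refine ⟨h.1, le_trans h.2 ?_⟩
    exact mul_le_mul_of_nonneg_left (max_le hY1 ha2.le) (by positivity)
  rcases hcase with hm | ⟨hc, hre⟩
  · left
    exact ⟨a, prim_of_mult (by rw [hw₀]; exact hm) ha0 ha1, a.2, hcoef⟩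
  · by_cases him : (w₀.embedding (a : L)).im = 0
    · right
      obtain ⟨h1, h2⟩ := finrank_of_im (K := K) hc (by rw [hw₀]; exact hre) ha0 ha1 him
      have h3 : Module.finrank K K⟮(a : L)⟯ * 2 = r := by
        rw [← h1, Module.finrank_mul_finrank, hrk]
      have h4 : Module.finrank K K⟮(a : L)⟯ = (minpoly K (a : L)).natDegree :=
        IntermediateField.adjoin.finrank (IsIntegral.of_finite K (a : L))
      have hQ := fc5_quad_of (K := K) hc h1 h2 hY
      by_cases hr2 : r = 2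
      · refine ⟨0, Or.inl ⟨hr2, rfl⟩, ?_⟩
        have h5 : Module.finrank K K⟮(a : L)⟯ = 1 := by omega
        have h6 : K⟮(a : L)⟯ = K⟮(0 : L)⟯ := by
          rw [IntermediateField.adjoin_zero]
          exact IntermediateField.finrank_eq_one_iff.mp h5
        have h7 : Module.finrank K⟮(0 : L)⟯ L = 2 := by
          rw [← h6]; exact h1
        refine fc5_quad_of (K := K) hc h7 ?_ hY
        rw [← h6]; exact h2
      · refine ⟨a, Or.inr ⟨by omega, a.2, by omega, hcoef⟩, hQ⟩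
    · left
      exact ⟨a, prim_of_im ha0 ha1 him, a.2, hcoef⟩

end Pool.Agent.Lib.MP_44a246_ntNU
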