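import Pool.Agent.Lib.MP_44a246_ntNU.Defs

set_option autoImplicit false

open NumberField IsDedekindDomain

namespace Pool.Agent.Lib.MP_44a246_ntNU

open NumberField.mixedEmbedding NumberField.InfinitePlace MeasureTheory in
open scoped NNReal ENNReal nonZeroDivisors in
/-- The Minkowski bound of `L` is less than `Y`. -/
theorem FC1_mink (L : Type*) [Field L] [NumberField L] (Y : ℝ≥0)
    (hY : 2 ^ Module.finrank ℚ L * √|((discr L : ℤ) : ℝ)| < (Y : ℝ)) :
    minkowskiBound L ↑1 < (Y : ℝ≥0∞) := by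
  have h1 : ((2 : ℝ≥0) ^ Module.finrank ℚ L * NNReal.sqrt ‖discr L‖₊ : ℝ≥0) < Y := by
    rw [← NNReal.coe_lt_coe]
    refine lt_of_eq_of_lt ?_ hY
    rw [NNReal.coe_mul, NNReal.coe_pow, NNReal.coe_ofNat, Real.coe_sqrt, coe_nnnorm,
      Int.norm_eq_abs]
  refine lt_of_le_of_lt ?_ (ENNReal.coe_lt_coe.mpr h1)
  rw [minkowskiBound, volume_fundamentalDomain_fractionalIdealLatticeBasis, Units.val_one,
    FractionalIdeal.absNorm_one, Rat.cast_one, ENNReal.ofReal_one, one_mul,
    mixedEmbedding.finrank, volume_fundamentalDomain_latticeBasis, ENNReal.coe_mul,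
    ENNReal.coe_pow, ENNReal.coe_ofNat, mul_comm ((2 : ℝ≥0∞) ^ Module.finrank ℚ L)]
  gcongr
  exact mul_le_of_le_one_left (by positivity) (pow_le_one₀ (by positivity) (by simp))

open NumberField.mixedEmbedding NumberField.InfinitePlace MeasureTheory in
open scoped NNReal ENNReal nonZeroDivisors in
/-- FC1a -/
theorem body1 (L : Type*) [Field L] [NumberField L] (w₀ : InfinitePlace L) (Y : ℝ)
    (hY : 2 ^ Module.finrank ℚ L * √|((discr L : ℤ) : ℝ)| < Y) :
    ∃ a : 𝓞 L, a ≠ 0 ∧ (∀ w : InfinitePlace L, w ≠ w₀ → w (a : L) < 1) ∧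
      w₀ (a : L) ^ w₀.mult < Y := by
  classical
  have hY0 : 0 ≤ Y := le_trans (by positivity) hY.le
  lift Y to ℝ≥0 using hY0
  have hm := FC1_mink L Y hY
  obtain ⟨f, hf1, hf2⟩ := adjust_f L (f := fun _ => 1) (w₁ := w₀) Y (fun _ _ => one_ne_zero)
  have hv : minkowskiBound L ↑1 < volume (convexBodyLT L f) := by
    rw [convexBodyLT_volume]
    refine lt_of_lt_of_le hm ?_
    rw [hf2]
    exact le_mul_of_one_le_left (by positivity) (by exact_mod_cast one_le_convexBodyLTFactor L)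
  obtain ⟨a, ha, hlt⟩ := exists_ne_zero_mem_ringOfIntegers_lt L hv
  refine ⟨a, ha, fun w hw => ?_, ?_⟩
  · have := hlt w
    rw [hf1 w hw] at this
    simpa using this
  · have h3 : (f w₀ : ℝ) ^ w₀.mult = (Y : ℝ) := by
      rw [← Finset.mul_prod_erase Finset.univ _ (Finset.mem_univ w₀),
        Finset.prod_eq_one (fun w hw => by rw [hf1 w (Finset.ne_of_mem_erase hw), one_pow]),
        mul_one] at hf2
      rw [← hf2]
      push_cast
      rfl
    rw [← h3]
    exact pow_lt_pow_left₀ (hlt w₀) (apply_nonneg _ _) w₀.mult_pos.ne'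

open NumberField.mixedEmbedding NumberField.InfinitePlace MeasureTheory in
open scoped NNReal ENNReal nonZeroDivisors in
/-- FC1b -/
theorem body2 (L : Type*) [Field L] [NumberField L] (w₀ : InfinitePlace L) (hw₀ : w₀.IsComplex)
    (Y : ℝ) (hY : 2 ^ Module.finrank ℚ L * √|((discr L : ℤ) : ℝ)| < Y) :
    ∃ a : 𝓞 L, a ≠ 0 ∧ (∀ w : InfinitePlace L, w ≠ w₀ → w (a : L) < 1) ∧
      |(w₀.embedding (a : L)).re| < 1 ∧ |(w₀.embedding (a : L)).im| < Y := by
  classical
  have hY0 : 0 ≤ Y := le_trans (by positivity) hY.le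
  lift Y to ℝ≥0 using hY0
  have hm := FC1_mink L Y hY
  have hv : minkowskiBound L ↑1 <
      volume (convexBodyLT' L (fun w ↦ if w = w₀ then NNReal.sqrt Y else 1) ⟨w₀, hw₀⟩) := by
    rw [convexBodyLT'_volume, ← Finset.prod_erase_mul _ _ (Finset.mem_univ w₀)]
    simp_rw [ite_pow, one_pow]
    rw [Finset.prod_ite_eq']
    simp_rw [Finset.notMem_erase, ite_false, mult, not_isReal_iff_isComplex.mpr hw₀,
      ite_true, ite_false, one_mul, NNReal.sq_sqrt]
    refine lt_of_lt_of_le hm ?_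
    exact le_mul_of_one_le_left (by positivity) (by exact_mod_cast one_le_convexBodyLT'Factor L)
  obtain ⟨a, ha, hlt, h0⟩ := exists_ne_zero_mem_ringOfIntegers_lt' L ⟨w₀, hw₀⟩ hv
  refine ⟨a, ha, fun w hw => ?_, h0.1, ?_⟩
  · have := hlt w hw
    rw [if_neg hw] at this
    simpa using this
  · have := h0.2
    simp only [if_true] at this
    rw [← NNReal.coe_pow, NNReal.sq_sqrt] at this
    exact this

end Pool.Agent.Lib.MP_44a246_ntNU
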