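import Mathlib

/-!
# MP_44a246_nt, FC4: the number of integers of a number field in a box with one long side, uniform
in the number field
-/

set_option autoImplicit false

open NumberField

namespace Pool.Agent.Lib.MP_44a246_ntNU

universe u

/-- The number of integers in an interval. -/
private theorem card_Icc_le (s : ℝ) (hs : 0 ≤ s) :
    ((Finset.Icc ⌊-s⌋ ⌊s⌋).card : ℝ) ≤ 2 * s + 3 := by
  have h1 := Int.sub_one_lt_floor (-s)
  have h2 := Int.floor_le s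
  rw [Int.card_Icc]
  have h3 : (0 : ℤ) ≤ ⌊s⌋ + 1 - ⌊-s⌋ := by
    have a : ⌊-s⌋ ≤ ⌊s⌋ := Int.floor_mono (by linarith)
    omega
  have h4 : (((⌊s⌋ + 1 - ⌊-s⌋).toNat : ℕ) : ℝ) = ((⌊s⌋ + 1 - ⌊-s⌋ : ℤ) : ℝ) := by
    exact_mod_cast congrArg (Int.cast : ℤ → ℝ) (Int.toNat_of_nonneg h3)
  rw [h4]
  push_cast
  linarith

/-- Packing in a box of the plane. -/
private theorem card_le_of_sep {α : Type*} (A : Finset α) (z : α → ℂ) (δ r₁ r₂ : ℝ) (hδ : 0 < δ)
    (hr₁ : 0 ≤ r₁) (hr₂ : 0 ≤ r₂)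
    (h1 : ∀ c ∈ A, |(z c).re| ≤ r₁) (h2 : ∀ c ∈ A, |(z c).im| ≤ r₂)
    (hs : ∀ c ∈ A, ∀ c' ∈ A, c ≠ c' → δ ≤ ‖z c - z c'‖) :
    (A.card : ℝ) ≤ (4 * r₁ / δ + 3) * (4 * r₂ / δ + 3) := by
  classical
  obtain ⟨s₁, hs₁⟩ : ∃ s₁, s₁ = 2 * r₁ / δ := ⟨_, rfl⟩
  obtain ⟨s₂, hs₂⟩ : ∃ s₂, s₂ = 2 * r₂ / δ := ⟨_, rfl⟩
  have hs1 : 0 ≤ s₁ := by rw [hs₁]; positivity
  have hs2 : 0 ≤ s₂ := by rw [hs₂]; positivity
  have hmem : ∀ (x r s : ℝ), s = 2 * r / δ → |x| ≤ r →
      ⌊2 * x / δ⌋ ∈ Finset.Icc ⌊-s⌋ ⌊s⌋ := by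
    intro x r s e hx
    rw [Finset.mem_Icc]
    have := abs_le.1 hx
    constructor
    · apply Int.floor_mono
      rw [e, ← neg_div]
      exact div_le_div_of_nonneg_right (by linarith) hδ.le
    · apply Int.floor_mono
      rw [e]
      exact div_le_div_of_nonneg_right (by linarith) hδ.le
  have hcl : ∀ x y : ℝ, ⌊2 * x / δ⌋ = ⌊2 * y / δ⌋ → |x - y| < δ / 2 := by
    intro x y h
    have h3 := Int.abs_sub_lt_one_of_floor_eq_floor h
    have e : 2 * x / δ - 2 * y / δ = (x - y) / (δ / 2) := by field_simp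
    rw [e, abs_div, abs_of_pos (half_pos hδ), div_lt_one (half_pos hδ)] at h3
    exact h3
  have hcard : A.card ≤ (Finset.Icc ⌊-s₁⌋ ⌊s₁⌋ ×ˢ Finset.Icc ⌊-s₂⌋ ⌊s₂⌋).card := by
    refine Finset.card_le_card_of_injOn
      (fun c => (⌊2 * (z c).re / δ⌋, ⌊2 * (z c).im / δ⌋)) (fun c hc => ?_) fun c hc c' hc' h => ?_
    · exact Finset.mem_product.2 ⟨hmem _ _ _ hs₁ (h1 c hc), hmem _ _ _ hs₂ (h2 c hc)⟩
    · by_contra hne
      have h3 := hs c hc c' hc' hne
      have h4 := hcl _ _ (Prod.ext_iff.1 h).1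
      have h5 := hcl _ _ (Prod.ext_iff.1 h).2
      have h6 := Complex.norm_le_abs_re_add_abs_im (z c - z c')
      rw [Complex.sub_re, Complex.sub_im] at h6
      linarith
  rw [Finset.card_product] at hcard
  calc (A.card : ℝ) ≤ ((Finset.Icc ⌊-s₁⌋ ⌊s₁⌋).card : ℝ) * ((Finset.Icc ⌊-s₂⌋ ⌊s₂⌋).card : ℝ) := by
        exact_mod_cast hcard
    _ ≤ (2 * s₁ + 3) * (2 * s₂ + 3) := mul_le_mul (card_Icc_le s₁ hs1) (card_Icc_le s₂ hs2)
        (Nat.cast_nonneg _) (by linarith)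
    _ = _ := by rw [hs₁, hs₂]; ring

/-- A nonzero integer which is bounded at all places but one is not small at this place. -/
private theorem le_of_bdd (d : ℕ) (R' : ℝ) (hR' : 1 ≤ R') (E : Type*) [Field E] [NumberField E]
    (hd : Module.finrank ℚ E ≤ d) (v₀ : InfinitePlace E) (x : 𝓞 E) (hx : x ≠ 0)
    (h : ∀ v : InfinitePlace E, v ≠ v₀ → v (x : E) ≤ R') : (R' ^ d)⁻¹ ≤ v₀ (x : E) := by
  classical
  have hpos : 0 < R' ^ d := pow_pos (by linarith) _
  have h1 : (1 : ℝ) ≤ ∏ w : InfinitePlace E, w (x : E) ^ w.mult := by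
    rw [InfinitePlace.prod_eq_abs_norm, ← Algebra.coe_norm_int, ← Int.cast_one, ← Int.cast_abs,
      Rat.cast_intCast, Int.cast_le]
    exact Int.one_le_abs (Algebra.norm_ne_zero_iff.mpr hx)
  rw [← Finset.mul_prod_erase _ _ (Finset.mem_univ v₀)] at h1
  have h2 : ∏ w ∈ Finset.univ.erase v₀, w (x : E) ^ w.mult ≤ R' ^ d := by
    calc ∏ w ∈ Finset.univ.erase v₀, w (x : E) ^ w.mult
        ≤ ∏ w ∈ Finset.univ.erase v₀, R' ^ w.mult := by
          refine Finset.prod_le_prod (fun w _ => pow_nonneg (apply_nonneg _ _) _) fun w hw => ?_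
          exact pow_le_pow_left₀ (apply_nonneg _ _) (h w (Finset.ne_of_mem_erase hw)) _
      _ = R' ^ ∑ w ∈ Finset.univ.erase v₀, w.mult := Finset.prod_pow_eq_pow_sum _ _ _
      _ ≤ R' ^ d := by
          refine pow_le_pow_right₀ hR' ?_
          calc ∑ w ∈ Finset.univ.erase v₀, w.mult ≤ ∑ w : InfinitePlace E, w.mult :=
                Finset.sum_le_sum_of_subset (Finset.erase_subset _ _)
            _ = Module.finrank ℚ E := InfinitePlace.sum_mult_eq
            _ ≤ d := hd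
  have h3 : 0 ≤ v₀ (x : E) := apply_nonneg _ _
  have h4 : 1 ≤ v₀ (x : E) ^ v₀.mult * R' ^ d :=
    h1.trans (mul_le_mul_of_nonneg_left h2 (pow_nonneg h3 _))
  have h5 : (R' ^ d)⁻¹ ≤ v₀ (x : E) ^ v₀.mult := by
    rw [inv_eq_one_div, div_le_iff₀ hpos]
    exact h4
  by_contra hlt
  push Not at hlt
  have h6 : (R' ^ d)⁻¹ ≤ 1 := inv_le_one_of_one_le₀ (one_le_pow₀ hR')
  have h7 : v₀ (x : E) ^ v₀.mult ≤ v₀ (x : E) := by
    have := pow_le_pow_of_le_one h3 (hlt.le.trans h6)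
      (show 1 ≤ v₀.mult from Nat.one_le_iff_ne_zero.2 InfinitePlace.mult_ne_zero)
    rwa [pow_one] at this
  linarith

/-- FC4 -/
theorem card_box_u (d : ℕ) (R : ℝ) : ∃ C : ℝ, 0 < C ∧
    ∀ (E : Type u) [Field E] [NumberField E], Module.finrank ℚ E ≤ d →
      ∀ (v₀ : InfinitePlace E) (Z : ℝ), 1 ≤ Z → ∀ A : Finset (𝓞 E),
        (∀ c ∈ A, (∀ v : InfinitePlace E, v ≠ v₀ → v (c : E) ≤ R) ∧
          v₀ (c : E) ^ v₀.mult ≤ Z) → (A.card : ℝ) ≤ C * Z := by
  obtain ⟨R', hR'⟩ : ∃ R', R' = max 1 (2 * R) := ⟨_, rfl⟩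
  have hR1 : 1 ≤ R' := hR' ▸ le_max_left _ _
  have hR2 : 2 * R ≤ R' := hR' ▸ le_max_right _ _
  obtain ⟨δ, hδ⟩ : ∃ δ, δ = (R' ^ d)⁻¹ := ⟨_, rfl⟩
  have hδ0 : 0 < δ := by rw [hδ]; exact inv_pos.2 (pow_pos (by linarith) _)
  have h43 : (3 : ℝ) ≤ 4 / δ + 3 := by
    have : 0 ≤ 4 / δ := by positivity
    linarith
  refine ⟨(4 / δ + 3) ^ 2, by positivity, fun E _ _ hd v₀ Z hZ A hA => ?_⟩
  have hZ0 : (0 : ℝ) ≤ Z := by linarith
  have hsep : ∀ c ∈ A, ∀ c' ∈ A, c ≠ c' →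
      δ ≤ ‖v₀.embedding (c : E) - v₀.embedding (c' : E)‖ := by
    intro c hc c' hc' hne
    have h1 := le_of_bdd d R' hR1 E hd v₀ (c - c') (sub_ne_zero.2 hne) fun v hv => by
      have e : ((c - c' : 𝓞 E) : E) = (c : E) - (c' : E) := rfl
      rw [e]
      have h2 : v ((c : E) - (c' : E)) ≤ v (c : E) + v (c' : E) := by
        have := norm_sub_le (v.embedding (c : E)) (v.embedding (c' : E))
        rwa [← map_sub, InfinitePlace.norm_embedding_eq, InfinitePlace.norm_embedding_eq,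
          InfinitePlace.norm_embedding_eq] at this
      have h3 := (hA c hc).1 v hv
      have h4 := (hA c' hc').1 v hv
      linarith
    rw [← hδ] at h1
    rw [← map_sub, InfinitePlace.norm_embedding_eq]
    exact h1
  by_cases hre : v₀.IsReal
  · -- a real place
    have hm : v₀.mult = 1 := by simp [InfinitePlace.mult, hre]
    have h1 := card_le_of_sep A (fun c => v₀.embedding (c : E)) δ Z 0 hδ0 hZ0 le_rfl
      (fun c hc => ?_) (fun c hc => ?_) hsep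
    · calc (A.card : ℝ) ≤ (4 * Z / δ + 3) * (4 * 0 / δ + 3) := h1
        _ ≤ ((4 / δ + 3) * Z) * (4 / δ + 3) := by
            refine mul_le_mul ?_ ?_ ?_ (by positivity)
            · have : 4 * Z / δ + 3 ≤ 4 / δ * Z + 3 * Z := by
                have e : 4 * Z / δ = 4 / δ * Z := by ring
                rw [e]; linarith
              linarith
            · simpa using h43
            · simp
        _ = _ := by ring
    · have h2 := (hA c hc).2
      rw [hm, pow_one, ← InfinitePlace.norm_embedding_eq] at h2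
      exact (Complex.abs_re_le_norm _).trans h2
    · have h2 := (InfinitePlace.isReal_iff.1 hre)
      have h3 : (starRingEnd ℂ) (v₀.embedding (c : E)) = v₀.embedding (c : E) := by
        have := DFunLike.congr_fun (ComplexEmbedding.isReal_iff.1 h2) (c : E)
        simpa using this
      have h4 := Complex.conj_eq_iff_im.1 h3
      rw [h4, abs_zero]
  · -- a complex place
    have hm : v₀.mult = 2 := by simp [InfinitePlace.mult, hre]
    have hn : ∀ c ∈ A, ‖v₀.embedding (c : E)‖ ≤ √Z := by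
      intro c hc
      have h2 := (hA c hc).2
      rw [hm, ← InfinitePlace.norm_embedding_eq] at h2
      exact Real.le_sqrt_of_sq_le h2
    have hs1 : 1 ≤ √Z := by rw [Real.one_le_sqrt]; exact hZ
    have h1 := card_le_of_sep A (fun c => v₀.embedding (c : E)) δ (√Z) (√Z) hδ0
      (Real.sqrt_nonneg _) (Real.sqrt_nonneg _)
      (fun c hc => (Complex.abs_re_le_norm _).trans (hn c hc))
      (fun c hc => (Complex.abs_im_le_norm _).trans (hn c hc)) hsep
    have h2 : 4 * √Z / δ + 3 ≤ (4 / δ + 3) * √Z := by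
      have e : 4 * √Z / δ = 4 / δ * √Z := by ring
      rw [e]; linarith
    calc (A.card : ℝ) ≤ (4 * √Z / δ + 3) * (4 * √Z / δ + 3) := h1
      _ ≤ ((4 / δ + 3) * √Z) * ((4 / δ + 3) * √Z) :=
          mul_le_mul h2 h2 (by positivity) (by positivity)
      _ = (4 / δ + 3) ^ 2 * (√Z * √Z) := by ring
      _ = (4 / δ + 3) ^ 2 * Z := by rw [Real.mul_self_sqrt hZ0]

end Pool.Agent.Lib.MP_44a246_ntNU
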