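import Pool.Agent.Lib.MP_44a246_ntNU.NU10
import Pool.Agent.Lib.MP_44a246_ntNU.FC5a
import Pool.Agent.Lib.MP_44a246_ntNU.FC5b

/-!
# MP_44a246_nt, FC5: the number of extensions of given degree with bounded discriminant
-/

set_option autoImplicit false

open NumberField

namespace Pool.Agent.Lib.MP_44a246_ntNU

universe u

open Polynomial in
/-- Transport of a quadratic equation along an isomorphism of the ground fields. -/
private theorem fc5_transport {F F' : Type*} [Field F] [Field F'] (e : F ≃+* F')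
    (vF : InfinitePlace F) (hr : vF.IsReal) (p : F[X]) {Z : ℝ}
    (h1 : ∀ i, ∀ v : InfinitePlace F, v ≠ vF → v (p.coeff i) ≤ 4) (h2 : vF (p.coeff 1) ≤ 4)
    (h3 : vF (p.coeff 0) ≤ Z) :
    ∃ vF' : InfinitePlace F', vF'.IsReal ∧
      (∀ i, ∀ v : InfinitePlace F', v ≠ vF' → v ((p.map (e : F →+* F')).coeff i) ≤ 4) ∧
      vF' ((p.map (e : F →+* F')).coeff 1) ≤ 4 ∧ vF' ((p.map (e : F →+* F')).coeff 0) ≤ Z := by
  have hvF : ∀ x : F, (vF.comap (e.symm : F' →+* F)) ((e : F →+* F') x) = vF x := by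
    intro x
    rw [InfinitePlace.comap_apply]
    simp
  refine ⟨vF.comap (e.symm : F' →+* F), hr.comap _, ?_, ?_, ?_⟩
  · intro i v hv
    rw [coeff_map]
    have h4 : v ((e : F →+* F') (p.coeff i)) = (v.comap (e : F →+* F')) (p.coeff i) := by
      rw [InfinitePlace.comap_apply]
    rw [h4]
    refine h1 i _ ?_
    intro h5
    apply hv
    rw [← h5, ← InfinitePlace.comap_comp]
    have h6 : (e : F →+* F').comp (e.symm : F' →+* F) = RingHom.id F' := by
      ext x; simp
    rw [h6]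
    rfl
  · rw [coeff_map, hvF]; exact h2
  · rw [coeff_map, hvF]; exact h3

open IntermediateField in
/-- The transported statement, in the algebraic closure. -/
private theorem fc5_quad_val {K : Type u} [Field K] [NumberField K] {Ω : Type u} [Field Ω]
    [Algebra K Ω] (L : IntermediateField K Ω) [NumberField L] {Z : ℝ} {a : L}
    (h : Quad K Z a) :
    ∃ (vF : InfinitePlace K⟮(a : Ω)⟯) (p : Polynomial K⟮(a : Ω)⟯) (t : Ω), vF.IsReal ∧ p.Monic ∧
      p.natDegree = 2 ∧ (∀ i, IsIntegral ℤ (p.coeff i)) ∧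
      (∀ i, ∀ v : InfinitePlace K⟮(a : Ω)⟯, v ≠ vF → v (p.coeff i) ≤ 4) ∧
      vF (p.coeff 1) ≤ 4 ∧ vF (p.coeff 0) ≤ Z ∧ Polynomial.aeval t p = 0 ∧
      adjoin K {(a : Ω), t} = L := by
  obtain ⟨vF, b, hre, hb, hprim, hdeg, h1, h2, h3⟩ := h
  have hmap : (K⟮a⟯).map L.val = K⟮(a : Ω)⟯ := by
    rw [adjoin_map]
    simp
  let e : K⟮a⟯ ≃ₐ[K] K⟮(a : Ω)⟯ := (equivMap K⟮a⟯ L.val).trans (equivOfEq hmap)
  have he : ∀ x : K⟮a⟯, ((e x : K⟮(a : Ω)⟯) : Ω) = ((x : L) : Ω) := by
    intro x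
    rfl
  obtain ⟨vF', hre', h1', h2', h3'⟩ := fc5_transport e.toRingEquiv vF hre (minpoly K⟮a⟯ b) h1 h2 h3
  have hbi : IsIntegral K⟮a⟯ b := hb.tower_top
  refine ⟨vF', _, (b : Ω), hre', (minpoly.monic hbi).map _, ?_, ?_, h1', h2', h3', ?_, ?_⟩
  · rw [Polynomial.natDegree_map]; exact hdeg
  · intro i
    rw [Polynomial.coeff_map]
    exact (fc5_coeff_int hb i).map (e.toRingEquiv : K⟮a⟯ →+* K⟮(a : Ω)⟯).toIntAlgHom
  · have h5 : ∀ q : Polynomial K⟮a⟯, Polynomial.aeval (b : Ω)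
        (q.map (e.toRingEquiv : K⟮a⟯ →+* K⟮(a : Ω)⟯)) = ((Polynomial.aeval b q : L) : Ω) := by
      intro q
      rw [Polynomial.aeval_def, Polynomial.eval₂_map]
      have h6 : (algebraMap K⟮(a : Ω)⟯ Ω).comp (e.toRingEquiv : K⟮a⟯ →+* K⟮(a : Ω)⟯) =
          (algebraMap L Ω).comp (algebraMap K⟮a⟯ L) := by
        ext x
        exact he x
      rw [h6, Polynomial.aeval_def]
      exact (Polynomial.hom_eval₂ q (algebraMap K⟮a⟯ L) (algebraMap L Ω) b).symm
    rw [h5, minpoly.aeval]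
    rfl
  · have h7 : adjoin K {a, b} = ⊤ := by
      have h8 : (adjoin K⟮a⟯ {b}).restrictScalars K = adjoin K {a, b} := by
        rw [adjoin_simple_adjoin_simple]
      rw [← h8, hprim]
      rfl
    have h9 : (adjoin K {a, b}).map L.val = adjoin K {(a : Ω), (b : Ω)} := by
      rw [adjoin_map, Set.image_pair]
      rfl
    rw [← h9, h7]
    ext x
    simp

open IntermediateField in
/-- Generation passes to the ambient field. -/
private theorem fc5_gen_val {K Ω : Type*} [Field K] [Field Ω] [Algebra K Ω]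
    (L : IntermediateField K Ω) {t : L} (h : K⟮t⟯ = ⊤) : K⟮(t : Ω)⟯ = L := by
  have h9 : (K⟮t⟯).map L.val = K⟮(t : Ω)⟯ := by
    rw [adjoin_map, Set.image_singleton]
    rfl
  rw [← h9, h]
  ext x
  simp

open Polynomial in
private theorem fc5_aeval_val {K Ω : Type*} [Field K] [Field Ω] [Algebra K Ω]
    (L : IntermediateField K Ω) (t : L) (p : K[X]) :
    aeval (t : Ω) p = ((aeval t p : L) : Ω) := by
  have := Polynomial.aeval_algHom_apply L.val t p
  exact this

/-- The bound for the size of the discriminant. -/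
private theorem fc5_disc (K : Type u) [Field K] [NumberField K] (E : Type u) [Field E]
    [NumberField E] [Algebra K E] {r : ℕ} (hrk : Module.finrank K E = r) {X : ℝ} (hX : 1 ≤ X)
    (h : discNorm K E ≤ X) :
    2 ^ Module.finrank ℚ E * √|((discr E : ℤ) : ℝ)| <
      (2 ^ (Module.finrank ℚ K * r) * √(|((discr K : ℤ) : ℝ)| ^ r) + 1) * √X := by
  have h1 : Module.finrank ℚ E = Module.finrank ℚ K * r := by
    rw [← hrk, Module.finrank_mul_finrank]
  have h2 : √|((discr E : ℤ) : ℝ)| ≤ √(|((discr K : ℤ) : ℝ)| ^ r) * √X := by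
    rw [← Real.sqrt_mul (by positivity), (one_le_discNorm K E).2, hrk]
    apply Real.sqrt_le_sqrt
    rw [mul_comm]
    exact mul_le_mul_of_nonneg_left h (by positivity)
  have h3 : 1 ≤ √X := by rw [Real.one_le_sqrt]; exact hX
  rw [h1]
  have h4 : (0 : ℝ) < 2 ^ (Module.finrank ℚ K * r) := by positivity
  have h5 := mul_le_mul_of_nonneg_left h2 h4.le
  nlinarith

open IntermediateField in
/-- FC5 : number of extensions of degree `r` with bounded discriminant -/
theorem field_count (K : Type u) [Field K] [NumberField K] (r : ℕ) (hr : 2 ≤ r) :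
    ∃ C : ℝ, 0 < C ∧ ∀ X : ℝ, 1 ≤ X → ∀ (ι : Type) [Fintype ι]
      (E : ι → IntermediateField K (AlgebraicClosure K)) [∀ a, NumberField (E a)],
      Function.Injective E → (∀ a, Module.finrank K (E a) = r) →
      (∀ a, discNorm K (E a) ≤ X) → (Fintype.card ι : ℝ) ≤ C * X ^ ((r : ℝ) / 2) := by
  classical
  set d : ℕ := Module.finrank ℚ K * r with hd
  obtain ⟨C4, hC4, h4⟩ := fc5_box.{u} d (2 ^ r)
  obtain ⟨C5, hC5, h5⟩ := fc5_quad.{u} d
  set C1 : ℝ := 2 ^ (Module.finrank ℚ K * r) * √(|((discr K : ℤ) : ℝ)| ^ r) + 1 with hC1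
  have hC1' : 1 ≤ C1 := by
    rw [hC1]
    have : 0 ≤ 2 ^ (Module.finrank ℚ K * r) * √(|((discr K : ℤ) : ℝ)| ^ r) := by positivity
    linarith
  set M : ℝ := max 1 (C4 * (4 ^ r * C1)) with hM
  have hM1 : 1 ≤ M := le_max_left _ _
  have hr0 : (0 : ℝ) < r := by exact_mod_cast (by omega : 0 < r)
  refine ⟨r * M ^ r * (1 + C5 * (16 * (1 + C1 ^ 2))), by positivity, ?_⟩
  intro X hX ι _ E _ hinj hfr hdisc
  set q : ℝ := √X with hq
  have hq1 : 1 ≤ q := by rw [hq, Real.one_le_sqrt]; exact hX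
  set Y : ℝ := C1 * q with hY
  have hY1 : 1 ≤ Y := by rw [hY]; nlinarith
  have hXq : X ^ ((r : ℝ) / 2) = q ^ r := by
    rw [hq, Real.sqrt_eq_rpow, ← Real.rpow_natCast, ← Real.rpow_mul (by linarith)]
    congr 1
    ring
  obtain ⟨v₀⟩ : Nonempty (InfinitePlace K) := inferInstance
  have h4r : (1 : ℝ) ≤ 4 ^ r := one_le_pow₀ (by norm_num)
  have hdK : Module.finrank ℚ K ≤ d := by rw [hd]; exact Nat.le_mul_of_pos_right _ (by omega)
  obtain ⟨A, hA1, hA2⟩ := h4 K hdK v₀ (4 ^ r * Y) (by nlinarith)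
  have hA3 : (A.card : ℝ) ≤ M * q := by
    refine le_trans hA1 ?_
    have : C4 * (4 ^ r * Y) = (C4 * (4 ^ r * C1)) * q := by rw [hY]; ring
    rw [this]
    exact mul_le_mul_of_nonneg_right (le_max_right _ _) (by linarith)
  -- the first family
  obtain ⟨TA, hTA1, hTA2⟩ := fc5_roots (F := K) (AlgebraicClosure K) r (fun _ => A)
  have hTA3 : (TA.card : ℝ) ≤ r * M ^ r * q ^ r := by
    have h1 : (TA.card : ℝ) ≤ (A.card : ℝ) ^ r * r := by
      have := hTA1
      rw [Finset.prod_const, Finset.card_univ, Fintype.card_fin] at this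
      exact_mod_cast this
    have h2 : (A.card : ℝ) ^ r ≤ (M * q) ^ r := pow_le_pow_left₀ (by positivity) hA3 r
    rw [mul_pow] at h2
    nlinarith
  -- the second family
  obtain ⟨TA', hTA'1, hTA'2⟩ : ∃ T : Finset (AlgebraicClosure K),
      (T.card : ℝ) ≤ r * M ^ r * q ^ (r - 2) ∧ ((r = 2 → (0 : AlgebraicClosure K) ∈ T) ∧
        (4 ≤ r → ∀ (t : AlgebraicClosure K) (p : Polynomial K), p.Monic → 2 * p.natDegree = r →
          (∀ i, p.coeff i ∈ A) → Polynomial.aeval t p = 0 → t ∈ T)) := by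
    by_cases hr2 : r = 2
    · refine ⟨{0}, ?_, fun _ => Finset.mem_singleton_self _, fun h => by omega⟩
      rw [Finset.card_singleton]
      have h1 : (1 : ℝ) ≤ q ^ (r - 2) := one_le_pow₀ hq1
      have h2 : (1 : ℝ) ≤ M ^ r := one_le_pow₀ hM1
      have h3 : (1 : ℝ) ≤ r := by exact_mod_cast (by omega : 1 ≤ r)
      have h4 : (1 : ℝ) ≤ r * M ^ r := by nlinarith
      push_cast
      nlinarith
    · obtain ⟨T, hT1, hT2⟩ := fc5_roots (F := K) (AlgebraicClosure K) (r / 2) (fun _ => A)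
      by_cases hr4 : 4 ≤ r
      · refine ⟨T, ?_, fun h => absurd h hr2, ?_⟩
        · have h1 : (T.card : ℝ) ≤ (A.card : ℝ) ^ (r / 2) * (r / 2 : ℕ) := by
            have := hT1
            rw [Finset.prod_const, Finset.card_univ, Fintype.card_fin] at this
            exact_mod_cast this
          have h2 : (A.card : ℝ) ^ (r / 2) ≤ (M * q) ^ (r / 2) :=
            pow_le_pow_left₀ (by positivity) hA3 _
          rw [mul_pow] at h2
          have h3 : M ^ (r / 2) ≤ M ^ r := pow_le_pow_right₀ hM1 (Nat.div_le_self _ _)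
          have h4 : q ^ (r / 2) ≤ q ^ (r - 2) := pow_le_pow_right₀ hq1 (by omega)
          have h5 : M ^ (r / 2) * q ^ (r / 2) ≤ M ^ r * q ^ (r - 2) :=
            mul_le_mul h3 h4 (by positivity) (by positivity)
          have h6 : ((r / 2 : ℕ) : ℝ) ≤ r := by exact_mod_cast Nat.div_le_self _ _
          calc (T.card : ℝ) ≤ (A.card : ℝ) ^ (r / 2) * (r / 2 : ℕ) := h1
            _ ≤ (M ^ r * q ^ (r - 2)) * r :=
              mul_le_mul (le_trans h2 h5) h6 (by positivity) (by positivity)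
            _ = _ := by ring
        · intro _ t p hp hp2 hpA hpt
          exact hT2 t p hp (by omega) (fun i => hpA i) hpt
      · refine ⟨∅, ?_, fun h => absurd h hr2, fun h => absurd h hr4⟩
        rw [Finset.card_empty]
        push_cast
        positivity
  set Z : ℝ := 16 * (1 + Y ^ 2) with hZ
  have hZ1 : 1 ≤ Z := by rw [hZ]; nlinarith
  have hZ2 : Z ≤ 16 * (1 + C1 ^ 2) * q ^ 2 := by
    rw [hZ, hY]
    have : 1 ≤ q ^ 2 := one_le_pow₀ hq1
    nlinarith
  have hTB : ∀ t : AlgebraicClosure K, ∃ T : Finset (AlgebraicClosure K),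
      (T.card : ℝ) ≤ C5 * Z ∧ (Module.finrank ℚ K⟮t⟯ ≤ d → ∀ (b : AlgebraicClosure K)
        (vF : InfinitePlace K⟮t⟯) (p : Polynomial K⟮t⟯), vF.IsReal → p.Monic → p.natDegree = 2 →
          (∀ i, IsIntegral ℤ (p.coeff i)) →
          (∀ i, ∀ v : InfinitePlace K⟮t⟯, v ≠ vF → v (p.coeff i) ≤ 4) → vF (p.coeff 1) ≤ 4 →
          vF (p.coeff 0) ≤ Z → Polynomial.aeval b p = 0 → b ∈ T) := by
    intro t
    by_cases ht : Module.finrank ℚ K⟮t⟯ ≤ d
    · have : FiniteDimensional K K⟮t⟯ := adjoin.finiteDimensional (Algebra.IsIntegral.isIntegral t)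
      have : NumberField K⟮t⟯ := NumberField.of_module_finite K K⟮t⟯
      obtain ⟨T, hT1, hT2⟩ := h5 K⟮t⟯ ht (AlgebraicClosure K) Z hZ1
      exact ⟨T, hT1, fun _ => hT2⟩
    · refine ⟨∅, ?_, fun h => absurd h ht⟩
      rw [Finset.card_empty]
      push_cast
      positivity
  choose TB hTB1 hTB2 using hTB
  set S : Finset (IntermediateField K (AlgebraicClosure K)) :=
    TA.image (fun t => K⟮t⟯) ∪ TA'.biUnion (fun a => (TB a).image (fun t => adjoin K {a, t}))
    with hS
  have hES : ∀ i, E i ∈ S := by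
    intro i
    have hYi := fc5_disc K (E i) (hfr i) hX (hdisc i)
    rw [← hC1, ← hq, ← hY] at hYi
    have : FiniteDimensional K (E i) := Module.finite_of_finrank_pos (by rw [hfr i]; omega)
    rw [hS, Finset.mem_union]
    rcases fc5_claim hr (hfr i) v₀ hY1 hYi with ⟨t, ht1, ht2, ht3⟩ | ⟨a, ha, hQ⟩
    · left
      rw [Finset.mem_image]
      refine ⟨(t : AlgebraicClosure K), ?_, fc5_gen_val (E i) ht1⟩
      have hti : IsIntegral K t := ht2.tower_top
      refine hTA2 _ (minpoly K t) (minpoly.monic hti) ?_ ?_ ?_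
      · rw [← adjoin.finrank hti, ht1, finrank_top', hfr i]
      · intro j
        exact hA2 _ (fc5_coeff_int ht2 _) (ht3 j).1 (ht3 j).2
      · rw [fc5_aeval_val, minpoly.aeval]; rfl
    · right
      rw [Finset.mem_biUnion]
      have haT : (a : AlgebraicClosure K) ∈ TA' := by
        rcases ha with ⟨hr2, rfl⟩ | ⟨hr4, ha1, ha2, ha3⟩
        · exact hTA'2.1 hr2
        · have hai : IsIntegral K a := ha1.tower_top
          refine hTA'2.2 hr4 _ (minpoly K a) (minpoly.monic hai) ha2 ?_ ?_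
          · intro j
            exact hA2 _ (fc5_coeff_int ha1 _) (ha3 j).1 (ha3 j).2
          · rw [fc5_aeval_val, minpoly.aeval]; rfl
      refine ⟨_, haT, ?_⟩
      obtain ⟨vF, p, t, h1, h2, h3, h6, h7, h8, h9, h10, h11⟩ := fc5_quad_val (E i) hQ
      rw [Finset.mem_image]
      refine ⟨t, hTB2 _ ?_ t vF p h1 h2 h3 h6 h7 h8 h9 h10, h11⟩
      have hle : K⟮(a : AlgebraicClosure K)⟯ ≤ E i := by
        rw [adjoin_simple_le_iff]; exact a.2
      have h12 : Module.finrank K K⟮(a : AlgebraicClosure K)⟯ ≤ r := by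
        rw [← hfr i]
        exact finrank_le_of_le_right hle
      have h13 := Module.finrank_mul_finrank ℚ K K⟮(a : AlgebraicClosure K)⟯
      rw [← h13, hd]
      exact Nat.mul_le_mul_left _ h12
  have hcard : Fintype.card ι ≤ S.card := by
    rw [← Finset.card_univ, ← Finset.card_image_of_injective _ hinj]
    apply Finset.card_le_card
    intro F hF
    rw [Finset.mem_image] at hF
    obtain ⟨i, _, rfl⟩ := hF
    exact hES i
  have hScard : (S.card : ℝ) ≤ TA.card + TA'.card * (C5 * Z) := by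
    have h1 : S.card ≤ TA.card + ∑ a ∈ TA', (TB a).card := by
      rw [hS]
      refine le_trans (Finset.card_union_le _ _) ?_
      refine add_le_add Finset.card_image_le ?_
      refine le_trans Finset.card_biUnion_le ?_
      exact Finset.sum_le_sum (fun a _ => Finset.card_image_le)
    have h2 : (S.card : ℝ) ≤ TA.card + ∑ a ∈ TA', ((TB a).card : ℝ) := by exact_mod_cast h1
    refine le_trans h2 ?_
    have h3 : ∑ a ∈ TA', ((TB a).card : ℝ) ≤ ∑ a ∈ TA', C5 * Z :=
      Finset.sum_le_sum (fun a _ => hTB1 a)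
    rw [Finset.sum_const, nsmul_eq_mul] at h3
    linarith
  have hfin1 : (TA'.card : ℝ) * (C5 * Z) ≤
      (r * M ^ r * q ^ (r - 2)) * (C5 * (16 * (1 + C1 ^ 2) * q ^ 2)) :=
    mul_le_mul hTA'1 (mul_le_mul_of_nonneg_left hZ2 hC5.le) (by positivity) (by positivity)
  have hfin2 : (r * M ^ r * q ^ (r - 2)) * (C5 * (16 * (1 + C1 ^ 2) * q ^ 2)) =
      r * M ^ r * (C5 * (16 * (1 + C1 ^ 2))) * q ^ r := by
    have h1 : q ^ r = q ^ (r - 2) * q ^ 2 := by
      rw [← pow_add]; congr 1; omega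
    rw [h1]; ring
  rw [hXq]
  have hc1 : (Fintype.card ι : ℝ) ≤ S.card := by exact_mod_cast hcard
  calc (Fintype.card ι : ℝ) ≤ TA.card + TA'.card * (C5 * Z) := le_trans hc1 hScard
    _ ≤ r * M ^ r * q ^ r + r * M ^ r * (C5 * (16 * (1 + C1 ^ 2))) * q ^ r := by
      rw [← hfin2]; exact add_le_add hTA3 hfin1
    _ = _ := by ring

end Pool.Agent.Lib.MP_44a246_ntNU
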