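import Pool.Agent.Lib.MP_44a246_ntNU.FC5

set_option autoImplicit false

open NumberField IsDedekindDomain

namespace Pool.Agent.Lib.MP_44a246_ntNU

universe u

/-- FC6 -/
theorem field_sum (K : Type u) [Field K] [NumberField K] (r : ℕ) (hr : 1 ≤ r) (η : ℝ)
    (hη : 0 < η) : ∃ C : ℝ, 0 < C ∧ ∀ (ι : Type) [Fintype ι]
      (E : ι → IntermediateField K (AlgebraicClosure K)) [∀ a, NumberField (E a)],
      Function.Injective E → (∀ a, Module.finrank K (E a) ≤ r) →
      ∑ a, discNorm K (E a) ^ (-((if r = 1 then 0 else (r : ℝ) / 2) + η)) ≤ C := by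
  classical
  have key : ∀ j : ℕ, ∃ C : ℝ, 0 < C ∧ (2 ≤ j → ∀ X : ℝ, 1 ≤ X → ∀ (ι : Type) [Fintype ι]
      (E : ι → IntermediateField K (AlgebraicClosure K)) [∀ a, NumberField (E a)],
      Function.Injective E → (∀ a, Module.finrank K (E a) = j) →
      (∀ a, discNorm K (E a) ≤ X) → (Fintype.card ι : ℝ) ≤ C * X ^ ((j : ℝ) / 2)) := by
    intro j
    by_cases hj : 2 ≤ j
    · obtain ⟨C, h0, h⟩ := field_count K j hj
      exact ⟨C, h0, fun _ => h⟩
    · exact ⟨1, one_pos, fun h => absurd h hj⟩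
  choose Cj hC0 hC using key
  set S : ℝ := ∑ j ∈ Finset.Icc 2 r, Cj j with hS
  have hS0 : 0 ≤ S := Finset.sum_nonneg fun j _ => (hC0 j).le
  set ρ : ℝ := (2 : ℝ) ^ (-η) with hρ
  have hρ0 : 0 < ρ := Real.rpow_pos_of_pos two_pos _
  have hρ1 : ρ < 1 := Real.rpow_lt_one_of_one_lt_of_neg one_lt_two (by linarith)
  set g : ℝ := (1 - ρ)⁻¹ with hg
  have hg0 : 0 < g := inv_pos.2 (by linarith)
  set H : ℝ := (2 : ℝ) ^ ((r : ℝ) / 2) with hH
  have hH0 : 0 < H := Real.rpow_pos_of_pos two_pos _
  refine ⟨1 + S * H * g, by positivity, ?_⟩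
  intro ι _ E _ hE hdeg
  set e : ℝ := if r = 1 then 0 else (r : ℝ) / 2 with he
  have he0 : 0 ≤ e := by rw [he]; split_ifs <;> positivity
  have hd1 : ∀ a, 1 ≤ discNorm K (E a) := fun a => (one_le_discNorm K (E a)).1
  have hf1 : ∀ a, discNorm K (E a) ^ (-(e + η)) ≤ 1 := fun a =>
    Real.rpow_le_one_of_one_le_of_nonpos (hd1 a) (by linarith)
  have hf0 : ∀ a, 0 ≤ discNorm K (E a) ^ (-(e + η)) := fun a =>
    Real.rpow_nonneg (by linarith [hd1 a]) _
  rw [← Finset.sum_filter_add_sum_filter_not Finset.univ (fun a => Module.finrank K (E a) = 1)]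
  refine add_le_add ?_ ?_
  · -- at most one index
    have hcard : (Finset.univ.filter (fun a => Module.finrank K (E a) = 1)).card ≤ 1 := by
      rw [Finset.card_le_one]
      intro a ha b hb
      simp only [Finset.mem_filter, Finset.mem_univ, true_and] at ha hb
      exact hE ((IntermediateField.finrank_eq_one_iff.1 ha).trans
        (IntermediateField.finrank_eq_one_iff.1 hb).symm)
    calc ∑ a ∈ Finset.univ.filter (fun a => Module.finrank K (E a) = 1),
          discNorm K (E a) ^ (-(e + η))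
        ≤ ∑ a ∈ Finset.univ.filter (fun a => Module.finrank K (E a) = 1), (1 : ℝ) :=
          Finset.sum_le_sum fun a _ => hf1 a
      _ = ((Finset.univ.filter (fun a => Module.finrank K (E a) = 1)).card : ℝ) := by simp
      _ ≤ 1 := by exact_mod_cast hcard
  · -- dyadic classes
    set N : ι → ℕ := fun a => Ideal.absNorm (differentIdeal (𝓞 K) (𝓞 (E a))) with hN
    have hNd : ∀ a, discNorm K (E a) = (N a : ℝ) := fun a => rfl
    have hN1 : ∀ a, 1 ≤ N a := fun a => by
      have := hd1 a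
      rw [hNd] at this
      exact_mod_cast this
    set M : ℕ := (Finset.univ.sup fun a => Nat.log 2 (N a)) + 1 with hM
    set s : Finset ι := Finset.univ.filter (fun a => ¬ Module.finrank K (E a) = 1) with hs
    have hmaps : ∀ a ∈ s, (Module.finrank K (E a), Nat.log 2 (N a)) ∈
        Finset.Icc 2 r ×ˢ Finset.range M := by
      intro a ha
      simp only [hs, Finset.mem_filter, Finset.mem_univ, true_and] at ha
      have hpos : 0 < Module.finrank K (E a) := by
        have : FiniteDimensional K (E a) := by infer_instance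
        exact Module.finrank_pos
      simp only [Finset.mem_product, Finset.mem_Icc, Finset.mem_range]
      refine ⟨⟨by omega, hdeg a⟩, ?_⟩
      rw [hM]
      exact Nat.lt_succ_of_le (Finset.le_sup (f := fun a => Nat.log 2 (N a)) (Finset.mem_univ a))
    rw [← Finset.sum_fiberwise_of_maps_to hmaps]
    rw [Finset.sum_product]
    have hinner : ∀ j ∈ Finset.Icc 2 r, ∀ k ∈ Finset.range M,
        ∑ a ∈ s.filter (fun a => (Module.finrank K (E a), Nat.log 2 (N a)) = (j, k)),
          discNorm K (E a) ^ (-(e + η)) ≤ Cj j * H * ρ ^ k := by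
      intro j hj k _
      obtain ⟨hj2, hjr⟩ := Finset.mem_Icc.1 hj
      have hr1 : r ≠ 1 := by omega
      have heq : e = (r : ℝ) / 2 := by rw [he, if_neg hr1]
      set t : Finset ι :=
        s.filter (fun a => (Module.finrank K (E a), Nat.log 2 (N a)) = (j, k)) with ht
      have htm : ∀ a ∈ t, Module.finrank K (E a) = j ∧ Nat.log 2 (N a) = k := by
        intro a ha
        have := (Finset.mem_filter.1 ha).2
        exact ⟨congrArg Prod.fst this, congrArg Prod.snd this⟩
      have hlow : ∀ a ∈ t, ((2 : ℝ) ^ k) ≤ discNorm K (E a) := by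
        intro a ha
        rw [hNd]
        have h1 := Nat.pow_log_le_self 2 (x := N a) (by have := hN1 a; omega)
        rw [(htm a ha).2] at h1
        exact_mod_cast h1
      have hup : ∀ a ∈ t, discNorm K (E a) ≤ (2 : ℝ) ^ (k + 1) := by
        intro a ha
        rw [hNd]
        have h1 := Nat.lt_pow_succ_log_self (b := 2) one_lt_two (N a)
        rw [(htm a ha).2] at h1
        exact_mod_cast h1.le
      have hcard : (t.card : ℝ) ≤ Cj j * ((2 : ℝ) ^ (k + 1)) ^ ((j : ℝ) / 2) := by
        have := hC j hj2 ((2 : ℝ) ^ (k + 1)) (one_le_pow₀ (by norm_num)) (↥t)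
          (fun a => E a.1) (hE.comp Subtype.val_injective) (fun a => (htm a.1 a.2).1)
          (fun a => hup a.1 a.2)
        rwa [Fintype.card_coe] at this
      have hterm : ∀ a ∈ t, discNorm K (E a) ^ (-(e + η)) ≤ ((2 : ℝ) ^ k) ^ (-(e + η)) := by
        intro a ha
        exact Real.rpow_le_rpow_of_nonpos (by positivity) (hlow a ha) (by linarith)
      have hj' : ((2 : ℝ) ^ (k + 1)) ^ ((j : ℝ) / 2) ≤ ((2 : ℝ) ^ (k + 1)) ^ ((r : ℝ) / 2) := by
        refine Real.rpow_le_rpow_of_exponent_le (one_le_pow₀ (by norm_num)) ?_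
        have : (j : ℝ) ≤ r := by exact_mod_cast hjr
        linarith
      have hpw : ((2 : ℝ) ^ (k + 1)) ^ ((r : ℝ) / 2) * ((2 : ℝ) ^ k) ^ (-(e + η)) =
          H * ρ ^ k := by
        rw [heq, hH, hρ, ← Real.rpow_natCast 2 (k + 1), ← Real.rpow_natCast 2 k,
          ← Real.rpow_natCast ((2 : ℝ) ^ (-η)) k, ← Real.rpow_mul two_pos.le,
          ← Real.rpow_mul two_pos.le, ← Real.rpow_mul two_pos.le, ← Real.rpow_add two_pos,
          ← Real.rpow_add two_pos]
        congr 1
        push_cast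
        ring
      calc ∑ a ∈ t, discNorm K (E a) ^ (-(e + η))
          ≤ ∑ a ∈ t, ((2 : ℝ) ^ k) ^ (-(e + η)) := Finset.sum_le_sum hterm
        _ = t.card * ((2 : ℝ) ^ k) ^ (-(e + η)) := by rw [Finset.sum_const, nsmul_eq_mul]
        _ ≤ (Cj j * ((2 : ℝ) ^ (k + 1)) ^ ((r : ℝ) / 2)) * ((2 : ℝ) ^ k) ^ (-(e + η)) := by
            refine mul_le_mul_of_nonneg_right (hcard.trans ?_) (by positivity)
            exact mul_le_mul_of_nonneg_left hj' (hC0 j).le
        _ = Cj j * H * ρ ^ k := by rw [mul_assoc, hpw]; ring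
    have hgeo : ∑ k ∈ Finset.range M, ρ ^ k ≤ g := by
      rw [hg, ← tsum_geometric_of_lt_one hρ0.le hρ1]
      exact (summable_geometric_of_lt_one hρ0.le hρ1).sum_le_tsum _
        (fun k _ => (pow_pos hρ0 k).le)
    calc ∑ j ∈ Finset.Icc 2 r, ∑ k ∈ Finset.range M,
          ∑ a ∈ s.filter (fun a => (Module.finrank K (E a), Nat.log 2 (N a)) = (j, k)),
            discNorm K (E a) ^ (-(e + η))
        ≤ ∑ j ∈ Finset.Icc 2 r, ∑ k ∈ Finset.range M, Cj j * H * ρ ^ k :=
          Finset.sum_le_sum fun j hj => Finset.sum_le_sum fun k hk => hinner j hj k hk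
      _ = S * H * ∑ k ∈ Finset.range M, ρ ^ k := by
          rw [hS, Finset.sum_mul, Finset.sum_mul]
          refine Finset.sum_congr rfl fun j _ => ?_
          rw [Finset.mul_sum]
      _ ≤ S * H * g := mul_le_mul_of_nonneg_left hgeo (by positivity)

end Pool.Agent.Lib.MP_44a246_ntNU
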