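import Pool.Agent.Lib.MP_44a246_ntNU.Total

set_option autoImplicit false

open NumberField IsDedekindDomain Height
open Pool.Agent.Lib.MP_4d5ce1_nt (fa nv ordv)
open Pool.Agent.Lib.MP_44a246_ntNF

namespace Pool.Agent.Lib.MP_44a246_ntNU

universe u

variable {K : Type u} [Field K] [NumberField K] {n q : ℕ}

theorem above_finite (E : Type*) [Field E] [NumberField E] [Algebra K E]
    {S₀ : Set (HeightOneSpectrum (𝓞 K))} (hS₀ : S₀.Finite) : (above K E S₀).Finite := by
  classical
  obtain ⟨S', h1, _⟩ := above_finset E hS₀.toFinset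
  have h2 : (S' : Set (HeightOneSpectrum (𝓞 E))) = above K E S₀ := by
    rw [h1, hS₀.coe_toFinset]
  rw [← h2]
  exact S'.finite_toSet

/-- Points over `K` itself. -/
theorem count_one (hn : 2 ≤ n) (hq : n + 2 ≤ q)
    {S₀ : Set (HeightOneSpectrum (𝓞 K))} (hS₀ : S₀.Finite) (L : Fin q → Fin (n + 1) → K)
    (hL : ∀ J : Fin (n + 1) → Fin q, Function.Injective J →
      LinearIndependent K (fun i => L (J i)))
    (α β ρ : ℝ) (hα : 0 ≤ α) (hβ : 0 ≤ β) (hρ : 0 ≤ ρ) (hρq : ρ ≤ q - 1)
    (hs : ∀ s : ℕ, 1 ≤ s → s ≤ n → 1 - (((q - n - 2 + s).choose s : ℕ) : ℝ) /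
      ((q.choose s : ℕ) : ℝ) ≤ α + β * s) (c η : ℝ) (hη : 0 < η) :
    ∃ C : ℝ, 0 < C ∧ ∀ B : ℝ, 1 ≤ B →
      ∀ X : Finset (Σ F : IntermediateField K (AlgebraicClosure K),
        Projectivization F (Fin (n + 1) → F)), (∀ s ∈ X, Viol S₀ L 1 ρ c B s) →
        (X.card : ℝ) ≤ C * B ^ (min (n : ℝ) (α * ρ + β * q) + η) := by
  classical
  let F : IntermediateField K (AlgebraicClosure K) := ⊥
  have hfin : FiniteDimensional K F := by
    change FiniteDimensional K (⊥ : IntermediateField K (AlgebraicClosure K))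
    infer_instance
  have hchar : CharZero F := charZero_of_injective_algebraMap (algebraMap K F).injective
  have hNF : NumberField F := by
    have : FiniteDimensional ℚ F := FiniteDimensional.trans ℚ K F
    exact ⟨⟩
  obtain ⟨cc, hcc, S, _, hS⟩ := exists_good (by omega) L hL ∅
  obtain ⟨S', hS', _⟩ := above_finset F S
  have hLF : ∀ J : Fin (n + 1) → Fin q, Function.Injective J →
      LinearIndependent F (fun i => up F L (J i)) :=
    (good_up (by omega) hL hcc hS S' hS').2.2
  obtain ⟨C, h⟩ := count_both (K := F) hn hq (above_finite F hS₀) (up F L) hLF α β ρ hα hβ hρ hρq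
    hs c η hη
  refine ⟨max C 1, by positivity, ?_⟩
  intro B hB X hX
  have hB0 : 0 < B := by linarith
  have hfst : ∀ s ∈ X, s.1 = F := by
    intro s hs
    obtain ⟨h1, h2, _⟩ := hX s hs
    have h3 : FiniteDimensional K s.1 := by
      have : FiniteDimensional ℚ s.1 := h1.to_finiteDimensional
      exact FiniteDimensional.right ℚ K s.1
    have h4 : Module.finrank K s.1 = 1 :=
      le_antisymm h2 (Nat.succ_le_of_lt Module.finrank_pos)
    exact IntermediateField.finrank_eq_one_iff.mp h4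
  have hinj : Function.Injective (fun P : Projectivization F (Fin (n + 1) → F) =>
      (⟨F, P⟩ : Σ F : IntermediateField K (AlgebraicClosure K),
        Projectivization F (Fin (n + 1) → F))) := fun P Q h => by
    simpa using h
  set XF : Finset (Projectivization F (Fin (n + 1) → F)) :=
    X.preimage (fun P => (⟨F, P⟩ : Σ F : IntermediateField K (AlgebraicClosure K),
        Projectivization F (Fin (n + 1) → F))) hinj.injOn with hXF
  have himg : XF.image (fun P => (⟨F, P⟩ : Σ F : IntermediateField K (AlgebraicClosure K),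
        Projectivization F (Fin (n + 1) → F))) = X := by
    ext s
    rw [Finset.mem_image]
    constructor
    · rintro ⟨P, hP, rfl⟩
      rw [hXF, Finset.mem_preimage] at hP
      exact hP
    · intro h1
      have h2 := hfst s h1
      obtain ⟨F', P'⟩ := s
      simp only at h2
      subst h2
      exact ⟨P', by rw [hXF, Finset.mem_preimage]; exact h1, rfl⟩
  have hcard : X.card = XF.card := by
    conv_lhs => rw [← himg]
    rw [Finset.card_image_of_injective _ hinj]
  have key := h B hB XF (by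
    intro P hP
    rw [hXF, Finset.mem_preimage] at hP
    obtain ⟨h1, _, h3, h4, h5, h6⟩ := hX _ hP
    refine ⟨h3, h4, h5, ?_⟩
    have h7 := Real.log_nonneg (one_le_discNorm K F).1
    have h8 : truncCount (above K F S₀) (up F L) P.rep + Real.log (discNorm K F) ≤
      ρ * P.logHeight + c := h6
    linarith)
  rw [hcard]
  refine key.trans ?_
  exact mul_le_mul_of_nonneg_right (le_max_left _ _) (Real.rpow_pos_of_pos hB0 _).le

/-- The exponent. -/
noncomputable def expo (n r : ℕ) (α β ρ : ℝ) (q : ℕ) : ℝ :=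
  if r = 1 then (if n = 1 then α * ρ + β * q else min (n : ℝ) (α * ρ + β * q))
  else α * ρ + β * q + ρ * max 0 ((r : ℝ) / 2 - α)

theorem count_all (hn : 1 ≤ n) (hq : n + 2 ≤ q)
    {S₀ : Set (HeightOneSpectrum (𝓞 K))} (hS₀ : S₀.Finite) (L : Fin q → Fin (n + 1) → K)
    (hL : ∀ J : Fin (n + 1) → Fin q, Function.Injective J →
      LinearIndependent K (fun i => L (J i)))
    (α β ρ : ℝ) (hα : 0 ≤ α) (hβ : 0 ≤ β) (hρ : 0 ≤ ρ) (hρq : ρ ≤ q - 1)
    (hs : ∀ s : ℕ, 1 ≤ s → s ≤ n → 1 - (((q - n - 2 + s).choose s : ℕ) : ℝ) /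
      ((q.choose s : ℕ) : ℝ) ≤ α + β * s) (r : ℕ) (hr : 1 ≤ r) (c η : ℝ) (hη : 0 < η) :
    ∃ C : ℝ, ∀ B : ℝ, 1 ≤ B →
      ∀ X : Finset (Σ F : IntermediateField K (AlgebraicClosure K),
        Projectivization F (Fin (n + 1) → F)), (∀ s ∈ X, Viol S₀ L r ρ c B s) →
        (X.card : ℝ) ≤ C * B ^ (expo n r α β ρ q + η) ∧
        ∀ (F : IntermediateField K (AlgebraicClosure K)) (_ : NumberField F),
          (∀ s ∈ X, s.1 = F) →
            (X.card : ℝ) ≤ C * B ^ (α * ρ + β * q + η) * discNorm K F ^ (-α) := by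
  classical
  obtain ⟨C1, hC1, h1⟩ := count_total hq hS₀ L hL α β ρ hα hβ hρ hs r hr c η hη
  obtain ⟨C2, hC2, h2⟩ := count_field hq hS₀ L hL α β ρ hα hβ hρ hs r c η hη
  obtain ⟨C3, hC3, h3⟩ : ∃ C : ℝ, 0 < C ∧ (2 ≤ n → r = 1 → ∀ B : ℝ, 1 ≤ B →
      ∀ X : Finset (Σ F : IntermediateField K (AlgebraicClosure K),
        Projectivization F (Fin (n + 1) → F)), (∀ s ∈ X, Viol S₀ L r ρ c B s) →
        (X.card : ℝ) ≤ C * B ^ (min (n : ℝ) (α * ρ + β * q) + η)) := by
    by_cases hc : 2 ≤ n ∧ r = 1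
    · obtain ⟨hn2, rfl⟩ := hc
      obtain ⟨C, hC, h⟩ := count_one hn2 hq hS₀ L hL α β ρ hα hβ hρ hρq hs c η hη
      exact ⟨C, hC, fun _ _ => h⟩
    · exact ⟨1, one_pos, fun a b => (hc ⟨a, b⟩).elim⟩
  refine ⟨C1 + C2 + C3, ?_⟩
  intro B hB X hX
  have hB0 : 0 < B := by linarith
  constructor
  · have k1 := h1 B hB X hX
    unfold expo
    split_ifs with hr1 hn1
    · rw [if_pos hr1] at k1
      have e : max (0 : ℝ) (0 - α) = 0 := max_eq_left (by linarith)
      rw [e, mul_zero, add_zero] at k1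
      refine k1.trans ?_
      exact mul_le_mul_of_nonneg_right (by linarith) (Real.rpow_pos_of_pos hB0 _).le
    · refine (h3 (by omega) hr1 B hB X hX).trans ?_
      exact mul_le_mul_of_nonneg_right (by linarith) (Real.rpow_pos_of_pos hB0 _).le
    · rw [if_neg hr1] at k1
      refine k1.trans ?_
      exact mul_le_mul_of_nonneg_right (by linarith) (Real.rpow_pos_of_pos hB0 _).le
  · intro F hF hXF
    have k2 := (h2 B hB X hX F).1
    rw [Finset.filter_true_of_mem hXF, dN_eq K F] at k2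
    refine k2.trans ?_
    have hD := (one_le_discNorm K F).1
    have hD0 : 0 ≤ discNorm K F ^ (-α) := Real.rpow_nonneg (by linarith) _
    apply mul_le_mul_of_nonneg_right _ hD0
    exact mul_le_mul_of_nonneg_right (by linarith) (Real.rpow_pos_of_pos hB0 _).le

end Pool.Agent.Lib.MP_44a246_ntNU
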