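import Pool.Agent.Lib.MP_44a246_ntNU.Defs

set_option autoImplicit false

open NumberField IsDedekindDomain

namespace Pool.Agent.Lib.MP_44a246_ntNU

/-- NU10 -/
theorem one_le_discNorm (K E : Type*) [Field K] [NumberField K] [Field E] [NumberField E]
    [Algebra K E] : 1 ≤ discNorm K E ∧
      |((discr E : ℤ) : ℝ)| = discNorm K E * |((discr K : ℤ) : ℝ)| ^ Module.finrank K E := by
  have h := natAbs_discr_eq_absNorm_differentIdeal_mul_natAbs_discr_pow K (𝓞 K) E (𝓞 E)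
  have h1 : Ideal.absNorm (differentIdeal (𝓞 K) (𝓞 E)) ≠ 0 := by
    intro h0
    rw [h0, Nat.zero_mul, Int.natAbs_eq_zero] at h
    exact discr_ne_zero E h
  have habs : ∀ z : ℤ, |((z : ℤ) : ℝ)| = (z.natAbs : ℝ) := fun z => by
    rw [Nat.cast_natAbs, Int.cast_abs]
  unfold discNorm
  refine ⟨?_, ?_⟩
  · exact_mod_cast Nat.one_le_iff_ne_zero.2 h1
  · rw [habs, habs, h, Nat.cast_mul, Nat.cast_pow]

end Pool.Agent.Lib.MP_44a246_ntNU
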