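import Pool.Agent.Lib.MP_44a246_ntNU.NU9

set_option autoImplicit false

open NumberField IsDedekindDomain Height
open Pool.Agent.Lib.MP_4d5ce1_nt (fa nv ordv)
open Pool.Agent.Lib.MP_44a246_ntNF

namespace Pool.Agent.Lib.MP_44a246_ntNU

universe u

theorem truncCount_nonneg {E : Type*} [Field E] [NumberField E] {n q : ℕ}
    (S : Set (HeightOneSpectrum (𝓞 E))) (L : Fin q → Fin (n + 1) → E) (x : Fin (n + 1) → E) :
    0 ≤ truncCount S L x := by
  unfold truncCount
  apply finsum_nonneg
  intro v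
  apply finsum_nonneg
  intro _
  exact Real.log_natCast_nonneg _

/-- NU11 -/
theorem count_disc' {K : Type u} [Field K] [NumberField K] {n q : ℕ} (hq : n + 2 ≤ q)
    {S₀ : Set (HeightOneSpectrum (𝓞 K))} (hS₀ : S₀.Finite) (L : Fin q → Fin (n + 1) → K)
    (hL : ∀ J : Fin (n + 1) → Fin q, Function.Injective J →
      LinearIndependent K (fun i => L (J i)))
    (α β ρ : ℝ) (hα : 0 ≤ α) (hβ : 0 ≤ β) (hρ : 0 ≤ ρ)
    (hs : ∀ s : ℕ, 1 ≤ s → s ≤ n → 1 - (((q - n - 2 + s).choose s : ℕ) : ℝ) /
      ((q.choose s : ℕ) : ℝ) ≤ α + β * s) (r : ℕ) (c η : ℝ) (hη : 0 < η) :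
    ∃ C : ℝ, 0 < C ∧ ∀ (E : Type u) [Field E] [NumberField E] [Algebra K E],
      Module.finrank K E ≤ r → ∀ B : ℝ, 1 ≤ B →
      ∀ X : Finset (Projectivization E (Fin (n + 1) → E)),
      (∀ P ∈ X, (∀ j, lin (up E L j) P.rep ≠ 0) ∧ ¬ VanishingSubsum (up E L) P.rep ∧
        P.mulHeight ≤ B ∧ truncCount (above K E S₀) (up E L) P.rep +
          Real.log (discNorm K E) ≤ ρ * P.logHeight + c) →
      (X.card : ℝ) ≤ C * B ^ (α * ρ + β * q + η) * discNorm K E ^ (-α) ∧
        (X.Nonempty → discNorm K E ≤ C * B ^ ρ) := by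
  classical
  set η' : ℝ := η / (ρ + 1) with hη'
  have hη'p : 0 < η' := by positivity
  obtain ⟨C, hC, h⟩ := count_u' hq hS₀ L hL α β hα hβ hs r η' hη'p
  set A : ℝ := Real.exp |c| with hA
  have hA1 : 1 ≤ A := Real.one_le_exp (abs_nonneg c)
  refine ⟨C * Real.exp (c * α) * A ^ η' + A, by positivity, ?_⟩
  intro E _ _ _ hE B hB X hX
  have hB0 : 0 < B := by linarith
  have hlB : 0 ≤ Real.log B := Real.log_nonneg hB
  have hD1 : 1 ≤ discNorm K E := (one_le_discNorm K E).1
  have hD0 : 0 < discNorm K E := by linarith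
  rcases X.eq_empty_or_nonempty with hXe | hXn
  · subst hXe
    refine ⟨?_, fun h => (Finset.not_nonempty_empty h).elim⟩
    rw [Finset.card_empty, Nat.cast_zero]
    positivity
  obtain ⟨P₀, hP₀⟩ := hXn
  set M : ℝ := Real.exp c * B ^ ρ / discNorm K E with hM
  have hM0 : 0 < M := by positivity
  have hlM : Real.log M = ρ * Real.log B + c - Real.log (discNorm K E) := by
    rw [hM, Real.log_div (by positivity) hD0.ne', Real.log_mul (Real.exp_pos c).ne' (by positivity),
      Real.log_exp, Real.log_rpow hB0]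
    ring
  have hN : ∀ P ∈ X, truncCount (above K E S₀) (up E L) P.rep ≤ Real.log M := by
    intro P hP
    obtain ⟨_, _, a3, a4⟩ := hX P hP
    have h5 : P.logHeight ≤ Real.log B := by
      rw [Projectivization.logHeight_eq_log_mulHeight]
      exact Real.log_le_log P.mulHeight_pos a3
    have h6 := mul_le_mul_of_nonneg_left h5 hρ
    rw [hlM]
    linarith
  have hM1 : 1 ≤ M := by
    have h1 := hN P₀ hP₀
    have h2 := truncCount_nonneg (above K E S₀) (up E L) P₀.rep
    have h3 : 0 ≤ Real.log M := h2.trans h1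
    by_contra hlt
    rw [not_le] at hlt
    have := Real.log_neg hM0 hlt
    linarith
  have hcA : Real.exp c ≤ A := Real.exp_le_exp.mpr (le_abs_self c)
  have hBρ : 1 ≤ B ^ ρ := Real.one_le_rpow hB hρ
  constructor
  · have h1 := h E hE B M hB hM1 X (fun P hP => by
      obtain ⟨a1, a2, a3, _⟩ := hX P hP
      exact ⟨a1, a2, a3, hN P hP⟩)
    refine h1.trans ?_
    have e1 : M ^ α = Real.exp (c * α) * B ^ (α * ρ) * discNorm K E ^ (-α) := by
      rw [hM, Real.div_rpow (by positivity) hD0.le, Real.mul_rpow (Real.exp_pos c).le (by positivity),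
        ← Real.rpow_mul hB0.le, Real.rpow_neg hD0.le, ← Real.exp_mul, mul_comm ρ α]
      rfl
    have e2 : (B * M) ^ η' ≤ A ^ η' * B ^ η := by
      have f1 : B * M ≤ A * B ^ (ρ + 1) := by
        rw [Real.rpow_add hB0, Real.rpow_one, hM]
        have f2 : Real.exp c * B ^ ρ / discNorm K E ≤ Real.exp c * B ^ ρ :=
          div_le_self (by positivity) hD1
        have f3 : Real.exp c * B ^ ρ ≤ A * B ^ ρ := mul_le_mul_of_nonneg_right hcA (by linarith)
        calc B * (Real.exp c * B ^ ρ / discNorm K E) ≤ B * (A * B ^ ρ) :=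
              mul_le_mul_of_nonneg_left (f2.trans f3) hB0.le
          _ = A * (B ^ ρ * B) := by ring
      calc (B * M) ^ η' ≤ (A * B ^ (ρ + 1)) ^ η' :=
            Real.rpow_le_rpow (by positivity) f1 hη'p.le
        _ = A ^ η' * B ^ η := by
            rw [Real.mul_rpow (by linarith) (by positivity), ← Real.rpow_mul hB0.le]
            congr 2
            rw [hη']
            field_simp
    rw [e1]
    have e3 : B ^ (α * ρ + β * q + η) = B ^ (α * ρ) * B ^ (β * q) * B ^ η := by
      rw [Real.rpow_add hB0, Real.rpow_add hB0]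
    rw [e3]
    have hDα : 0 < discNorm K E ^ (-α) := Real.rpow_pos_of_pos hD0 _
    calc C * (Real.exp (c * α) * B ^ (α * ρ) * discNorm K E ^ (-α)) * B ^ (β * q) * (B * M) ^ η'
        ≤ C * (Real.exp (c * α) * B ^ (α * ρ) * discNorm K E ^ (-α)) * B ^ (β * q) *
          (A ^ η' * B ^ η) := mul_le_mul_of_nonneg_left e2 (by positivity)
      _ = (C * Real.exp (c * α) * A ^ η') * (B ^ (α * ρ) * B ^ (β * q) * B ^ η) *
          discNorm K E ^ (-α) := by ring
      _ ≤ (C * Real.exp (c * α) * A ^ η' + A) * (B ^ (α * ρ) * B ^ (β * q) * B ^ η) *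
          discNorm K E ^ (-α) := by
          apply mul_le_mul_of_nonneg_right _ hDα.le
          apply mul_le_mul_of_nonneg_right _ (by positivity)
          linarith
  · intro _
    have h1 : discNorm K E ≤ Real.exp c * B ^ ρ := by
      rw [hM, one_le_div hD0] at hM1
      exact hM1
    refine h1.trans ?_
    apply mul_le_mul_of_nonneg_right _ (by linarith)
    have : 0 ≤ C * Real.exp (c * α) * A ^ η' := by positivity
    linarith

end Pool.Agent.Lib.MP_44a246_ntNU
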