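import Mathlib
import Pool.Agent.Lib.MP_4d5ce1_nt.Basic

/-!
# Uniform finiteness of integers of bounded size (NU3a)
-/

set_option autoImplicit false

open NumberField IsDedekindDomain Height
open Pool.Agent.Lib.MP_4d5ce1_nt (fa nv ordv)

namespace Pool.Agent.Lib.MP_44a246_ntNU

universe u

private theorem isIntegral_of_fa_le {E : Type*} [Field E] [NumberField E] {y : E}
    (h : ∀ v : HeightOneSpectrum (𝓞 E), fa v y ≤ 1) : IsIntegral ℤ y := by
  have h1 : ∀ v : HeightOneSpectrum (𝓞 E), v.valuation E y ≤ 1 := by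
    intro v
    have h2 : v.valuation E 1 < v.valuation E y ↔ fa v 1 < fa v y := by
      rw [Pool.Agent.Lib.MP_4d5ce1_nt.fa_eq_adic, Pool.Agent.Lib.MP_4d5ce1_nt.fa_eq_adic,
        HeightOneSpectrum.adicAbv_def, HeightOneSpectrum.adicAbv_def, NNReal.coe_lt_coe]
      exact ((WithZeroMulInt.toNNReal_strictMono (by
        have := HeightOneSpectrum.one_lt_absNorm v
        exact_mod_cast this)).lt_iff_lt).symm
    have h3 : fa v (1 : E) = 1 := map_one (FinitePlace.mk v)
    by_contra hcon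
    rw [not_le, ← map_one (v.valuation E), h2, h3] at hcon
    exact absurd (h v) (not_le.2 hcon)
  obtain ⟨a, ha⟩ := HeightOneSpectrum.mem_integers_of_valuation_le_one E y h1
  rw [← ha]
  exact RingOfIntegers.isIntegral_coe a

/-- NU3a -/
theorem card_small_u (d : ℕ) (R : ℝ) : ∃ N : ℕ,
    ∀ (E : Type u) [Field E] [NumberField E], Module.finrank ℚ E ≤ d →
      ∀ U : Finset E, (∀ y ∈ U, (∀ v : HeightOneSpectrum (𝓞 E), fa v y ≤ 1) ∧
        ∀ w : InfinitePlace E, w y ≤ R) → U.card ≤ N := by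
  classical
  obtain ⟨M, hM⟩ : ∃ M : ℕ, (max R 1) ^ d * 2 ^ d ≤ (M : ℝ) := exists_nat_ge _
  let V : Finset (Fin (d + 1) → ℤ) := Fintype.piFinset fun _ => Finset.Icc (-(M : ℤ)) M
  refine ⟨d * V.card, fun E _ _ hd U hU => ?_⟩
  have hint : ∀ y ∈ U, IsIntegral ℤ y := fun y hy => isIntegral_of_fa_le (hU y hy).1
  have hmin : ∀ y ∈ U, minpoly ℚ y = (minpoly ℤ y).map (algebraMap ℤ ℚ) := fun y hy =>
    minpoly.isIntegrallyClosed_eq_field_fractions' ℚ (hint y hy)
  have hdeg : ∀ y ∈ U, (minpoly ℤ y).natDegree ≤ d := by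
    intro y hy
    have h1 : (minpoly ℚ y).natDegree ≤ Module.finrank ℚ E := minpoly.natDegree_le y
    rw [hmin y hy, (minpoly.monic (hint y hy)).natDegree_map] at h1
    exact h1.trans hd
  have hcoeff : ∀ y ∈ U, ∀ i, |(minpoly ℤ y).coeff i| ≤ (M : ℤ) := by
    intro y hy i
    have h1 : ∀ φ : E →+* ℂ, ‖φ y‖ ≤ R := by
      intro φ
      have h2 := (hU y hy).2 (InfinitePlace.mk φ)
      rwa [InfinitePlace.apply] at h2
    have h2 := NumberField.Embeddings.coeff_bdd_of_norm_le h1 i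
    rw [hmin y hy, Polynomial.coeff_map] at h2
    have h3 : ‖(algebraMap ℤ ℚ) ((minpoly ℤ y).coeff i)‖ = |(((minpoly ℤ y).coeff i : ℤ) : ℝ)| := by
      rw [eq_intCast, Int.norm_cast_rat, Int.norm_eq_abs]
    rw [h3] at h2
    have h4 : (1 : ℝ) ≤ max R 1 := le_max_right _ _
    have h5 : max R 1 ^ Module.finrank ℚ E ≤ max R 1 ^ d := pow_le_pow_right₀ h4 hd
    have h6 : (((Module.finrank ℚ E).choose (Module.finrank ℚ E / 2) : ℕ) : ℝ) ≤ 2 ^ d := by
      have h7 : (Module.finrank ℚ E).choose (Module.finrank ℚ E / 2) ≤ 2 ^ Module.finrank ℚ E :=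
        Nat.choose_le_two_pow _ _
      have h8 : 2 ^ Module.finrank ℚ E ≤ 2 ^ d := Nat.pow_le_pow_right (by norm_num) hd
      exact_mod_cast h7.trans h8
    have h7 : |(((minpoly ℤ y).coeff i : ℤ) : ℝ)| ≤ (M : ℝ) := by
      refine h2.trans (le_trans ?_ hM)
      exact mul_le_mul h5 h6 (Nat.cast_nonneg _) (by positivity)
    exact_mod_cast h7
  refine Finset.card_le_mul_card_image_of_maps_to (t := V)
    (f := fun y => fun i : Fin (d + 1) => (minpoly ℤ y).coeff i) ?_ d ?_
  · intro y hy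
    rw [Fintype.mem_piFinset]
    intro i
    rw [Finset.mem_Icc]
    exact abs_le.1 (hcoeff y hy i)
  · intro b _
    rcases ({a ∈ U | (fun i : Fin (d + 1) => (minpoly ℤ a).coeff i) = b} :
      Finset E).eq_empty_or_nonempty with h0 | ⟨y₀, hy₀⟩
    · rw [h0]
      simp
    · rw [Finset.mem_filter] at hy₀
      have hsub : ({a ∈ U | (fun i : Fin (d + 1) => (minpoly ℤ a).coeff i) = b} : Finset E) ⊆
          ((minpoly ℚ y₀).map (algebraMap ℚ E)).roots.toFinset := by
        intro y hy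
        rw [Finset.mem_filter] at hy
        have h1 : minpoly ℤ y = minpoly ℤ y₀ := by
          ext i
          rcases Nat.lt_or_ge i (d + 1) with hi | hi
          · exact congrFun (hy.2.trans hy₀.2.symm) ⟨i, hi⟩
          · rw [Polynomial.coeff_eq_zero_of_natDegree_lt (lt_of_le_of_lt (hdeg y hy.1) hi),
              Polynomial.coeff_eq_zero_of_natDegree_lt (lt_of_le_of_lt (hdeg y₀ hy₀.1) hi)]
        have h2 : minpoly ℚ y₀ = minpoly ℚ y := by
          rw [hmin y hy.1, hmin y₀ hy₀.1, h1]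
        have h3 : IsIntegral ℚ y := Algebra.IsIntegral.isIntegral y
        rw [Multiset.mem_toFinset, Polynomial.mem_roots_map (by
          rw [h2]
          exact minpoly.ne_zero h3), h2]
        exact minpoly.aeval ℚ y
      refine (Finset.card_le_card hsub).trans ((Multiset.toFinset_card_le _).trans ?_)
      refine (Polynomial.card_roots' _).trans ?_
      rw [Polynomial.natDegree_map]
      exact (minpoly.natDegree_le y₀).trans hd

end Pool.Agent.Lib.MP_44a246_ntNU
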