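import Pool.Agent.Lib.MP_44a246_ntNF.Tools
import Pool.Agent.Lib.MP_44a246_ntNU.NU1
import Pool.Agent.Lib.MP_44a246_ntNU.NU3a

/-!
# Counting elements of bounded height with given support, uniformly in the field
-/

set_option autoImplicit false

open NumberField IsDedekindDomain Height
open Pool.Agent.Lib.MP_4d5ce1_nt (fa nv ordv)
open Pool.Agent.Lib.MP_44a246_ntNF

namespace Pool.Agent.Lib.MP_44a246_ntNU

universe u

private lemma nu3b_two_pow (d : ℕ) (η : ℝ) (hη : 0 < η) : ∃ C : ℝ, 0 < C ∧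
    ∀ (E : Type u) [Field E] [NumberField E], Module.finrank ℚ E ≤ d →
      ∀ V : Finset (HeightOneSpectrum (𝓞 E)), (2 : ℝ) ^ V.card ≤ C * NN V ^ η := by
  classical
  obtain ⟨N, hN⟩ := card_nv_le_u.{u} d ((2 : ℝ) ^ (1 / η))
  refine ⟨2 ^ N, by positivity, fun K _ _ hd V => ?_⟩
  have h1 : NN V ^ η = ∏ v ∈ V, nv v ^ η := by
    unfold NN
    rw [Real.finsetProd_rpow _ _ (fun v _ => (Pool.Agent.Lib.MP_4d5ce1_nt.nv_pos v).le)]
  have h2 : (2 : ℝ) ^ V.card = ∏ _v ∈ V, (2 : ℝ) := by simp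
  have h3 : ∏ _v ∈ V, (2 : ℝ) ≤
      ∏ v ∈ V, ((if nv v ≤ (2 : ℝ) ^ (1 / η) then 2 else 1) * nv v ^ η) := by
    refine Finset.prod_le_prod (fun _ _ => by norm_num) (fun v _ => ?_)
    have hv1 : 1 ≤ nv v ^ η :=
      Real.one_le_rpow (Pool.Agent.Lib.MP_4d5ce1_nt.one_lt_nv v).le hη.le
    split_ifs with h
    · linarith
    · have hlt : (2 : ℝ) ^ (1 / η) < nv v := not_le.mp h
      have := Real.rpow_lt_rpow (by positivity) hlt hη
      rw [← Real.rpow_mul (by norm_num), one_div, inv_mul_cancel₀ hη.ne', Real.rpow_one] at this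
      linarith
  have h4 : ∏ v ∈ V, ((if nv v ≤ (2 : ℝ) ^ (1 / η) then (2 : ℝ) else 1) * nv v ^ η) =
      (∏ v ∈ V, (if nv v ≤ (2 : ℝ) ^ (1 / η) then (2 : ℝ) else 1)) * ∏ v ∈ V, nv v ^ η :=
    Finset.prod_mul_distrib
  have h5 : ∏ v ∈ V, (if nv v ≤ (2 : ℝ) ^ (1 / η) then (2 : ℝ) else 1) ≤ 2 ^ N := by
    rw [Finset.prod_ite, Finset.prod_const_one, mul_one, Finset.prod_const]
    refine pow_le_pow_right₀ (by norm_num) (hN K hd _ ?_)
    intro v hv
    exact (Finset.mem_filter.mp hv).2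
  have h6 : 0 ≤ ∏ v ∈ V, nv v ^ η :=
    Finset.prod_nonneg fun v _ => Real.rpow_nonneg (Pool.Agent.Lib.MP_4d5ce1_nt.nv_pos v).le _
  rw [h2, h1]
  refine h3.trans ?_
  rw [h4]
  exact mul_le_mul_of_nonneg_right h5 h6

private lemma nu3b_one_le_prod {ι : Type*} (s : Finset ι) (f : ι → ℝ) (h : ∀ i ∈ s, 1 ≤ f i) :
    1 ≤ ∏ i ∈ s, f i := by
  calc (1 : ℝ) = ∏ i ∈ s, (1 : ℝ) := by simp
    _ ≤ ∏ i ∈ s, f i := Finset.prod_le_prod (fun _ _ => zero_le_one) h

/-- geometric sums over integers -/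
private lemma nu3b_geom (r : ℝ) (hr0 : 0 ≤ r) (hr1 : r < 1) (t : Finset ℤ) :
    ∑ m ∈ t, r ^ m.natAbs ≤ 2 / (1 - r) := by
  classical
  have hs := summable_geometric_of_lt_one hr0 hr1
  have key : ∀ t' : Finset ℤ, Set.InjOn Int.natAbs (t' : Set ℤ) →
      ∑ m ∈ t', r ^ m.natAbs ≤ 1 / (1 - r) := by
    intro t' ht'
    rw [← Finset.sum_image (f := fun n : ℕ => r ^ n) (g := Int.natAbs) (s := t')
      (fun a ha b hb hab => ht' ha hb hab)]
    have := hs.sum_le_tsum (t'.image Int.natAbs) (fun i _ => by positivity)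
    rwa [tsum_geometric_of_lt_one hr0 hr1, ← one_div] at this
  have h1 := key (t.filter fun m => 0 ≤ m) (by
    intro a ha b hb hab
    rw [Finset.mem_coe, Finset.mem_filter] at ha hb
    have e : a.natAbs = b.natAbs := hab
    omega)
  have h2 := key (t.filter fun m => ¬ 0 ≤ m) (by
    intro a ha b hb hab
    rw [Finset.mem_coe, Finset.mem_filter] at ha hb
    have e : a.natAbs = b.natAbs := hab
    omega)
  rw [← Finset.sum_filter_add_sum_filter_not t (fun m => 0 ≤ m)]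
  have e : 2 / (1 - r) = 1 / (1 - r) + 1 / (1 - r) := by ring
  rw [e]
  exact add_le_add h1 h2

/-- sum over functions supported in `W` -/
private lemma nu3b_sum_prod {V : Type*} [DecidableEq V] (E : Finset (V → ℤ)) (W : Finset V)
    (h0 : ∀ g ∈ E, ∀ v, v ∉ W → g v = 0) (h : V → ℤ → ℝ) (hh : ∀ v m, 0 ≤ h v m)
    (B : V → ℝ) (hB : ∀ v, ∀ t : Finset ℤ, ∑ m ∈ t, h v m ≤ B v) :
    ∑ g ∈ E, ∏ v ∈ W, h v (g v) ≤ ∏ v ∈ W, B v := by
  classical
  set t : V → Finset ℤ := fun v => E.image fun g => g v with ht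
  have h2 : ∑ g ∈ E, ∏ v ∈ W, h v (g v) ≤ ∏ v ∈ W, ∑ m ∈ t v, h v m := by
    rw [Finset.prod_sum]
    set i : (V → ℤ) → (∀ v ∈ W, ℤ) := fun κ v _ => κ v with hi
    have hinj : Set.InjOn i E := by
      intro κ hκ κ' hκ' h
      ext v
      by_cases hv : v ∈ W
      · exact congrFun (congrFun h v) hv
      · rw [h0 κ hκ v hv, h0 κ' hκ' v hv]
    have e1 : ∑ κ ∈ E, ∏ v ∈ W, h v (κ v) =
        ∑ p ∈ E.image i, ∏ x ∈ W.attach, h x.1 (p x.1 x.2) := by
      rw [Finset.sum_image hinj]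
      apply Finset.sum_congr rfl
      intro κ _
      rw [← Finset.prod_attach W (fun v => h v (κ v))]
    rw [e1]
    apply Finset.sum_le_sum_of_subset_of_nonneg
    · intro p hp
      rw [Finset.mem_image] at hp
      obtain ⟨κ, hκ, rfl⟩ := hp
      rw [Finset.mem_pi]
      intro v hv
      exact Finset.mem_image_of_mem _ hκ
    · intro p _ _
      exact Finset.prod_nonneg (fun x _ => hh _ _)
  refine h2.trans ?_
  exact Finset.prod_le_prod (fun v _ => Finset.sum_nonneg fun m _ => hh v m) fun v _ => hB v _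

variable {K : Type*} [Field K] [NumberField K]

private lemma nu3b_fin_prod (z : K) :
    ∏ᶠ w : FinitePlace K, max (w z) 1 = ∏ᶠ v : HeightOneSpectrum (𝓞 K), max (fa v z) 1 := by
  rw [← finprod_comp_equiv (FinitePlace.equivHeightOneSpectrum (K := K)).symm]
  rfl

private lemma nu3b_supp {z : K} (hz : z ≠ 0) :
    (Function.mulSupport fun v : HeightOneSpectrum (𝓞 K) => max (fa v z) 1).Finite := by
  refine (Pool.Agent.Lib.MP_4d5ce1_nt.finite_fa_ne_one hz).subset ?_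
  intro v hv h
  apply hv
  change max (fa v z) 1 = 1
  rw [h, max_self]

private lemma nu3b_one_le_inf (z : K) :
    (1 : ℝ) ≤ ∏ w : InfinitePlace K, max (w z) 1 ^ w.mult :=
  nu3b_one_le_prod _ _ fun _ _ => one_le_pow₀ (le_max_right _ _)

private lemma nu3b_fin_le {z : K} (hz : z ≠ 0) (W : Finset (HeightOneSpectrum (𝓞 K))) :
    ∏ v ∈ W, max (fa v z) 1 ≤ ∏ᶠ v : HeightOneSpectrum (𝓞 K), max (fa v z) 1 := by
  classical
  rw [finprod_eq_prod_of_mulSupport_subset (s := (nu3b_supp hz).toFinset ∪ W) _ (by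
      intro v hv
      rw [Finset.coe_union, Set.mem_union]
      left
      exact (nu3b_supp hz).mem_toFinset.2 hv)]
  rw [← Finset.prod_sdiff (Finset.subset_union_right (s₁ := (nu3b_supp hz).toFinset) (s₂ := W))]
  have h7 : (1 : ℝ) ≤ ∏ v ∈ ((nu3b_supp hz).toFinset ∪ W) \ W, max (fa v z) 1 :=
    nu3b_one_le_prod _ _ (fun v _ => le_max_right _ _)
  have h8 : (0 : ℝ) ≤ ∏ v ∈ W, max (fa v z) 1 :=
    Finset.prod_nonneg (fun v _ => le_trans zero_le_one (le_max_right _ _))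
  calc ∏ v ∈ W, max (fa v z) 1 = 1 * ∏ v ∈ W, max (fa v z) 1 := (one_mul _).symm
    _ ≤ _ := mul_le_mul_of_nonneg_right h7 h8

private lemma nu3b_prod_le_height {z : K} (hz : z ≠ 0) (W : Finset (HeightOneSpectrum (𝓞 K))) :
    ∏ v ∈ W, max (fa v z) 1 ≤ mulHeight₁ z := by
  rw [NumberField.mulHeight₁_eq, nu3b_fin_prod]
  calc ∏ v ∈ W, max (fa v z) 1 ≤ 1 * ∏ᶠ v : HeightOneSpectrum (𝓞 K), max (fa v z) 1 := by
        rw [one_mul]; exact nu3b_fin_le hz W
    _ ≤ _ := mul_le_mul_of_nonneg_right (nu3b_one_le_inf z)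
        (finprod_nonneg fun v => le_trans zero_le_one (le_max_right _ _))

private lemma nu3b_inf_le_height {z : K} (hz : z ≠ 0) (w : InfinitePlace K) :
    w z ≤ mulHeight₁ z := by
  rw [NumberField.mulHeight₁_eq, nu3b_fin_prod]
  have h1 : w z ≤ ∏ w : InfinitePlace K, max (w z) 1 ^ w.mult := by
    calc w z ≤ max (w z) 1 := le_max_left _ _
      _ ≤ max (w z) 1 ^ w.mult := le_self_pow₀ (le_max_right _ _) (InfinitePlace.mult_ne_zero)
      _ ≤ ∏ w : InfinitePlace K, max (w z) 1 ^ w.mult := by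
          classical
          rw [← Finset.mul_prod_erase Finset.univ (fun w : InfinitePlace K =>
            max (w z) 1 ^ w.mult) (Finset.mem_univ w)]
          refine le_mul_of_one_le_right (pow_nonneg (le_trans zero_le_one (le_max_right _ _)) _) ?_
          exact nu3b_one_le_prod _ _ fun i _ => one_le_pow₀ (le_max_right _ _)
  have h2 : (1 : ℝ) ≤ ∏ᶠ v : HeightOneSpectrum (𝓞 K), max (fa v z) 1 := by
    have := nu3b_fin_le hz (∅ : Finset (HeightOneSpectrum (𝓞 K)))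
    simpa using this
  calc w z ≤ ∏ w : InfinitePlace K, max (w z) 1 ^ w.mult := h1
    _ = (∏ w : InfinitePlace K, max (w z) 1 ^ w.mult) * 1 := (mul_one _).symm
    _ ≤ _ := mul_le_mul_of_nonneg_left h2 (le_trans zero_le_one (nu3b_one_le_inf z))

private lemma nu3b_ord_prod {y : K} (hy : y ≠ 0) {T : ℝ} (hT : mulHeight₁ y ≤ T)
    (W : Finset (HeightOneSpectrum (𝓞 K))) :
    ∏ v ∈ W, nv v ^ (ordv v y).natAbs ≤ T ^ 2 := by
  have h1 := (nu3b_prod_le_height hy W).trans hT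
  have h2 := nu3b_prod_le_height (inv_ne_zero hy) W
  rw [mulHeight₁_inv] at h2
  have h2' := h2.trans hT
  have e : ∏ v ∈ W, nv v ^ (ordv v y).natAbs =
      (∏ v ∈ W, max (fa v y) 1) * ∏ v ∈ W, max (fa v y⁻¹) 1 := by
    rw [← Finset.prod_mul_distrib]
    refine Finset.prod_congr rfl fun v _ => ?_
    have hv0 := Pool.Agent.Lib.MP_4d5ce1_nt.nv_pos v
    have hv1 := Pool.Agent.Lib.MP_4d5ce1_nt.one_lt_nv v
    rw [Pool.Agent.Lib.MP_4d5ce1_nt.fa_eq v hy, Pool.Agent.Lib.MP_4d5ce1_nt.fa_eq v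
      (inv_ne_zero hy), Pool.Agent.Lib.MP_4d5ce1_nt.ordv_inv, neg_neg]
    rcases le_total 0 (ordv v y) with h | h
    · rw [max_eq_right (zpow_le_one_of_nonpos₀ hv1.le (by omega)), one_mul,
        max_eq_left (one_le_zpow₀ hv1.le h), ← zpow_natCast, Int.natAbs_of_nonneg h]
    · rw [max_eq_left (one_le_zpow₀ hv1.le (by omega)),
        max_eq_right (zpow_le_one_of_nonpos₀ hv1.le h), mul_one, ← zpow_natCast,
        ← Int.natAbs_neg, Int.natAbs_of_nonneg (by omega)]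
  rw [e, pow_two]
  have h3 : (0 : ℝ) ≤ ∏ v ∈ W, max (fa v y⁻¹) 1 :=
    Finset.prod_nonneg (fun v _ => le_trans zero_le_one (le_max_right _ _))
  have h4 : (0 : ℝ) ≤ ∏ v ∈ W, max (fa v y) 1 :=
    Finset.prod_nonneg (fun v _ => le_trans zero_le_one (le_max_right _ _))
  exact mul_le_mul h1 h2' h3 (h4.trans h1)

/-- the number of possible vectors of orders -/
private lemma nu3b_card_ord (d s : ℕ) (η : ℝ) (hη : 0 < η) :
    ∃ C : ℝ, 0 < C ∧ ∀ (K : Type u) [Field K] [NumberField K], Module.finrank ℚ K ≤ d →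
      ∀ S : Finset (HeightOneSpectrum (𝓞 K)), S.card ≤ s →
      ∀ T : ℝ, 1 ≤ T → ∀ V : Finset (HeightOneSpectrum (𝓞 K)), NN V ≤ T →
      ∀ E : Finset (HeightOneSpectrum (𝓞 K) → ℤ),
      (∀ g ∈ E, (∀ v, v ∉ S → v ∉ V → g v = 0) ∧
        ∀ W : Finset (HeightOneSpectrum (𝓞 K)), ∏ v ∈ W, nv v ^ (g v).natAbs ≤ T ^ 2) →
        (E.card : ℝ) ≤ C * T ^ η := by
  classical
  set δ : ℝ := η / 4 with hδ
  have hδ0 : 0 < δ := by positivity
  set r : ℝ := (2 : ℝ) ^ (-δ) with hr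
  have hr1 : r < 1 := Real.rpow_lt_one_of_one_lt_of_neg (by norm_num) (by linarith)
  have hr0 : 0 < r := by positivity
  set B : ℝ := 2 / (1 - r) with hB
  have hB2 : 2 ≤ B := by
    rw [hB, le_div_iff₀ (by linarith)]
    linarith
  set β : ℝ := Real.logb 2 B with hβ
  have hβ1 : 1 ≤ β := by
    rw [hβ, Real.le_logb_iff_rpow_le (by norm_num) (by linarith)]
    simpa using hB2
  obtain ⟨C1, hC1, h2pow⟩ := nu3b_two_pow.{u} d (η / (2 * β)) (by positivity)
  refine ⟨B ^ s * C1 ^ β, by positivity, ?_⟩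
  intro K _ _ hd S hS T hT V hV E hE
  have hT0 : 0 < T := by linarith
  set W := S ∪ V with hW
  set h : HeightOneSpectrum (𝓞 K) → ℤ → ℝ := fun v m => (nv v ^ (-δ)) ^ m.natAbs with hh
  have hnn : ∀ v m, 0 ≤ h v m := by
    intro v m
    have := Pool.Agent.Lib.MP_4d5ce1_nt.nv_pos v
    simp only [hh]
    positivity
  have hb : ∀ v, ∀ t : Finset ℤ, ∑ m ∈ t, h v m ≤ B := by
    intro v t
    have hv := Pool.Agent.Lib.MP_4d5ce1_nt.nv_pos v
    have hle : nv v ^ (-δ) ≤ r :=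
      Real.rpow_le_rpow_of_nonpos (by norm_num) (Pool.Agent.Lib.MP_4d5ce1_nt.two_le_nv v)
        (by linarith)
    have hpos : 0 < nv v ^ (-δ) := Real.rpow_pos_of_pos hv _
    refine (nu3b_geom _ hpos.le (lt_of_le_of_lt hle hr1) t).trans ?_
    rw [hB]
    exact div_le_div_of_nonneg_left (by norm_num) (by linarith) (by linarith)
  have h1 := nu3b_sum_prod E W (fun g hg v hv => by
    rw [hW, Finset.mem_union, not_or] at hv
    exact (hE g hg).1 v hv.1 hv.2) h hnn (fun _ => B) hb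
  rw [Finset.prod_const] at h1
  have h2 : ∀ g ∈ E, (1 : ℝ) ≤ T ^ (2 * δ) * ∏ v ∈ W, h v (g v) := by
    intro g hg
    have h3 := (hE g hg).2 W
    have hpos : 0 < ∏ v ∈ W, nv v ^ (g v).natAbs := Finset.prod_pos fun v _ => by
      have := Pool.Agent.Lib.MP_4d5ce1_nt.nv_pos v
      positivity
    have e : ∏ v ∈ W, h v (g v) = (∏ v ∈ W, nv v ^ (g v).natAbs) ^ (-δ) := by
      rw [← Real.finsetProd_rpow _ _ fun v _ => by
        have := Pool.Agent.Lib.MP_4d5ce1_nt.nv_pos v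
        positivity]
      refine Finset.prod_congr rfl fun v _ => ?_
      have hv := Pool.Agent.Lib.MP_4d5ce1_nt.nv_pos v
      simp only [hh]
      rw [← Real.rpow_natCast, ← Real.rpow_mul hv.le, ← Real.rpow_natCast, ← Real.rpow_mul hv.le,
        mul_comm]
    rw [e, Real.rpow_neg hpos.le, ← div_eq_mul_inv, one_le_div (Real.rpow_pos_of_pos hpos _)]
    calc (∏ v ∈ W, nv v ^ (g v).natAbs) ^ δ ≤ (T ^ 2) ^ δ :=
          Real.rpow_le_rpow hpos.le h3 hδ0.le
      _ = T ^ (2 * δ) := by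
          rw [← Real.rpow_natCast, ← Real.rpow_mul hT0.le]
          norm_num
  have h3 : (E.card : ℝ) ≤ T ^ (2 * δ) * B ^ W.card := by
    calc (E.card : ℝ) = ∑ _g ∈ E, (1 : ℝ) := by simp
      _ ≤ ∑ g ∈ E, T ^ (2 * δ) * ∏ v ∈ W, h v (g v) := Finset.sum_le_sum h2
      _ = T ^ (2 * δ) * ∑ g ∈ E, ∏ v ∈ W, h v (g v) := by rw [Finset.mul_sum]
      _ ≤ T ^ (2 * δ) * B ^ W.card :=
          mul_le_mul_of_nonneg_left h1 (Real.rpow_nonneg hT0.le _)
  have hNN : 0 < NN V := Finset.prod_pos fun v _ => Pool.Agent.Lib.MP_4d5ce1_nt.nv_pos v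
  have h4 : B ^ V.card ≤ C1 ^ β * T ^ (η / 2) := by
    have e : B = (2 : ℝ) ^ β := by
      rw [hβ, Real.rpow_logb (by norm_num) (by norm_num) (by linarith)]
    have e2 : B ^ V.card = ((2 : ℝ) ^ V.card) ^ β := by
      rw [e, ← Real.rpow_natCast, ← Real.rpow_mul (by norm_num), ← Real.rpow_natCast,
        ← Real.rpow_mul (by norm_num), mul_comm]
    rw [e2]
    calc ((2 : ℝ) ^ V.card) ^ β ≤ (C1 * NN V ^ (η / (2 * β))) ^ β :=
          Real.rpow_le_rpow (by positivity) (h2pow K hd V) (by linarith)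
      _ = C1 ^ β * NN V ^ (η / 2) := by
          rw [Real.mul_rpow hC1.le (Real.rpow_nonneg hNN.le _), ← Real.rpow_mul hNN.le]
          congr 2
          field_simp
      _ ≤ C1 ^ β * T ^ (η / 2) := by
          have := Real.rpow_le_rpow hNN.le hV (show (0 : ℝ) ≤ η / 2 by positivity)
          have h5 : 0 ≤ C1 ^ β := Real.rpow_nonneg hC1.le _
          exact mul_le_mul_of_nonneg_left this h5
  have h5 : B ^ W.card ≤ B ^ s * B ^ V.card := by
    rw [← pow_add]
    exact pow_le_pow_right₀ (by linarith)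
      ((Finset.card_union_le S V).trans (Nat.add_le_add_right hS _))
  calc (E.card : ℝ) ≤ T ^ (2 * δ) * B ^ W.card := h3
    _ ≤ T ^ (2 * δ) * (B ^ s * (C1 ^ β * T ^ (η / 2))) := by
        have h6 : 0 ≤ T ^ (2 * δ) := Real.rpow_nonneg hT0.le _
        have h7 : 0 ≤ B ^ s := by positivity
        exact mul_le_mul_of_nonneg_left (h5.trans (mul_le_mul_of_nonneg_left h4 h7)) h6
    _ = B ^ s * C1 ^ β * (T ^ (2 * δ) * T ^ (η / 2)) := by ring
    _ = B ^ s * C1 ^ β * T ^ η := by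
        rw [← Real.rpow_add hT0]
        congr 2
        rw [hδ]
        ring

private lemma nu3b_card_inf (K : Type*) [Field K] [NumberField K] :
    Fintype.card (InfinitePlace K) ≤ Module.finrank ℚ K := by
  rw [← InfinitePlace.card_add_two_mul_card_eq_rank K,
    InfinitePlace.card_eq_nrRealPlaces_add_nrComplexPlaces K]
  omega

/-- NU3b -/
theorem card_elements_u (d s : ℕ) (η : ℝ) (hη : 0 < η) : ∃ C : ℝ, 0 < C ∧
    ∀ (E : Type u) [Field E] [NumberField E], Module.finrank ℚ E ≤ d →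
      ∀ S : Finset (HeightOneSpectrum (𝓞 E)), S.card ≤ s →
      ∀ T : ℝ, 1 ≤ T → ∀ V : Finset (HeightOneSpectrum (𝓞 E)), NN V ≤ T →
      ∀ F : Finset E, (∀ y ∈ F, y ≠ 0 ∧ mulHeight₁ y ≤ T ∧ ∀ v, v ∉ S → v ∉ V → fa v y = 1) →
        (F.card : ℝ) ≤ C * T ^ η := by
  classical
  obtain ⟨C1, hC1, hord⟩ := nu3b_card_ord.{u} d s (η / 2) (by positivity)
  obtain ⟨N, hN⟩ := card_small_u.{u} d (Real.exp 1)
  set ε : ℝ := η / (2 * (d + 1)) with hε
  have hε0 : 0 < ε := by positivity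
  refine ⟨(N + 1) * (C1 * (2 / ε + 3) ^ d), by positivity, ?_⟩
  intro K _ _ hd S hS T hT V hV F hF
  set ρ : ℕ := Fintype.card (InfinitePlace K) with hρ
  have hρd : ρ ≤ d := (nu3b_card_inf K).trans hd
  have hT0 : 0 < T := by linarith
  set f1 : K → HeightOneSpectrum (𝓞 K) → ℤ := fun y v => ordv v y with hf1
  set f2 : K → InfinitePlace K → ℤ := fun y w => ⌊Real.log (w y)⌋ with hf2
  set f : K → (HeightOneSpectrum (𝓞 K) → ℤ) × (InfinitePlace K → ℤ) := fun y => (f1 y, f2 y)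
    with hf
  -- fibres
  have hfib : ∀ b ∈ F.image f, (F.filter fun a => f a = b).card ≤ N := by
    intro b hb
    rw [Finset.mem_image] at hb
    obtain ⟨y0, hy0, rfl⟩ := hb
    have hy00 := (hF y0 hy0).1
    have hinj : Function.Injective fun y : K => y / y0 := by
      intro a b hab
      have := congrArg (fun t => t * y0) hab
      simpa [div_mul_cancel₀ _ hy00] using this
    rw [← Finset.card_image_of_injective _ hinj]
    refine hN K hd _ ?_
    intro z hz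
    rw [Finset.mem_image] at hz
    obtain ⟨y, hy, rfl⟩ := hz
    rw [Finset.mem_filter] at hy
    obtain ⟨hyF, hyf⟩ := hy
    have hy1 := (hF y hyF).1
    have e1 : f1 y = f1 y0 := congrArg Prod.fst hyf
    have e2 : f2 y = f2 y0 := congrArg Prod.snd hyf
    have hu : y / y0 ≠ 0 := div_ne_zero hy1 hy00
    refine ⟨fun v => ?_, fun w => ?_⟩
    · have h2 : ordv v (y / y0) = 0 := by
        rw [Pool.Agent.Lib.MP_4d5ce1_nt.ordv_div v hy1 hy00]
        have := congrFun e1 v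
        simp only [hf1] at this
        omega
      exact ((Pool.Agent.Lib.MP_4d5ce1_nt.fa_eq_one_iff v hu).2 h2).le
    · have hw1 : 0 < w y := InfinitePlace.pos_iff.mpr hy1
      have hw0 : 0 < w y0 := InfinitePlace.pos_iff.mpr hy00
      have hwu : 0 < w (y / y0) := InfinitePlace.pos_iff.mpr hu
      rw [← Real.log_le_iff_le_exp hwu, map_div₀, Real.log_div hw1.ne' hw0.ne']
      have h3 := congrFun e2 w
      simp only [hf2] at h3
      have h4 := Int.floor_le (Real.log (w y0))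
      have h5 := Int.lt_floor_add_one (Real.log (w y))
      rw [h3] at h5
      linarith
  have hcard := Finset.card_le_mul_card_image F N hfib
  -- images
  have him : F.image f ⊆ (F.image f1) ×ˢ (Fintype.piFinset fun _ : InfinitePlace K =>
      Finset.Icc ⌊-Real.log T⌋ ⌊Real.log T⌋) := by
    intro b hb
    rw [Finset.mem_image] at hb
    obtain ⟨y, hy, rfl⟩ := hb
    rw [Finset.mem_product]
    refine ⟨Finset.mem_image_of_mem _ hy, ?_⟩
    rw [Fintype.mem_piFinset]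
    intro w
    have hy0 := (hF y hy).1
    have hyT := (hF y hy).2.1
    have hw0 : 0 < w y := InfinitePlace.pos_iff.mpr hy0
    have h1 : w y ≤ T := (nu3b_inf_le_height hy0 w).trans hyT
    have h2 : w y⁻¹ ≤ T := by
      refine (nu3b_inf_le_height (inv_ne_zero hy0) w).trans ?_
      rw [mulHeight₁_inv]
      exact hyT
    rw [Finset.mem_Icc]
    constructor
    · refine Int.floor_le_floor ?_
      have h3 := Real.log_le_log (InfinitePlace.pos_iff.mpr (inv_ne_zero hy0)) h2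
      rw [map_inv₀, Real.log_inv] at h3
      linarith
    · exact Int.floor_le_floor (Real.log_le_log hw0 h1)
  have hcard2 := Finset.card_le_card him
  rw [Finset.card_product, Fintype.card_piFinset, Finset.prod_const, Finset.card_univ, ← hρ]
    at hcard2
  have hE := hord K hd S hS T hT V hV (F.image f1) (by
    intro g hg
    rw [Finset.mem_image] at hg
    obtain ⟨y, hy, rfl⟩ := hg
    have hy0 := (hF y hy).1
    refine ⟨fun v hv1 hv2 => ?_, fun W => nu3b_ord_prod hy0 (hF y hy).2.1 W⟩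
    exact (Pool.Agent.Lib.MP_4d5ce1_nt.fa_eq_one_iff v hy0).1 ((hF y hy).2.2 v hv1 hv2))
  have hlog0 : 0 ≤ Real.log T := Real.log_nonneg hT
  have hI : ((Finset.Icc ⌊-Real.log T⌋ ⌊Real.log T⌋).card : ℝ) ≤ (2 / ε + 3) * T ^ ε := by
    have h1 : ⌊-Real.log T⌋ ≤ ⌊Real.log T⌋ + 1 := by
      have : ⌊-Real.log T⌋ ≤ ⌊Real.log T⌋ := Int.floor_le_floor (by linarith)
      omega
    have h2 : ((Finset.Icc ⌊-Real.log T⌋ ⌊Real.log T⌋).card : ℝ) =
        (⌊Real.log T⌋ : ℝ) + 1 - ⌊-Real.log T⌋ := by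
      have := Int.card_Icc_of_le _ _ h1
      have h3 : ((Finset.Icc ⌊-Real.log T⌋ ⌊Real.log T⌋).card : ℝ) =
          (((Finset.Icc ⌊-Real.log T⌋ ⌊Real.log T⌋).card : ℤ) : ℝ) := by push_cast; rfl
      rw [h3, this]
      push_cast
      ring
    rw [h2]
    have h3 := Int.floor_le (Real.log T)
    have h4 := Int.lt_floor_add_one (-Real.log T)
    have h5 := Real.log_le_rpow_div hT0.le hε0
    have h6 : 1 ≤ T ^ ε := Real.one_le_rpow hT hε0.le
    have h7 : (2 / ε + 3) * T ^ ε = 2 * (T ^ ε / ε) + 3 * T ^ ε := by ring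
    rw [h7]
    linarith
  have hTε1 : 1 ≤ T ^ ε := Real.one_le_rpow hT hε0.le
  have hTε : (T ^ ε) ^ d ≤ T ^ (η / 2) := by
    rw [← Real.rpow_natCast, ← Real.rpow_mul hT0.le]
    refine Real.rpow_le_rpow_of_exponent_le hT ?_
    rw [hε]
    have h1 : η / (2 * ((d : ℝ) + 1)) * d = η / 2 * (d / (d + 1)) := by
      field_simp
    rw [h1]
    have h2 : (d : ℝ) / (d + 1) ≤ 1 := by
      rw [div_le_one (by positivity)]
      linarith
    have h3 : 0 < η / 2 := by positivity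
    nlinarith
  have hI0 : (0 : ℝ) ≤ 2 / ε + 3 := by positivity
  have hI1 : 1 ≤ (2 / ε + 3) * T ^ ε := by
    have h1 : 0 < 2 / ε := by positivity
    nlinarith
  have hcardR : (F.card : ℝ) ≤ N * ((F.image f).card : ℝ) := by exact_mod_cast hcard
  have hcard2R : ((F.image f).card : ℝ) ≤ ((F.image f1).card : ℝ) *
      ((Finset.Icc ⌊-Real.log T⌋ ⌊Real.log T⌋).card : ℝ) ^ ρ := by exact_mod_cast hcard2
  have hstep : ((F.image f1).card : ℝ) *
      ((Finset.Icc ⌊-Real.log T⌋ ⌊Real.log T⌋).card : ℝ) ^ ρ ≤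
      (C1 * T ^ (η / 2)) * ((2 / ε + 3) ^ d * T ^ (η / 2)) := by
    refine mul_le_mul hE ?_ (by positivity) (by positivity)
    calc ((Finset.Icc ⌊-Real.log T⌋ ⌊Real.log T⌋).card : ℝ) ^ ρ
        ≤ ((2 / ε + 3) * T ^ ε) ^ ρ := pow_le_pow_left₀ (by positivity) hI _
      _ ≤ ((2 / ε + 3) * T ^ ε) ^ d := pow_le_pow_right₀ hI1 hρd
      _ = (2 / ε + 3) ^ d * (T ^ ε) ^ d := mul_pow _ _ _
      _ ≤ (2 / ε + 3) ^ d * T ^ (η / 2) := mul_le_mul_of_nonneg_left hTε (by positivity)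
  have hfinal : (C1 * T ^ (η / 2)) * ((2 / ε + 3) ^ d * T ^ (η / 2)) =
      C1 * (2 / ε + 3) ^ d * T ^ η := by
    have : T ^ η = T ^ (η / 2) * T ^ (η / 2) := by
      rw [← Real.rpow_add hT0]
      congr 1
      ring
    rw [this]
    ring
  have hX : 0 ≤ C1 * (2 / ε + 3) ^ d * T ^ η := by positivity
  calc (F.card : ℝ) ≤ N * ((F.image f).card : ℝ) := hcardR
    _ ≤ N * (C1 * (2 / ε + 3) ^ d * T ^ η) := by
        refine mul_le_mul_of_nonneg_left ?_ (by positivity)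
        exact hcard2R.trans (hstep.trans hfinal.le)
    _ ≤ (N + 1) * (C1 * (2 / ε + 3) ^ d * T ^ η) := by
        refine mul_le_mul_of_nonneg_right ?_ hX
        linarith
    _ = (N + 1) * (C1 * (2 / ε + 3) ^ d) * T ^ η := by ring

end Pool.Agent.Lib.MP_44a246_ntNU
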