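import Pool.Agent.Lib.MP_44a246_ntNF.Tools
import Pool.Agent.Lib.MP_44a246_ntNF.NF9
import Pool.Agent.Lib.MP_44a246_ntNF.Count
import Pool.Agent.Lib.MP_44a246_ntNU.Defs
import Pool.Agent.Lib.MP_44a246_ntNU.NU3b

/-!
# The decoding step, uniformly in the field

The proofs of `step` and `card_code` over a fixed field only use the field through the constant of
`card_elements` and through the constant in the height bounds for quotients of the forms; with the
uniform version of the former they give uniform versions.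
-/

set_option autoImplicit false

open NumberField IsDedekindDomain Height
open Pool.Agent.Lib.MP_4d5ce1_nt (fa nv ordv)
open Pool.Agent.Lib.MP_44a246_ntNF

namespace Pool.Agent.Lib.MP_44a246_ntNU

universe u

open Dec in
/-- NU4 -/
theorem step_u (d s n q : ℕ) (η : ℝ) (hη : 0 < η) : ∃ C : ℝ, 0 < C ∧
    ∀ (E : Type u) [Field E] [NumberField E], Module.finrank ℚ E ≤ d →
      ∀ (L : Fin q → Fin (n + 1) → E) (cc : Finset (Fin q) → Fin q → E)
        (S : Finset (HeightOneSpectrum (𝓞 E))), S.card ≤ s → IsRel L cc → Good L cc S →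
      ∀ CE : ℝ, 1 ≤ CE → (∀ i j : Fin q, ∀ x : Fin (n + 1) → E,
        mulHeight₁ (lin (L i) x / lin (L j) x) ≤ CE * mulHeight x) →
      (∀ A C : Finset (Fin q), ∀ j : Fin q, ∀ x : Fin (n + 1) → E,
        mulHeight₁ (lin (Dec.fm L cc A C) x / lin (L j) x) ≤ CE * mulHeight x) →
      ∀ T : ℝ, 1 ≤ T → ∀ J : Fin (n + 1) → Fin q, Function.Injective J →
      ∀ G : Finset (Fin (n + 1) → E),
      (∀ x ∈ G, (∀ j, lin (L j) x ≠ 0) ∧ ¬ VanishingSubsum L x ∧ mulHeight x ≤ T ∧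
        ∀ I, I.Nonempty → NN (RR L S x I) ≤ T) →
      (∀ x ∈ G, ∀ y ∈ G, ∀ I, Charged J I → RR L S x I = RR L S y I) →
      ∀ k : Fin (n + 1), (∀ x ∈ G, ∀ y ∈ G, ∀ i < k,
        lin (L (J i)) x / lin (L (J 0)) x = lin (L (J i)) y / lin (L (J 0)) y) →
      ∀ F : Finset E, (∀ y ∈ F, ∃ x ∈ G, lin (L (J k)) x / lin (L (J 0)) x = y) →
        (F.card : ℝ) ≤ C * (CE * T) ^ η := by
  classical
  have hq2 : (0 : ℝ) < (2 : ℝ) ^ q := by positivity
  obtain ⟨C3, hC3, h3⟩ := card_elements_u.{u} d s (η / 2 ^ q) (by positivity)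
  refine ⟨C3, hC3, ?_⟩
  intro E _ _ hd L cc S hSs hcc hS CE hCE1 g1 g2 T hT J hJ G hG hch k hk F hF
  have hCT : 1 ≤ CE * T := by nlinarith
  rcases F.eq_empty_or_nonempty with hFe | ⟨y₀, hy₀⟩
  · rw [hFe]
    simp only [Finset.card_empty, Nat.cast_zero]
    have : 0 ≤ CE * T := by linarith
    positivity
  obtain ⟨x₀, hx₀, -⟩ := hF y₀ hy₀
  have hex : ∀ I : Finset (Fin q), (J 0 ∈ I ∨ J k ∈ I) →
      ∃ W : Finset (HeightOneSpectrum (𝓞 E)), NN W ≤ CE * T ∧ ∀ x ∈ G, RR L S x I ⊆ W :=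
    fun I hI => exists_W hcc hS CE hCE1 g1 g2 T hT J hJ G x₀ hx₀ hG hch k hk I hI
  have hex' : ∀ I : Finset (Fin q), ∃ W : Finset (HeightOneSpectrum (𝓞 E)), NN W ≤ CE * T ∧
      ((J 0 ∈ I ∨ J k ∈ I) → ∀ x ∈ G, RR L S x I ⊆ W) := by
    intro I
    by_cases hI : J 0 ∈ I ∨ J k ∈ I
    · obtain ⟨W, a, b⟩ := hex I hI
      exact ⟨W, a, fun _ => b⟩
    · exact ⟨∅, by simpa [NN] using hCT, fun h => (hI h).elim⟩
  choose W hW hW' using hex'
  have hcard : (Finset.univ : Finset (Finset (Fin q))).card = 2 ^ q := by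
    simp
  have hNN := NN_biUnion_le (Finset.univ : Finset (Finset (Fin q))) W (CE * T)
    (fun I _ => hW I)
  rw [hcard] at hNN
  have hpow : CE * T ≤ (CE * T) ^ (2 ^ q) := le_self_pow₀ hCT (by positivity)
  have key := h3 E hd S hSs ((CE * T) ^ (2 ^ q)) (one_le_pow₀ hCT) _ hNN F ?_
  · refine key.trans (le_of_eq ?_)
    rw [← Real.rpow_natCast (CE * T) (2 ^ q), ← Real.rpow_mul (by linarith)]
    congr 2
    push_cast
    field_simp
  · intro y hy
    obtain ⟨x, hx, rfl⟩ := hF y hy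
    have hx0 := hG x hx
    refine ⟨div_ne_zero (hx0.1 _) (hx0.1 _), ?_, ?_⟩
    · refine (g1 _ _ _).trans (le_trans ?_ hpow)
      exact mul_le_mul_of_nonneg_left hx0.2.2.1 (by linarith)
    · intro v hvS hvW
      by_contra hne
      apply hvW
      rw [Finset.mem_biUnion]
      have hor : J 0 ∈ IS L x v ∨ J k ∈ IS L x v := by
        by_contra hno
        push Not at hno
        apply hne
        rw [Pool.Agent.Lib.MP_4d5ce1_nt.fa_div, fa_eq_sz hS hvS hno.1, fa_eq_sz hS hvS hno.2]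
        apply div_self
        rw [← fa_eq_sz hS hvS hno.1]
        exact (Pool.Agent.Lib.MP_4d5ce1_nt.fa_pos v (hx0.1 _)).ne'
      have hne' : (IS L x v).Nonempty := by
        rcases hor with h | h
        · exact ⟨_, h⟩
        · exact ⟨_, h⟩
      exact ⟨IS L x v, Finset.mem_univ _, hW' _ hor x hx (mem_RR_of hS hx0.1 hvS hne')⟩

/-- NU5 -/
theorem card_code_u (d s n q : ℕ) (η : ℝ) (hη : 0 < η) : ∃ C : ℝ, 0 < C ∧
    ∀ (E : Type u) [Field E] [NumberField E], Module.finrank ℚ E ≤ d →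
      ∀ (L : Fin q → Fin (n + 1) → E) (cc : Finset (Fin q) → Fin q → E)
        (S : Finset (HeightOneSpectrum (𝓞 E))), S.card ≤ s → IsRel L cc → Good L cc S →
      (∀ J : Fin (n + 1) → Fin q, Function.Injective J →
        LinearIndependent E (fun i => L (J i))) →
      ∀ CE : ℝ, 1 ≤ CE → (∀ i j : Fin q, ∀ x : Fin (n + 1) → E,
        mulHeight₁ (lin (L i) x / lin (L j) x) ≤ CE * mulHeight x) →
      (∀ A C : Finset (Fin q), ∀ j : Fin q, ∀ x : Fin (n + 1) → E,
        mulHeight₁ (lin (Dec.fm L cc A C) x / lin (L j) x) ≤ CE * mulHeight x) →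
      ∀ T : ℝ, 1 ≤ T → ∀ J : Fin (n + 1) → Fin q, Function.Injective J →
      ∀ F : Finset (Fin (n + 1) → E),
      (∀ x ∈ F, (∀ j, lin (L j) x ≠ 0) ∧ ¬ VanishingSubsum L x ∧ mulHeight x ≤ T ∧
        ∀ I, I.Nonempty → NN (RR L S x I) ≤ T) →
      (∀ x ∈ F, ∀ y ∈ F, ∀ I, Charged J I → RR L S x I = RR L S y I) →
      (∀ x ∈ F, ∀ y ∈ F, x ≠ y → ∀ t : E, x ≠ t • y) →
        (F.card : ℝ) ≤ C * (CE * T) ^ η := by
  classical
  have hn : (0 : ℝ) < (n : ℝ) + 1 := by positivity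
  obtain ⟨C, hC, h⟩ := step_u.{u} d s n q (η / (n + 1)) (by positivity)
  refine ⟨C ^ (n + 1), by positivity, ?_⟩
  intro E _ _ hd L cc S hSs hcc hS hL CE hCE1 g1 g2 T hT J hJ F hF hcode hprop
  have hCT : 0 < CE * T := by nlinarith
  have key := card_le_pow_tree (n + 1)
    (fun (x : Fin (n + 1) → E) (i : Fin (n + 1)) => lin (L (J i)) x / lin (L (J 0)) x)
    (C * (CE * T) ^ (η / (n + 1))) (by positivity) F ?_ ?_
  · refine key.trans (le_of_eq ?_)
    rw [mul_pow, ← Real.rpow_natCast ((CE * T) ^ (η / (n + 1))) (n + 1), ← Real.rpow_mul hCT.le]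
    congr 2
    push_cast
    field_simp
  · intro x hx y hy hxy
    by_contra hne
    have hx0 := (hF x hx).1
    have hy0 := (hF y hy).1
    set t : E := lin (L (J 0)) x / lin (L (J 0)) y with ht
    have ht0 : t ≠ 0 := div_ne_zero (hx0 _) (hy0 _)
    refine hprop x hx y hy hne t ?_
    rw [← sub_eq_zero]
    apply eq_zero_of_lin (hL J hJ)
    intro i
    rw [lin_sub, lin_smul, sub_eq_zero]
    have h1 := congrFun hxy i
    simp only at h1
    rw [div_eq_div_iff (hx0 _) (hy0 _)] at h1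
    rw [ht, div_mul_eq_mul_div, eq_div_iff (hy0 _)]
    rw [h1]
    ring
  · intro k G hG hGk
    refine h E hd L cc S hSs hcc hS CE hCE1 g1 g2 T hT J hJ G (fun x hx => hF x (hG hx))
      (fun x hx y hy I hI => hcode x (hG hx) y (hG hy) I hI) k hGk _ ?_
    intro y hy
    rw [Finset.mem_image] at hy
    exact hy

end Pool.Agent.Lib.MP_44a246_ntNU
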