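import Pool.Agent.Lib.MP_44a246_ntNF.Tools
import Pool.Agent.Lib.MP_44a246_ntNF.NF9
import Pool.Agent.Lib.MP_44a246_ntNU.Defs

/-!
# Heights of fixed vectors in extensions of bounded degree
-/

set_option autoImplicit false

open NumberField IsDedekindDomain Height
open Pool.Agent.Lib.MP_44a246_ntNF

namespace Pool.Agent.Lib.MP_44a246_ntNU

universe u

/-- The height of a vector with integral coordinates is at most the product of its archimedean
sizes. -/
private lemma mulHeight_le_of_integral {E : Type*} [Field E] [NumberField E] {ι : Type*} [Finite ι]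
    (y : ι → 𝓞 E) (A : ℝ) (hA : 1 ≤ A) (h : ∀ w : InfinitePlace E, ∀ i, w (y i : E) ≤ A) :
    mulHeight (fun i => (y i : E)) ≤ A ^ Module.finrank ℚ E := by
  by_cases hy : (fun i => (y i : E)) = 0
  · rw [hy, mulHeight_zero]
    exact one_le_pow₀ hA
  rw [NumberField.mulHeight_eq hy, ← totalWeight_eq_finrank, totalWeight_eq_sum_mult,
    ← Finset.prod_pow_eq_pow_sum]
  have h1 : ∏ v : InfinitePlace E, (⨆ i, v (y i : E)) ^ v.mult ≤
      ∏ v : InfinitePlace E, A ^ v.mult := by
    refine Finset.prod_le_prod (fun v _ => pow_nonneg (Real.iSup_nonneg fun i => apply_nonneg v _) _)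
      fun v _ => ?_
    exact pow_le_pow_left₀ (Real.iSup_nonneg fun i => apply_nonneg v _)
      (Real.iSup_le (fun i => h v i) (by linarith)) _
  have h2 : 0 ≤ ∏ᶠ v : FinitePlace E, ⨆ i, v (y i : E) ∧
      ∏ᶠ v : FinitePlace E, ⨆ i, v (y i : E) ≤ 1 := by
    refine finprod_induction (fun t : ℝ => 0 ≤ t ∧ t ≤ 1) ⟨zero_le_one, le_rfl⟩
      (fun a b ha hb => ⟨mul_nonneg ha.1 hb.1, mul_le_one₀ ha.2 hb.1 hb.2⟩) fun v => ?_
    refine ⟨Real.iSup_nonneg fun i => apply_nonneg v _, Real.iSup_le (fun i => ?_) zero_le_one⟩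
    rw [← FinitePlace.norm_embedding_eq]
    exact FinitePlace.norm_le_one (R := 𝓞 E) E v.maximalIdeal (y i)
  have h3 : 0 ≤ ∏ v : InfinitePlace E, A ^ v.mult :=
    Finset.prod_nonneg fun v _ => pow_nonneg (by linarith) _
  calc _ ≤ (∏ v : InfinitePlace E, A ^ v.mult) * 1 := mul_le_mul h1 h2.2 h2.1 h3
    _ = _ := mul_one _

private lemma finrank_le {K E : Type*} [Field K] [NumberField K] [Field E] [NumberField E]
    [Algebra K E] {r : ℕ} (h : Module.finrank K E ≤ r) :
    Module.finrank ℚ E ≤ Module.finrank ℚ K * r := by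
  rw [← Module.finrank_mul_finrank ℚ K E]
  exact Nat.mul_le_mul_left _ h

/-- NU7a -/
theorem mulHeight_up_le {K : Type u} [Field K] [NumberField K] {ι : Type} [Finite ι] (r : ℕ)
    (m : ι → K) : ∃ C : ℝ, 1 ≤ C ∧ ∀ (E : Type u) [Field E] [NumberField E] [Algebra K E],
      Module.finrank K E ≤ r → mulHeight (fun i => algebraMap K E (m i)) ≤ C := by
  obtain ⟨b, hb⟩ := IsLocalization.exist_integer_multiples_of_finite (nonZeroDivisors (𝓞 K)) m
  choose a ha using hb
  obtain ⟨A, hA⟩ := Finite.exists_le fun p : InfinitePlace K × ι => p.1 (a p.2 : K)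
  refine ⟨max A 1 ^ (Module.finrank ℚ K * r), one_le_pow₀ (le_max_right _ _), ?_⟩
  intro E _ _ _ hr
  have hb0 : ((b : 𝓞 K) : K) ≠ 0 := by
    simp
  have hbE : algebraMap K E ((b : 𝓞 K) : K) ≠ 0 := by
    rw [Ne, map_eq_zero]
    exact hb0
  have e : mulHeight (fun i => algebraMap K E (m i)) =
      mulHeight (fun i => ((algebraMap (𝓞 K) (𝓞 E) (a i) : 𝓞 E) : E)) := by
    rw [← mulHeight_smul_eq_mulHeight _ hbE]
    congr 1
    funext i
    have h1 : ((algebraMap (𝓞 K) (𝓞 E) (a i) : 𝓞 E) : E) = algebraMap K E (a i : K) := by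
      change algebraMap (𝓞 E) E (algebraMap (𝓞 K) (𝓞 E) (a i)) =
        algebraMap K E (algebraMap (𝓞 K) K (a i))
      rw [← IsScalarTower.algebraMap_apply (𝓞 K) (𝓞 E) E,
        ← IsScalarTower.algebraMap_apply (𝓞 K) K E]
    rw [h1]
    have h2 := ha i
    rw [Pi.smul_apply, smul_eq_mul, ← map_mul]
    congr 1
    rw [Algebra.smul_def] at h2
    exact h2.symm
  rw [e]
  refine (mulHeight_le_of_integral _ (max A 1) (le_max_right _ _) ?_).trans ?_
  · intro w i
    have h1 : ((algebraMap (𝓞 K) (𝓞 E) (a i) : 𝓞 E) : E) = algebraMap K E (a i : K) := by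
      change algebraMap (𝓞 E) E (algebraMap (𝓞 K) (𝓞 E) (a i)) =
        algebraMap K E (algebraMap (𝓞 K) K (a i))
      rw [← IsScalarTower.algebraMap_apply (𝓞 K) (𝓞 E) E,
        ← IsScalarTower.algebraMap_apply (𝓞 K) K E]
    rw [h1, ← InfinitePlace.comap_apply]
    exact (hA (w.comap (algebraMap K E), i)).trans (le_max_left _ _)
  · exact pow_le_pow_right₀ (le_max_right _ _) (finrank_le hr)

/-- NU7b -/
theorem height_div_le_u {K : Type u} [Field K] [NumberField K] {n : ℕ} {ι : Type} [Finite ι]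
    (r : ℕ) (a b : ι → Fin (n + 1) → K) : ∃ C : ℝ, 1 ≤ C ∧
      ∀ (E : Type u) [Field E] [NumberField E] [Algebra K E], Module.finrank K E ≤ r →
        ∀ (i : ι) (x : Fin (n + 1) → E),
          mulHeight₁ (lin (fun k => algebraMap K E (a i k)) x /
            lin (fun k => algebraMap K E (b i k)) x) ≤ C * mulHeight x := by
  choose C hC1 hC using fun i : ι => mulHeight_up_le r
    (fun p : Fin 2 × Fin (n + 1) => (![a i, b i] p.1) p.2)
  obtain ⟨M, hM⟩ := Finite.exists_le C
  refine ⟨(n + 1 : ℝ) ^ (Module.finrank ℚ K * r) * max M 1, ?_, ?_⟩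
  · have h1 : (1 : ℝ) ≤ (n + 1 : ℝ) ^ (Module.finrank ℚ K * r) :=
      one_le_pow₀ (by linarith [(Nat.cast_nonneg n : (0 : ℝ) ≤ n)])
    nlinarith [le_max_right M 1]
  intro E _ _ _ hr i x
  rw [mulHeight₁_div_eq_mulHeight]
  have h := mulHeight_linearMap_apply_le (K := E)
    (fun p : Fin 2 × Fin (n + 1) => algebraMap K E ((![a i, b i] p.1) p.2)) x
  have e : (fun j : Fin 2 => ∑ k, (fun p : Fin 2 × Fin (n + 1) =>
      algebraMap K E ((![a i, b i] p.1) p.2)) (j, k) * x k) =
      ![lin (fun k => algebraMap K E (a i k)) x, lin (fun k => algebraMap K E (b i k)) x] := by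
    funext j
    fin_cases j <;> simp [lin]
  rw [e, totalWeight_eq_finrank] at h
  refine h.trans ?_
  have h0 : 0 ≤ mulHeight x := (zero_lt_one.trans_le (one_le_mulHeight x)).le
  refine mul_le_mul_of_nonneg_right ?_ h0
  have h2 := (hC i E hr).trans ((hM i).trans (le_max_left M 1))
  refine mul_le_mul ?_ h2 (zero_lt_one.trans_le (one_le_mulHeight _)).le
    (pow_nonneg (by linarith [(Nat.cast_nonneg n : (0 : ℝ) ≤ n)]) _)
  rw [Nat.card_eq_fintype_card, Fintype.card_fin]
  push_cast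
  exact pow_le_pow_right₀ (by linarith [(Nat.cast_nonneg n : (0 : ℝ) ≤ n)]) (finrank_le hr)

end Pool.Agent.Lib.MP_44a246_ntNU
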