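import Pool.Agent.Lib.MP_44a246_ntNF.NF6d
import Pool.Agent.Lib.MP_44a246_ntNU.NU6

set_option autoImplicit false

open NumberField IsDedekindDomain Height
open Pool.Agent.Lib.MP_4d5ce1_nt (fa nv ordv fa_nonneg fa_pos fa_eq finite_fa_ne_one fa_zero nv_pos
  one_lt_nv log_nv_pos two_le_nv product_formula fa_sum_le fa_mul fa_eq_zero_iff)
open Pool.Agent.Lib.MP_44a246_ntNF

namespace Pool.Agent.Lib.MP_44a246_ntNU

universe u

section

variable {K : Type*} [Field K] [NumberField K] {n q : ℕ}

/-- The constant of the form `L j`. -/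
noncomputable def cst (L : Fin q → Fin (n + 1) → K) (S : Finset (HeightOneSpectrum (𝓞 K)))
    (j : Fin q) : ℝ :=
  ∑ w : InfinitePlace K, (w.mult : ℝ) * Real.log ((∑ i, w (L j i)) + 1) +
    ∑ v ∈ S, Real.log (sz v (L j) + 1)

lemma per_form_e {L : Fin q → Fin (n + 1) → K} {cc : Finset (Fin q) → Fin q → K}
    {S : Finset (HeightOneSpectrum (𝓞 K))} (hS : Good L cc S) (j : Fin q)
    (x : Fin (n + 1) → K) (hl : lin (L j) x ≠ 0)
    (U : Finset (HeightOneSpectrum (𝓞 K))) (hU : ∀ v ∈ U, v ∉ S ∧ j ∈ IS L x v) :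
    ∑ v ∈ U, Real.log (nv v) ≤ logHeight x + cst L S j := by
  classical
  unfold cst
  have hx : x ≠ 0 := ne_zero_of_lin hl
  have hprod := product_formula hl
  rw [logHeight_eq' hx]
  have hinf : ∑ w : InfinitePlace K, (w.mult : ℝ) * Real.log (w (lin (L j) x)) ≤
      ∑ w : InfinitePlace K, ((w.mult : ℝ) * Real.log ((∑ i, w (L j i)) + 1) +
        (w.mult : ℝ) * Real.log (az w x)) := by
    refine Finset.sum_le_sum fun w _ => ?_
    rw [← mul_add]
    refine mul_le_mul_of_nonneg_left ?_ (Nat.cast_nonneg _)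
    have hs : 0 ≤ ∑ i, w (L j i) := Finset.sum_nonneg fun i _ => apply_nonneg w _
    rw [← Real.log_mul (by linarith) (az_pos w hx).ne']
    refine Real.log_le_log (InfinitePlace.pos_iff.mpr hl) ?_
    refine (inf_lin_le w (L j) x).trans ?_
    exact mul_le_mul_of_nonneg_right (by linarith) (az_pos w hx).le
  rw [Finset.sum_add_distrib] at hinf
  let Z : Finset (HeightOneSpectrum (𝓞 K)) :=
    (finite_sz_ne_one hx).toFinset ∪ (finite_fa_ne_one hl).toFinset ∪ S ∪ U
  have h1 : ∑ᶠ v : HeightOneSpectrum (𝓞 K), Real.log (sz v x) = ∑ v ∈ Z, Real.log (sz v x) := by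
    refine finsum_eq_sum_of_support_subset _ ?_
    intro v hv
    have : sz v x ≠ 1 := by
      intro h
      apply hv
      show Real.log (sz v x) = 0
      rw [h, Real.log_one]
    simp only [Z, Finset.coe_union, Set.Finite.coe_toFinset, Set.mem_union]
    exact Or.inl (Or.inl (Or.inl this))
  have h2 : ∑ᶠ v : HeightOneSpectrum (𝓞 K), Real.log (fa v (lin (L j) x)) =
      ∑ v ∈ Z, Real.log (fa v (lin (L j) x)) := by
    refine finsum_eq_sum_of_support_subset _ ?_
    intro v hv
    have : fa v (lin (L j) x) ≠ 1 := by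
      intro h
      apply hv
      show Real.log (fa v (lin (L j) x)) = 0
      rw [h, Real.log_one]
    simp only [Z, Finset.coe_union, Set.Finite.coe_toFinset, Set.mem_union]
    exact Or.inl (Or.inl (Or.inr this))
  have h3 : ∑ v ∈ Z, ((if v ∈ U then Real.log (nv v) else 0) -
      (if v ∈ S then Real.log (sz v (L j) + 1) else 0)) ≤
      ∑ v ∈ Z, (Real.log (sz v x) - Real.log (fa v (lin (L j) x))) := by
    refine Finset.sum_le_sum fun v _ => ?_
    have hs := sz_pos v hx
    have hf := fa_pos v hl
    by_cases hvS : v ∈ S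
    · have hvU : v ∉ U := fun h => (hU v h).1 hvS
      rw [if_pos hvS, if_neg hvU]
      have h4 : fa v (lin (L j) x) ≤ (sz v (L j) + 1) * sz v x := by
        refine (fa_lin_le v (L j) x).trans ?_
        exact mul_le_mul_of_nonneg_right (by linarith) hs.le
      have h5 := Real.log_le_log hf h4
      rw [Real.log_mul (by linarith [sz_nonneg v (L j)]) hs.ne'] at h5
      linarith
    · rw [if_neg hvS]
      by_cases hvU : v ∈ U
      · rw [if_pos hvU, sub_zero]
        have hj := (hU v hvU).2
        simp only [IS, Finset.mem_filter, Finset.mem_univ, true_and] at hj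
        exact log_sz_sub_ge v hx hl hj
      · rw [if_neg hvU, sub_zero]
        have := Real.log_le_log hf (hS.le v hvS j x)
        linarith
  rw [Finset.sum_sub_distrib, Finset.sum_sub_distrib, Finset.sum_ite_mem, Finset.sum_ite_mem,
    Finset.inter_eq_right.mpr, Finset.inter_eq_right.mpr] at h3
  · rw [h1]
    rw [h2] at hprod
    linarith
  · intro v hv
    simp only [Z, Finset.mem_union]
    exact Or.inl (Or.inr hv)
  · intro v hv
    simp only [Z, Finset.mem_union]
    exact Or.inr hv

lemma sum_explicit {L : Fin q → Fin (n + 1) → K}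
    {cc : Finset (Fin q) → Fin q → K} {S : Finset (HeightOneSpectrum (𝓞 K))}
    (hS : Good L cc S) (x : Fin (n + 1) → K) (hx : ∀ j, lin (L j) x ≠ 0) :
    ∑ I : Finset (Fin q), (I.card : ℝ) * Real.log (NN (RR L S x I)) ≤
      q * logHeight x + ∑ j, cst L S j := by
  classical
  have e1 : ∑ I : Finset (Fin q), (I.card : ℝ) * Real.log (NN (RR L S x I)) =
      ∑ j : Fin q, ∑ I ∈ (Finset.univ : Finset (Finset (Fin q))).filter (fun I => j ∈ I),
        Real.log (NN (RR L S x I)) := by
    have e2 : ∀ I : Finset (Fin q), (I.card : ℝ) * Real.log (NN (RR L S x I)) =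
        ∑ j : Fin q, if j ∈ I then Real.log (NN (RR L S x I)) else 0 := by
      intro I
      rw [Finset.sum_ite_mem, Finset.univ_inter, Finset.sum_const, nsmul_eq_mul]
    rw [Finset.sum_congr rfl fun I _ => e2 I, Finset.sum_comm]
    refine Finset.sum_congr rfl fun j _ => ?_
    rw [Finset.sum_filter]
  rw [e1]
  have e3 : ∀ j : Fin q, ∑ I ∈ (Finset.univ : Finset (Finset (Fin q))).filter (fun I => j ∈ I),
      Real.log (NN (RR L S x I)) ≤ logHeight x + cst L S j := by
    intro j
    have hne : ∀ I ∈ (Finset.univ : Finset (Finset (Fin q))).filter (fun I => j ∈ I),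
        I.Nonempty := by
      intro I hI
      simp only [Finset.mem_filter, Finset.mem_univ, true_and] at hI
      exact ⟨j, hI⟩
    have hdisj : Set.PairwiseDisjoint (((Finset.univ : Finset (Finset (Fin q))).filter
        (fun I => j ∈ I) : Finset (Finset (Fin q))) : Set (Finset (Fin q)))
        (fun I => RR L S x I) := by
      intro I hI I' hI' hn
      refine Finset.disjoint_left.mpr ?_
      intro v hv hv'
      rw [mem_RR hS hx (hne I hI)] at hv
      rw [mem_RR hS hx (hne I' hI')] at hv'
      exact hn (hv.2.symm.trans hv'.2)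
    calc ∑ I ∈ (Finset.univ : Finset (Finset (Fin q))).filter (fun I => j ∈ I),
        Real.log (NN (RR L S x I))
        = ∑ I ∈ (Finset.univ : Finset (Finset (Fin q))).filter (fun I => j ∈ I),
          ∑ v ∈ RR L S x I, Real.log (nv v) := Finset.sum_congr rfl fun I _ => log_NN _
      _ = ∑ v ∈ ((Finset.univ : Finset (Finset (Fin q))).filter (fun I => j ∈ I)).biUnion
          (fun I => RR L S x I), Real.log (nv v) := (Finset.sum_biUnion hdisj).symm
      _ ≤ logHeight x + cst L S j := by
        refine per_form_e hS j x (hx j) _ ?_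
        intro v hv
        rw [Finset.mem_biUnion] at hv
        obtain ⟨I, hI, hv⟩ := hv
        rw [mem_RR hS hx (hne I hI)] at hv
        refine ⟨hv.1, ?_⟩
        rw [hv.2]
        simpa using hI
  refine (Finset.sum_le_sum fun j _ => e3 j).trans ?_
  rw [Finset.sum_add_distrib, Finset.sum_const, Finset.card_univ, Fintype.card_fin, nsmul_eq_mul]

end

/-- The constants over the extensions of bounded degree are bounded. -/
lemma cst_up_le {K : Type u} [Field K] [NumberField K] {n q : ℕ} (r : ℕ)
    (L : Fin q → Fin (n + 1) → K) (S : Finset (HeightOneSpectrum (𝓞 K))) (j : Fin q) :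
    ∃ C : ℝ, 0 ≤ C ∧
      ∀ (E : Type u) [Field E] [NumberField E] [Algebra K E], Module.finrank K E ≤ r →
        ∀ S' : Finset (HeightOneSpectrum (𝓞 E)),
          (S' : Set (HeightOneSpectrum (𝓞 E))) =
            above K E (S : Set (HeightOneSpectrum (𝓞 K))) →
          cst (up E L) S' j ≤ C := by
  classical
  set A : ℝ := ∑ v : InfinitePlace K, Real.log ((∑ i, v (L j i)) + 1) with hA
  set B : ℝ := ∑ v ∈ S, Real.log (sz v (L j) + 1) with hB
  have hA0 : ∀ v : InfinitePlace K, 0 ≤ Real.log ((∑ i, v (L j i)) + 1) := by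
    intro v
    refine Real.log_nonneg ?_
    have : 0 ≤ ∑ i, v (L j i) := Finset.sum_nonneg fun i _ => apply_nonneg v _
    linarith
  have hB0 : ∀ v : HeightOneSpectrum (𝓞 K), 0 ≤ Real.log (sz v (L j) + 1) := by
    intro v
    refine Real.log_nonneg ?_
    have := sz_nonneg v (L j)
    linarith
  have hAA : 0 ≤ A := Finset.sum_nonneg fun v _ => hA0 v
  have hBB : 0 ≤ B := Finset.sum_nonneg fun v _ => hB0 v
  have hl2 : 0 ≤ Real.log 2 := Real.log_nonneg (by norm_num)
  refine ⟨(Module.finrank ℚ K * r : ℕ) * A + (r * S.card : ℕ) * (Real.log 2 + r * B),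
    by positivity, ?_⟩
  intro E _ _ _ hr S' hS'
  have hfin : FiniteDimensional K E := Module.Finite.of_restrictScalars_finite ℚ K E
  unfold cst
  refine add_le_add ?_ ?_
  · have h1 : ∀ w : InfinitePlace E, (w.mult : ℝ) * Real.log ((∑ i, w (up E L j i)) + 1) ≤
        (w.mult : ℝ) * A := by
      intro w
      refine mul_le_mul_of_nonneg_left ?_ (Nat.cast_nonneg _)
      have h2 : ∑ i, w (up E L j i) = ∑ i, (w.comap (algebraMap K E)) (L j i) := rfl
      rw [h2]
      exact Finset.single_le_sum (f := fun v : InfinitePlace K =>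
        Real.log ((∑ i, v (L j i)) + 1)) (fun v _ => hA0 v)
        (Finset.mem_univ (w.comap (algebraMap K E)))
    refine (Finset.sum_le_sum fun w _ => h1 w).trans ?_
    rw [← Finset.sum_mul]
    refine mul_le_mul_of_nonneg_right ?_ hAA
    rw [← Nat.cast_sum, InfinitePlace.sum_mult_eq, ← Module.finrank_mul_finrank ℚ K E]
    exact_mod_cast Nat.mul_le_mul_left _ hr
  · have h3 : ∀ w ∈ S', Real.log (sz w (up E L j) + 1) ≤ Real.log 2 + r * B := by
      intro w hw
      have hw' : w ∈ above K E (S : Set (HeightOneSpectrum (𝓞 K))) := by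
        rw [← hS']; exact hw
      obtain ⟨v, hv, hwv⟩ := hw'
      obtain ⟨m, hm1, hm2, hm⟩ := fa_up_lt_iff hwv
      have h4 : sz w (up E L j) ≤ (sz v (L j) + 1) ^ r := by
        refine sz_le_of w _ _ fun i => ?_
        have h5 : fa w (up E L j i) = fa v (L j i) ^ m := hm _
        rw [h5]
        have h6 : fa v (L j i) ≤ sz v (L j) + 1 := by
          have := fa_le_sz v (L j) i
          linarith
        refine (pow_le_pow_left₀ (fa_nonneg _ _) h6 m).trans ?_
        refine pow_le_pow_right₀ ?_ (hm2.trans hr)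
        have := sz_nonneg v (L j)
        linarith
      have h7 : (1 : ℝ) ≤ (sz v (L j) + 1) ^ r := by
        refine one_le_pow₀ ?_
        have := sz_nonneg v (L j)
        linarith
      have h8 : sz w (up E L j) + 1 ≤ 2 * (sz v (L j) + 1) ^ r := by linarith
      have h9 : 0 < sz w (up E L j) + 1 := by
        have := sz_nonneg w (up E L j)
        linarith
      have h10 := Real.log_le_log h9 h8
      rw [Real.log_mul (by norm_num) (by linarith), Real.log_pow] at h10
      have h11 : Real.log (sz v (L j) + 1) ≤ B :=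
        Finset.single_le_sum (f := fun v : HeightOneSpectrum (𝓞 K) =>
          Real.log (sz v (L j) + 1)) (fun v _ => hB0 v) hv
      have h12 : (r : ℝ) * Real.log (sz v (L j) + 1) ≤ r * B :=
        mul_le_mul_of_nonneg_left h11 (Nat.cast_nonneg _)
      linarith
    refine (Finset.sum_le_sum h3).trans ?_
    rw [Finset.sum_const, nsmul_eq_mul]
    refine mul_le_mul_of_nonneg_right ?_ (by positivity)
    obtain ⟨S'', e1, e2⟩ := above_finset E S
    have e3 : S'' = S' := Finset.coe_injective (e1.trans hS'.symm)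
    rw [e3] at e2
    exact_mod_cast e2.trans (Nat.mul_le_mul_right _ hr)

/-- NU8 -/
theorem sum_card_mul_u {K : Type u} [Field K] [NumberField K] {n q : ℕ} (r : ℕ)
    {L : Fin q → Fin (n + 1) → K} {cc : Finset (Fin q) → Fin q → K}
    {S : Finset (HeightOneSpectrum (𝓞 K))} (hS : Good L cc S) : ∃ C : ℝ, 0 ≤ C ∧
      ∀ (E : Type u) [Field E] [NumberField E] [Algebra K E], Module.finrank K E ≤ r →
        ∀ S' : Finset (HeightOneSpectrum (𝓞 E)),
          (S' : Set (HeightOneSpectrum (𝓞 E))) =
            above K E (S : Set (HeightOneSpectrum (𝓞 K))) →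
          Good (up E L) (fun C j => algebraMap K E (cc C j)) S' →
          ∀ x : Fin (n + 1) → E, (∀ j, lin (up E L j) x ≠ 0) →
            ∑ I : Finset (Fin q), (I.card : ℝ) * Real.log (NN (RR (up E L) S' x I)) ≤
              q * logHeight x + C := by
  choose C hC0 hC using fun j => cst_up_le r L S j
  refine ⟨∑ j, C j, Finset.sum_nonneg fun j _ => hC0 j, ?_⟩
  intro E _ _ _ hr S' hS' hG x hx
  refine (sum_explicit hG x hx).trans ?_
  have h := Finset.sum_le_sum fun j (_ : j ∈ (Finset.univ : Finset (Fin q))) =>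
    hC j E hr S' hS'
  linarith

end Pool.Agent.Lib.MP_44a246_ntNU
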