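import Pool.Agent.Lib.MP_44a246_ntNF.Count
import Pool.Agent.Lib.MP_44a246_ntNU.Defs
import Pool.Agent.Lib.MP_44a246_ntNU.NU1
import Pool.Agent.Lib.MP_44a246_ntNU.NU2
import Pool.Agent.Lib.MP_44a246_ntNU.NU3a
import Pool.Agent.Lib.MP_44a246_ntNU.NU3b
import Pool.Agent.Lib.MP_44a246_ntNU.NU45
import Pool.Agent.Lib.MP_44a246_ntNU.NU6
import Pool.Agent.Lib.MP_44a246_ntNU.NU6c
import Pool.Agent.Lib.MP_44a246_ntNU.NU7
import Pool.Agent.Lib.MP_44a246_ntNU.NU8
import Pool.Agent.Lib.MP_44a246_ntNU.NU10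
import Pool.Agent.Lib.MP_44a246_ntNU.FC6

set_option autoImplicit false

open NumberField IsDedekindDomain Height
open Pool.Agent.Lib.MP_4d5ce1_nt (fa nv ordv)
open Pool.Agent.Lib.MP_44a246_ntNF

namespace Pool.Agent.Lib.MP_44a246_ntNU

universe u

/-- The constant for the heights of quotients of forms, in all extensions of bounded degree. -/
theorem exists_CE {K : Type u} [Field K] [NumberField K] {n q : ℕ} (r : ℕ)
    (L : Fin q → Fin (n + 1) → K) (cc : Finset (Fin q) → Fin q → K) :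
    ∃ CE : ℝ, 1 ≤ CE ∧ ∀ (E : Type u) [Field E] [NumberField E] [Algebra K E],
      Module.finrank K E ≤ r →
      (∀ i j : Fin q, ∀ x : Fin (n + 1) → E,
        mulHeight₁ (lin (up E L i) x / lin (up E L j) x) ≤ CE * mulHeight x) ∧
      (∀ A C : Finset (Fin q), ∀ j : Fin q, ∀ x : Fin (n + 1) → E,
        mulHeight₁ (lin (Dec.fm (up E L) (fun C j => algebraMap K E (cc C j)) A C) x /
          lin (up E L j) x) ≤ CE * mulHeight x) := by
  obtain ⟨C1, hC1, h1⟩ := height_div_le_u (K := K) (n := n) r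
    (fun p : Fin q × Fin q => L p.1) (fun p => L p.2)
  obtain ⟨C2, hC2, h2⟩ := height_div_le_u (K := K) (n := n) r
    (fun p : (Finset (Fin q) × Finset (Fin q)) × Fin q => Dec.fm L cc p.1.1 p.1.2)
    (fun p => L p.2)
  refine ⟨max C1 C2, hC1.trans (le_max_left _ _), ?_⟩
  intro E _ _ _ hE
  have hmh : ∀ x : Fin (n + 1) → E, 0 ≤ mulHeight x := fun x =>
    (zero_lt_one.trans_le (one_le_mulHeight x)).le
  constructor
  · intro i j x
    exact (h1 E hE (i, j) x).trans (mul_le_mul_of_nonneg_right (le_max_left _ _) (hmh x))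
  · intro A C j x
    have e : Dec.fm (up E L) (fun C j => algebraMap K E (cc C j)) A C =
        fun k => algebraMap K E (Dec.fm L cc A C k) := by
      funext k
      simp only [Dec.fm, up, map_sum, map_mul]
    rw [e]
    exact (h2 E hE ((A, C), j) x).trans (mul_le_mul_of_nonneg_right (le_max_right _ _) (hmh x))

/-- The counting theorem over extensions, for coordinate vectors. -/
theorem count_u_vec {K : Type u} [Field K] [NumberField K] {n q : ℕ} (hq : n + 2 ≤ q)
    {S₀ : Set (HeightOneSpectrum (𝓞 K))} (hS₀ : S₀.Finite) (L : Fin q → Fin (n + 1) → K)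
    (hL : ∀ J : Fin (n + 1) → Fin q, Function.Injective J →
      LinearIndependent K (fun i => L (J i)))
    (α β : ℝ) (hα : 0 ≤ α) (hβ : 0 ≤ β)
    (hs : ∀ s : ℕ, 1 ≤ s → s ≤ n → 1 - (((q - n - 2 + s).choose s : ℕ) : ℝ) /
      ((q.choose s : ℕ) : ℝ) ≤ α + β * s) (r : ℕ) (η : ℝ) (hη : 0 < η) :
    ∃ C : ℝ, 0 < C ∧ ∀ (E : Type u) [Field E] [NumberField E] [Algebra K E],
      Module.finrank K E ≤ r → ∀ B M : ℝ, 1 ≤ B → 1 ≤ M →
      ∀ X : Finset (Fin (n + 1) → E),
      (∀ x ∈ X, (∀ j, lin (up E L j) x ≠ 0) ∧ ¬ VanishingSubsum (up E L) x ∧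
        mulHeight x ≤ B ∧ truncCount (above K E S₀) (up E L) x ≤ Real.log M) →
      (∀ x ∈ X, ∀ y ∈ X, x ≠ y → ∀ t : E, x ≠ t • y) →
      (X.card : ℝ) ≤ C * M ^ α * B ^ (β * q) * (B * M) ^ η := by
  classical
  obtain ⟨cc, hcc, S, hSS, hS⟩ := exists_good (by omega) L hL hS₀.toFinset
  obtain ⟨CE, hCE1, hCE⟩ := exists_CE r L cc
  obtain ⟨C2, hC2, hn2⟩ := sum_card_mul_u (K := K) (n := n) r hS
  set d : ℕ := Module.finrank ℚ K * r with hd
  set θ : ℝ := α + β * q with hθ
  have hθ0 : 0 ≤ θ := by positivity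
  set η1 : ℝ := η / (2 * (θ + 1)) with hη1
  have hη1p : 0 < η1 := by positivity
  obtain ⟨C1, hC1, hfam⟩ := card_families_u.{u} d (Finset (Fin q)) η1 hη1p
  obtain ⟨C3, hC3, hcodes⟩ := card_code_u.{u} d (r * S.card) n q (η / 2) (by positivity)
  set D : ℝ := Real.exp (β * C2) with hD
  have hD1 : 1 ≤ D := Real.one_le_exp (by positivity)
  have hCE0 : 0 < CE := by linarith
  refine ⟨(q : ℝ) ^ (n + 1) * (C1 * D ^ (1 + η1)) * (C3 * CE ^ (η / 2)) + 1, by positivity, ?_⟩
  intro E _ _ _ hE B M hB hM X hX hprop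
  have hdE : Module.finrank ℚ E ≤ d := by
    rw [← Module.finrank_mul_finrank ℚ K E]
    exact Nat.mul_le_mul_left _ hE
  obtain ⟨S', hS', hS'c⟩ := above_finset E S
  have hS'c' : S'.card ≤ r * S.card := hS'c.trans (Nat.mul_le_mul_right _ hE)
  obtain ⟨hccE, hSE, hLE⟩ := good_up (by omega) hL hcc hS S' hS'
  have h0 : above K E S₀ ⊆ (S' : Set (HeightOneSpectrum (𝓞 E))) := by
    rw [hS']
    rintro w ⟨v, hv, hw⟩
    exact ⟨v, hSS (by simpa using hv), hw⟩
  obtain ⟨hCEa, hCEb⟩ := hCE E hE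
  have hn2E := hn2 E hE S' hS' hSE
  have hcodesE := hcodes E hdE (up E L) _ S' hS'c' hccE hSE hLE CE hCE1 hCEa hCEb
  have hfamE := hfam E hdE
  have hB0 : 0 < B := by linarith
  have hM0 : 0 < M := by linarith
  have hlB : 0 ≤ Real.log B := Real.log_nonneg hB
  have hlM : 0 ≤ Real.log M := Real.log_nonneg hM
  -- the weights
  set w : (Fin (n + 1) → E) → Finset (Fin q) → ℝ :=
    fun x I => Real.log (NN (RR (up E L) S' x I)) with hw
  have hwn : ∀ x I, 0 ≤ w x I := fun x I => Real.log_nonneg (one_le_NN _)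
  have hw0 : ∀ x I, n < I.card → w x I = 0 := by
    intro x I hI
    have : RR (up E L) S' x I = ∅ := by
      unfold RR
      split_ifs with hfin
      · rw [Finset.eq_empty_iff_forall_notMem]
        intro v hv
        rw [Set.Finite.mem_toFinset] at hv
        have h1 := card_IS_le hSE x hv.1
        rw [hv.2] at h1
        omega
      · rfl
    simp only [hw, this, NN, Finset.prod_empty, Real.log_one]
  have hn1 : ∀ x ∈ X, ∑ I ∈ (Finset.univ : Finset (Finset (Fin q))).filter (fun I => I.Nonempty),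
      w x I ≤ Real.log M := by
    intro x hx
    obtain ⟨h1, _, h3, h4⟩ := hX x hx
    exact (sum_log_NN_le hSE h0 h1 (by omega)).trans h4
  have horder : ∀ x, ∃ J : Fin (n + 1) → Fin q, Function.Injective J ∧
      ∀ T : Finset (Finset (Fin q)), (∀ I ∈ T, Charged J I) → ∑ I ∈ T, w x I ≤
        ∑ I : Finset (Fin q), (1 - (((q - n - 2 + I.card).choose I.card : ℕ) : ℝ) /
          ((q.choose I.card : ℕ) : ℝ)) * w x I := fun x => exists_order n q hq (w x) (hwn x) (hw0 x)
  choose J hJinj hJ using horder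
  set R : (Fin (n + 1) → E) → Finset (Fin q) → Finset (HeightOneSpectrum (𝓞 E)) :=
    fun x I => if Charged (J x) I then RR (up E L) S' x I else ∅ with hR
  -- cost
  set Y : ℝ := D * (M ^ α * B ^ (β * q)) with hY
  have hMα : 1 ≤ M ^ α := Real.one_le_rpow hM hα
  have hBβ : 1 ≤ B ^ (β * q) := Real.one_le_rpow hB (by positivity)
  have hMB1 : 1 ≤ M ^ α * B ^ (β * q) := by nlinarith
  have hY1 : 1 ≤ Y := by
    rw [hY]
    nlinarith
  have hcost : ∀ x ∈ X, ∏ I, NN (R x I) ≤ Y := by
    intro x hx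
    have e1 : ∏ I, NN (R x I) = Real.exp (∑ I ∈ Finset.univ.filter (fun I => Charged (J x) I),
        w x I) := by
      rw [Real.exp_sum, Finset.prod_filter]
      apply Finset.prod_congr rfl
      intro I _
      simp only [hR, hw]
      split_ifs with hI
      · rw [Real.exp_log (NN_pos _)]
      · simp [NN]
    rw [e1]
    have e2 := hJ x (Finset.univ.filter (fun I => Charged (J x) I)) (by
      intro I hI
      exact (Finset.mem_filter.mp hI).2)
    have e3 : ∑ I : Finset (Fin q), (1 - (((q - n - 2 + I.card).choose I.card : ℕ) : ℝ) /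
          ((q.choose I.card : ℕ) : ℝ)) * w x I ≤
        ∑ I ∈ (Finset.univ : Finset (Finset (Fin q))).filter (fun I => I.Nonempty),
          (α + β * I.card) * w x I := by
      rw [Finset.sum_filter]
      apply Finset.sum_le_sum
      intro I _
      split_ifs with hI
      · rcases Nat.lt_or_ge n I.card with h1 | h1
        · rw [hw0 x I h1]; simp
        · exact mul_le_mul_of_nonneg_right (hs I.card (Finset.card_pos.mpr hI) h1) (hwn x I)
      · rw [Finset.not_nonempty_iff_eq_empty] at hI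
        subst hI
        simp
    have e4 : ∑ I ∈ (Finset.univ : Finset (Finset (Fin q))).filter (fun I => I.Nonempty),
          (α + β * I.card) * w x I ≤ α * Real.log M + β * (q * Real.log B + C2) := by
      have f1 : ∀ I : Finset (Fin q), (α + β * I.card) * w x I =
          α * w x I + β * ((I.card : ℝ) * w x I) := fun I => by ring
      rw [Finset.sum_congr rfl (fun I _ => f1 I), Finset.sum_add_distrib, ← Finset.mul_sum,
        ← Finset.mul_sum]
      apply add_le_add
      · exact mul_le_mul_of_nonneg_left (hn1 x hx) hα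
      · apply mul_le_mul_of_nonneg_left _ hβ
        have g1 := hn2E x (hX x hx).1
        have g2 : ∑ I ∈ (Finset.univ : Finset (Finset (Fin q))).filter (fun I => I.Nonempty),
            (I.card : ℝ) * w x I ≤ ∑ I : Finset (Fin q), (I.card : ℝ) * w x I := by
          apply Finset.sum_le_sum_of_subset_of_nonneg (Finset.filter_subset _ _)
          intro I _ _
          exact mul_nonneg (Nat.cast_nonneg _) (hwn x I)
        have g3 : logHeight x ≤ Real.log B := by
          rw [logHeight_eq_log_mulHeight]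
          exact Real.log_le_log (mulHeight_pos x) (hX x hx).2.2.1
        have g4 : (q : ℝ) * logHeight x ≤ q * Real.log B :=
          mul_le_mul_of_nonneg_left g3 (Nat.cast_nonneg _)
        linarith
    calc Real.exp _ ≤ Real.exp (α * Real.log M + β * (q * Real.log B + C2)) :=
          Real.exp_le_exp.mpr (e2.trans (e3.trans e4))
      _ = Y := by
          rw [hY, hD, Real.rpow_def_of_pos hM0, Real.rpow_def_of_pos hB0, ← Real.exp_add,
            ← Real.exp_add]
          congr 1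
          ring
  -- bound for the norms
  set T : ℝ := B * M with hT
  have hT1 : 1 ≤ T := by rw [hT]; nlinarith
  have hT0 : 0 < T := by linarith
  have hBT : B ≤ T := by rw [hT]; nlinarith
  have hMT : M ≤ T := by rw [hT]; nlinarith
  have hNN : ∀ x ∈ X, ∀ I : Finset (Fin q), I.Nonempty → NN (RR (up E L) S' x I) ≤ T := by
    intro x hx I hI
    have h1 : w x I ≤ Real.log M := by
      refine le_trans ?_ (hn1 x hx)
      apply Finset.single_le_sum (f := fun I => w x I) (fun I _ => hwn x I)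
      simp [hI]
    have h2 : NN (RR (up E L) S' x I) = Real.exp (w x I) := by
      simp only [hw]
      rw [Real.exp_log (NN_pos _)]
    rw [h2]
    calc Real.exp (w x I) ≤ Real.exp (Real.log M) := Real.exp_le_exp.mpr h1
      _ = M := Real.exp_log hM0
      _ ≤ T := hMT
  -- the codes
  set code : (Fin (n + 1) → E) → (Fin (n + 1) → Fin q) ×
      (Finset (Fin q) → Finset (HeightOneSpectrum (𝓞 E))) := fun x => (J x, R x) with hcode
  have hfib : ∀ z ∈ X.image code, ((X.filter (fun x => code x = z)).card : ℝ) ≤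
      C3 * (CE * T) ^ (η / 2) := by
    intro z hz
    rw [Finset.mem_image] at hz
    obtain ⟨x0, hx0, hz0⟩ := hz
    refine hcodesE T hT1 (J x0) (hJinj x0) _ ?_ ?_ ?_
    · intro x hx
      rw [Finset.mem_filter] at hx
      obtain ⟨h1, h2, h3, _⟩ := hX x hx.1
      exact ⟨h1, h2, h3.trans hBT, hNN x hx.1⟩
    · intro x hx y hy I hI
      rw [Finset.mem_filter] at hx hy
      have hx2 : code x = code x0 := hx.2.trans hz0.symm
      have hy2 : code y = code x0 := hy.2.trans hz0.symm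
      simp only [hcode, Prod.mk.injEq] at hx2 hy2
      have a1 := congrFun hx2.2 I
      have a2 := congrFun hy2.2 I
      simp only [hR, hx2.1, hy2.1, if_pos hI] at a1 a2
      rw [a1, a2]
    · intro x hx y hy hne t
      rw [Finset.mem_filter] at hx hy
      exact hprop x hx.1 y hy.1 hne t
  have hcard1 : (X.card : ℝ) ≤ ((X.image code).card : ℝ) * (C3 * (CE * T) ^ (η / 2)) := by
    have h1 : X.card = ∑ z ∈ X.image code, (X.filter (fun x => code x = z)).card :=
      Finset.card_eq_sum_card_image code X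
    rw [h1, Nat.cast_sum, ← nsmul_eq_mul]
    exact Finset.sum_le_card_nsmul _ _ _ hfib
  have hcard2 : ((X.image code).card : ℝ) ≤ (q : ℝ) ^ (n + 1) * (C1 * Y ^ (1 + η1)) := by
    have h1 : X.image code ⊆ (Finset.univ : Finset (Fin (n + 1) → Fin q)) ×ˢ (X.image R) := by
      intro z hz
      rw [Finset.mem_image] at hz
      obtain ⟨x, hx, rfl⟩ := hz
      rw [Finset.mem_product]
      exact ⟨Finset.mem_univ _, Finset.mem_image_of_mem _ hx⟩
    have h2 := Finset.card_le_card h1
    rw [Finset.card_product, Finset.card_univ, Fintype.card_fun, Fintype.card_fin,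
      Fintype.card_fin] at h2
    have h3 := hfamE Y hY1 (X.image R) (by
      intro r hr
      rw [Finset.mem_image] at hr
      obtain ⟨x, hx, rfl⟩ := hr
      exact hcost x hx)
    calc ((X.image code).card : ℝ) ≤ ((q ^ (n + 1) * (X.image R).card : ℕ) : ℝ) := by
          exact_mod_cast h2
      _ = (q : ℝ) ^ (n + 1) * ((X.image R).card : ℝ) := by push_cast; ring
      _ ≤ _ := mul_le_mul_of_nonneg_left h3 (by positivity)
  have hTη : 0 ≤ C3 * (CE * T) ^ (η / 2) := by positivity
  refine hcard1.trans ((mul_le_mul_of_nonneg_right hcard2 hTη).trans ?_)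
  have hBθ : 0 < M ^ α * B ^ (β * q) := by linarith
  have p1 : Y ^ (1 + η1) = D ^ (1 + η1) * ((M ^ α * B ^ (β * q)) *
      (M ^ α * B ^ (β * q)) ^ η1) := by
    rw [hY, Real.mul_rpow (by linarith) hBθ.le, Real.rpow_add hBθ, Real.rpow_one]
  have p2 : (CE * T) ^ (η / 2) = CE ^ (η / 2) * T ^ (η / 2) := by
    rw [Real.mul_rpow (by linarith) hT0.le]
  have p3 : (M ^ α * B ^ (β * q)) ^ η1 ≤ T ^ (η / 2) := by
    have q1 : M ^ α * B ^ (β * q) ≤ T ^ θ := by
      rw [hθ, Real.rpow_add hT0]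
      refine mul_le_mul (Real.rpow_le_rpow hM0.le hMT hα)
        (Real.rpow_le_rpow hB0.le hBT (by positivity)) (by positivity) (by positivity)
    calc (M ^ α * B ^ (β * q)) ^ η1 ≤ (T ^ θ) ^ η1 := Real.rpow_le_rpow hBθ.le q1 hη1p.le
      _ = T ^ (θ * η1) := by rw [← Real.rpow_mul hT0.le]
      _ ≤ T ^ (η / 2) := by
          apply Real.rpow_le_rpow_of_exponent_le hT1
          rw [hη1, mul_div_assoc', div_le_div_iff₀ (by positivity) (by norm_num)]
          nlinarith
  rw [p1, p2]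
  have p4 : T ^ η = T ^ (η / 2) * T ^ (η / 2) := by
    rw [← Real.rpow_add hT0]
    congr 1
    ring
  rw [p4]
  have hTh : 0 ≤ T ^ (η / 2) := Real.rpow_nonneg hT0.le _
  calc (q : ℝ) ^ (n + 1) * (C1 * (D ^ (1 + η1) * (M ^ α * B ^ (β * q) *
        (M ^ α * B ^ (β * q)) ^ η1))) * (C3 * (CE ^ (η / 2) * T ^ (η / 2)))
      = ((q : ℝ) ^ (n + 1) * (C1 * D ^ (1 + η1)) * (C3 * CE ^ (η / 2))) *
        (M ^ α * B ^ (β * q)) * ((M ^ α * B ^ (β * q)) ^ η1 * T ^ (η / 2)) := by ring
    _ ≤ ((q : ℝ) ^ (n + 1) * (C1 * D ^ (1 + η1)) * (C3 * CE ^ (η / 2))) *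
        (M ^ α * B ^ (β * q)) * (T ^ (η / 2) * T ^ (η / 2)) := by
        apply mul_le_mul_of_nonneg_left _ (by positivity)
        exact mul_le_mul_of_nonneg_right p3 hTh
    _ ≤ ((q : ℝ) ^ (n + 1) * (C1 * D ^ (1 + η1)) * (C3 * CE ^ (η / 2)) + 1) *
        (M ^ α * B ^ (β * q)) * (T ^ (η / 2) * T ^ (η / 2)) := by
        apply mul_le_mul_of_nonneg_right _ (by positivity)
        apply mul_le_mul_of_nonneg_right _ (by positivity)
        linarith
    _ = _ := by ring

theorem rep_heights {E : Type*} [Field E] [NumberField E] {n : ℕ}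
    (P : Projectivization E (Fin (n + 1) → E)) :
    P.mulHeight = mulHeight P.rep ∧ P.logHeight = logHeight P.rep := by
  constructor
  · conv_lhs => rw [← P.mk_rep]
    exact Projectivization.mulHeight_mk _
  · conv_lhs => rw [← P.mk_rep]
    exact Projectivization.logHeight_mk _

theorem rep_injective {E : Type*} [Field E] {n : ℕ} :
    Function.Injective (fun P : Projectivization E (Fin (n + 1) → E) => P.rep) := by
  intro P Q h
  have h' : P.rep = Q.rep := h
  rw [← P.mk_rep, ← Q.mk_rep]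
  rw [Projectivization.mk_eq_mk_iff]
  exact ⟨1, by rw [one_smul, h']⟩

theorem rep_ne_smul {E : Type*} [Field E] {n : ℕ}
    {P Q : Projectivization E (Fin (n + 1) → E)} (hne : P ≠ Q) (t : E) : P.rep ≠ t • Q.rep := by
  intro hxy
  apply hne
  have ht : t ≠ 0 := by
    rintro rfl
    rw [zero_smul] at hxy
    exact P.rep_nonzero hxy
  rw [← P.mk_rep, ← Q.mk_rep, Projectivization.mk_eq_mk_iff]
  exact ⟨Units.mk0 t ht, hxy.symm⟩

/-- NU9 -/
theorem count_u' {K : Type u} [Field K] [NumberField K] {n q : ℕ} (hq : n + 2 ≤ q)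
    {S₀ : Set (HeightOneSpectrum (𝓞 K))} (hS₀ : S₀.Finite) (L : Fin q → Fin (n + 1) → K)
    (hL : ∀ J : Fin (n + 1) → Fin q, Function.Injective J →
      LinearIndependent K (fun i => L (J i)))
    (α β : ℝ) (hα : 0 ≤ α) (hβ : 0 ≤ β)
    (hs : ∀ s : ℕ, 1 ≤ s → s ≤ n → 1 - (((q - n - 2 + s).choose s : ℕ) : ℝ) /
      ((q.choose s : ℕ) : ℝ) ≤ α + β * s) (r : ℕ) (η : ℝ) (hη : 0 < η) :
    ∃ C : ℝ, 0 < C ∧ ∀ (E : Type u) [Field E] [NumberField E] [Algebra K E],
      Module.finrank K E ≤ r → ∀ B M : ℝ, 1 ≤ B → 1 ≤ M →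
      ∀ X : Finset (Projectivization E (Fin (n + 1) → E)),
      (∀ P ∈ X, (∀ j, lin (up E L j) P.rep ≠ 0) ∧ ¬ VanishingSubsum (up E L) P.rep ∧
        P.mulHeight ≤ B ∧ truncCount (above K E S₀) (up E L) P.rep ≤ Real.log M) →
      (X.card : ℝ) ≤ C * M ^ α * B ^ (β * q) * (B * M) ^ η := by
  classical
  obtain ⟨C, hC, h⟩ := count_u_vec hq hS₀ L hL α β hα hβ hs r η hη
  refine ⟨C, hC, ?_⟩
  intro E _ _ _ hE B M hB hM X hX
  have h1 := h E hE B M hB hM (X.image (fun P => P.rep)) ?_ ?_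
  · rwa [Finset.card_image_of_injective _ rep_injective] at h1
  · intro x hx
    rw [Finset.mem_image] at hx
    obtain ⟨P, hP, rfl⟩ := hx
    obtain ⟨a1, a2, a3, a4⟩ := hX P hP
    rw [(rep_heights P).1] at a3
    exact ⟨a1, a2, a3, a4⟩
  · intro x hx y hy hne t
    rw [Finset.mem_image] at hx hy
    obtain ⟨P, hP, rfl⟩ := hx
    obtain ⟨Q, hQ, rfl⟩ := hy
    exact rep_ne_smul (fun h => hne (by rw [h])) t

end Pool.Agent.Lib.MP_44a246_ntNU
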