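import Pool.Agent.Lib.MP_44a246_ntNF.Tools
import Pool.Agent.Lib.MP_44a246_ntNF.NF9
import Pool.Agent.Lib.MP_44a246_ntNU.Defs

set_option autoImplicit false

open NumberField IsDedekindDomain Height
open Pool.Agent.Lib.MP_4d5ce1_nt (fa nv ordv)
open Pool.Agent.Lib.MP_44a246_ntNF

namespace Pool.Agent.Lib.MP_44a246_ntNU

universe u

/-- NU1a -/
theorem sum_nv_bound_u (d : ℕ) (s : ℝ) (hs : 1 < s) : ∃ C : ℝ, 0 < C ∧
    ∀ (E : Type u) [Field E] [NumberField E], Module.finrank ℚ E ≤ d →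
      ∀ W : Finset (HeightOneSpectrum (𝓞 E)), ∑ v ∈ W, nv v ^ (-s) ≤ C := by
  sorry

/-- NU1b -/
theorem card_nv_le_u (d : ℕ) (B : ℝ) : ∃ N : ℕ,
    ∀ (E : Type u) [Field E] [NumberField E], Module.finrank ℚ E ≤ d →
      ∀ W : Finset (HeightOneSpectrum (𝓞 E)), (∀ v ∈ W, nv v ≤ B) → W.card ≤ N := by
  sorry

/-- NU2a -/
theorem card_families_u (d : ℕ) (ι : Type) [Fintype ι] (η : ℝ) (hη : 0 < η) :
    ∃ C : ℝ, 0 < C ∧ ∀ (E : Type u) [Field E] [NumberField E], Module.finrank ℚ E ≤ d →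
      ∀ Y : ℝ, 1 ≤ Y → ∀ F : Finset (ι → Finset (HeightOneSpectrum (𝓞 E))),
        (∀ R ∈ F, ∏ i, NN (R i) ≤ Y) → (F.card : ℝ) ≤ C * Y ^ (1 + η) := by
  sorry

/-- NU2b -/
theorem two_pow_card_le_u (d : ℕ) (η : ℝ) (hη : 0 < η) : ∃ C : ℝ, 0 < C ∧
    ∀ (E : Type u) [Field E] [NumberField E], Module.finrank ℚ E ≤ d →
      ∀ V : Finset (HeightOneSpectrum (𝓞 E)), (2 : ℝ) ^ V.card ≤ C * NN V ^ η := by
  sorry

/-- NU3a -/
theorem card_small_u (d : ℕ) (R : ℝ) : ∃ N : ℕ,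
    ∀ (E : Type u) [Field E] [NumberField E], Module.finrank ℚ E ≤ d →
      ∀ U : Finset E, (∀ y ∈ U, (∀ v : HeightOneSpectrum (𝓞 E), fa v y ≤ 1) ∧
        ∀ w : InfinitePlace E, w y ≤ R) → U.card ≤ N := by
  sorry

/-- NU3b -/
theorem card_elements_u (d s : ℕ) (η : ℝ) (hη : 0 < η) : ∃ C : ℝ, 0 < C ∧
    ∀ (E : Type u) [Field E] [NumberField E], Module.finrank ℚ E ≤ d →
      ∀ S : Finset (HeightOneSpectrum (𝓞 E)), S.card ≤ s →
      ∀ T : ℝ, 1 ≤ T → ∀ V : Finset (HeightOneSpectrum (𝓞 E)), NN V ≤ T →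
      ∀ F : Finset E, (∀ y ∈ F, y ≠ 0 ∧ mulHeight₁ y ≤ T ∧ ∀ v, v ∉ S → v ∉ V → fa v y = 1) →
        (F.card : ℝ) ≤ C * T ^ η := by
  sorry

/-- NU4 -/
theorem step_u (d s n q : ℕ) (η : ℝ) (hη : 0 < η) : ∃ C : ℝ, 0 < C ∧
    ∀ (E : Type u) [Field E] [NumberField E], Module.finrank ℚ E ≤ d →
      ∀ (L : Fin q → Fin (n + 1) → E) (cc : Finset (Fin q) → Fin q → E)
        (S : Finset (HeightOneSpectrum (𝓞 E))), S.card ≤ s → IsRel L cc → Good L cc S →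
      ∀ CE : ℝ, 1 ≤ CE → (∀ i j : Fin q, ∀ x : Fin (n + 1) → E,
        mulHeight₁ (lin (L i) x / lin (L j) x) ≤ CE * mulHeight x) →
      (∀ A C : Finset (Fin q), ∀ j : Fin q, ∀ x : Fin (n + 1) → E,
        mulHeight₁ (lin (Dec.fm L cc A C) x / lin (L j) x) ≤ CE * mulHeight x) →
      ∀ T : ℝ, 1 ≤ T → ∀ J : Fin (n + 1) → Fin q, Function.Injective J →
      ∀ G : Finset (Fin (n + 1) → E),
      (∀ x ∈ G, (∀ j, lin (L j) x ≠ 0) ∧ ¬ VanishingSubsum L x ∧ mulHeight x ≤ T ∧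
        ∀ I, I.Nonempty → NN (RR L S x I) ≤ T) →
      (∀ x ∈ G, ∀ y ∈ G, ∀ I, Charged J I → RR L S x I = RR L S y I) →
      ∀ k : Fin (n + 1), (∀ x ∈ G, ∀ y ∈ G, ∀ i < k,
        lin (L (J i)) x / lin (L (J 0)) x = lin (L (J i)) y / lin (L (J 0)) y) →
      ∀ F : Finset E, (∀ y ∈ F, ∃ x ∈ G, lin (L (J k)) x / lin (L (J 0)) x = y) →
        (F.card : ℝ) ≤ C * (CE * T) ^ η := by
  sorry

/-- NU5 -/
theorem card_code_u (d s n q : ℕ) (η : ℝ) (hη : 0 < η) : ∃ C : ℝ, 0 < C ∧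
    ∀ (E : Type u) [Field E] [NumberField E], Module.finrank ℚ E ≤ d →
      ∀ (L : Fin q → Fin (n + 1) → E) (cc : Finset (Fin q) → Fin q → E)
        (S : Finset (HeightOneSpectrum (𝓞 E))), S.card ≤ s → IsRel L cc → Good L cc S →
      (∀ J : Fin (n + 1) → Fin q, Function.Injective J →
        LinearIndependent E (fun i => L (J i))) →
      ∀ CE : ℝ, 1 ≤ CE → (∀ i j : Fin q, ∀ x : Fin (n + 1) → E,
        mulHeight₁ (lin (L i) x / lin (L j) x) ≤ CE * mulHeight x) →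
      (∀ A C : Finset (Fin q), ∀ j : Fin q, ∀ x : Fin (n + 1) → E,
        mulHeight₁ (lin (Dec.fm L cc A C) x / lin (L j) x) ≤ CE * mulHeight x) →
      ∀ T : ℝ, 1 ≤ T → ∀ J : Fin (n + 1) → Fin q, Function.Injective J →
      ∀ F : Finset (Fin (n + 1) → E),
      (∀ x ∈ F, (∀ j, lin (L j) x ≠ 0) ∧ ¬ VanishingSubsum L x ∧ mulHeight x ≤ T ∧
        ∀ I, I.Nonempty → NN (RR L S x I) ≤ T) →
      (∀ x ∈ F, ∀ y ∈ F, ∀ I, Charged J I → RR L S x I = RR L S y I) →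
      (∀ x ∈ F, ∀ y ∈ F, x ≠ y → ∀ t : E, x ≠ t • y) →
        (F.card : ℝ) ≤ C * (CE * T) ^ η := by
  sorry

/-! ### from `K` to `E` -/

/-- NU6a -/
theorem fa_up_lt_iff {K : Type*} {E : Type*} [Field K] [NumberField K] [Field E] [NumberField E]
    [Algebra K E] {v : HeightOneSpectrum (𝓞 K)} {w : HeightOneSpectrum (𝓞 E)}
    (h : w.asIdeal.comap (algebraMap (𝓞 K) (𝓞 E)) = v.asIdeal) :
    ∃ m : ℕ, 1 ≤ m ∧ m ≤ Module.finrank K E ∧
      ∀ x : K, fa w (algebraMap K E x) = fa v x ^ m := by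
  sorry

/-- NU6b -/
theorem above_finset {K : Type*} (E : Type*) [Field K] [NumberField K] [Field E] [NumberField E]
    [Algebra K E] (S : Finset (HeightOneSpectrum (𝓞 K))) :
    ∃ S' : Finset (HeightOneSpectrum (𝓞 E)),
      (S' : Set (HeightOneSpectrum (𝓞 E))) = above K E (S : Set (HeightOneSpectrum (𝓞 K))) ∧
      S'.card ≤ Module.finrank K E * S.card := by
  sorry

/-- NU6c -/
theorem good_up {K : Type*} {E : Type*} [Field K] [NumberField K] [Field E] [NumberField E]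
    [Algebra K E] {n q : ℕ} (hq : n + 1 ≤ q) {L : Fin q → Fin (n + 1) → K}
    {cc : Finset (Fin q) → Fin q → K}
    (hL : ∀ J : Fin (n + 1) → Fin q, Function.Injective J →
      LinearIndependent K (fun i => L (J i)))
    {S : Finset (HeightOneSpectrum (𝓞 K))} (hcc : IsRel L cc) (hS : Good L cc S)
    (S' : Finset (HeightOneSpectrum (𝓞 E)))
    (hS' : (S' : Set (HeightOneSpectrum (𝓞 E))) =
      above K E (S : Set (HeightOneSpectrum (𝓞 K)))) :
    IsRel (up E L) (fun C j => algebraMap K E (cc C j)) ∧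
      Good (up E L) (fun C j => algebraMap K E (cc C j)) S' ∧
      (∀ J : Fin (n + 1) → Fin q, Function.Injective J →
        LinearIndependent E (fun i => up E L (J i))) := by
  sorry

/-- NU7a -/
theorem mulHeight_up_le {K : Type u} [Field K] [NumberField K] {ι : Type} [Finite ι] (r : ℕ)
    (m : ι → K) : ∃ C : ℝ, 1 ≤ C ∧ ∀ (E : Type u) [Field E] [NumberField E] [Algebra K E],
      Module.finrank K E ≤ r → mulHeight (fun i => algebraMap K E (m i)) ≤ C := by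
  sorry

/-- NU7b -/
theorem height_div_le_u {K : Type u} [Field K] [NumberField K] {n : ℕ} {ι : Type} [Finite ι]
    (r : ℕ) (a b : ι → Fin (n + 1) → K) : ∃ C : ℝ, 1 ≤ C ∧
      ∀ (E : Type u) [Field E] [NumberField E] [Algebra K E], Module.finrank K E ≤ r →
        ∀ (i : ι) (x : Fin (n + 1) → E),
          mulHeight₁ (lin (fun k => algebraMap K E (a i k)) x /
            lin (fun k => algebraMap K E (b i k)) x) ≤ C * mulHeight x := by
  sorry

/-- NU8 -/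
theorem sum_card_mul_u {K : Type u} [Field K] [NumberField K] {n q : ℕ} (r : ℕ)
    {L : Fin q → Fin (n + 1) → K} {cc : Finset (Fin q) → Fin q → K}
    {S : Finset (HeightOneSpectrum (𝓞 K))} (hS : Good L cc S) : ∃ C : ℝ, 0 ≤ C ∧
      ∀ (E : Type u) [Field E] [NumberField E] [Algebra K E], Module.finrank K E ≤ r →
        ∀ S' : Finset (HeightOneSpectrum (𝓞 E)),
          (S' : Set (HeightOneSpectrum (𝓞 E))) =
            above K E (S : Set (HeightOneSpectrum (𝓞 K))) →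
          Good (up E L) (fun C j => algebraMap K E (cc C j)) S' →
          ∀ x : Fin (n + 1) → E, (∀ j, lin (up E L j) x ≠ 0) →
            ∑ I : Finset (Fin q), (I.card : ℝ) * Real.log (NN (RR (up E L) S' x I)) ≤
              q * logHeight x + C := by
  sorry

/-- NU9 -/
theorem count_u {K : Type u} [Field K] [NumberField K] {n q : ℕ} (hq : n + 2 ≤ q)
    {S₀ : Set (HeightOneSpectrum (𝓞 K))} (hS₀ : S₀.Finite) (L : Fin q → Fin (n + 1) → K)
    (hL : ∀ J : Fin (n + 1) → Fin q, Function.Injective J →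
      LinearIndependent K (fun i => L (J i)))
    (α β : ℝ) (hα : 0 ≤ α) (hβ : 0 ≤ β)
    (hs : ∀ s : ℕ, 1 ≤ s → s ≤ n → 1 - (((q - n - 2 + s).choose s : ℕ) : ℝ) /
      ((q.choose s : ℕ) : ℝ) ≤ α + β * s) (r : ℕ) (η : ℝ) (hη : 0 < η) :
    ∃ C : ℝ, 0 < C ∧ ∀ (E : Type u) [Field E] [NumberField E] [Algebra K E],
      Module.finrank K E ≤ r → ∀ B M : ℝ, 1 ≤ B → 1 ≤ M →
      ∀ X : Finset (Projectivization E (Fin (n + 1) → E)),
      (∀ P ∈ X, (∀ j, lin (up E L j) P.rep ≠ 0) ∧ ¬ VanishingSubsum (up E L) P.rep ∧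
        P.mulHeight ≤ B ∧ truncCount (above K E S₀) (up E L) P.rep ≤ Real.log M) →
      (X.card : ℝ) ≤ C * M ^ α * B ^ (β * q) * (B * M) ^ η := by
  sorry

/-- NU10 -/
theorem one_le_discNorm (K E : Type*) [Field K] [NumberField K] [Field E] [NumberField E]
    [Algebra K E] : 1 ≤ discNorm K E ∧
      |((discr E : ℤ) : ℝ)| = discNorm K E * |((discr K : ℤ) : ℝ)| ^ Module.finrank K E := by
  sorry

/-- NU11 -/
theorem count_disc {K : Type u} [Field K] [NumberField K] {n q : ℕ} (hq : n + 2 ≤ q)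
    {S₀ : Set (HeightOneSpectrum (𝓞 K))} (hS₀ : S₀.Finite) (L : Fin q → Fin (n + 1) → K)
    (hL : ∀ J : Fin (n + 1) → Fin q, Function.Injective J →
      LinearIndependent K (fun i => L (J i)))
    (α β ρ : ℝ) (hα : 0 ≤ α) (hβ : 0 ≤ β) (hρ : 0 ≤ ρ)
    (hs : ∀ s : ℕ, 1 ≤ s → s ≤ n → 1 - (((q - n - 2 + s).choose s : ℕ) : ℝ) /
      ((q.choose s : ℕ) : ℝ) ≤ α + β * s) (r : ℕ) (c η : ℝ) (hη : 0 < η) :
    ∃ C : ℝ, 0 < C ∧ ∀ (E : Type u) [Field E] [NumberField E] [Algebra K E],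
      Module.finrank K E ≤ r → ∀ B : ℝ, 1 ≤ B →
      ∀ X : Finset (Projectivization E (Fin (n + 1) → E)),
      (∀ P ∈ X, (∀ j, lin (up E L j) P.rep ≠ 0) ∧ ¬ VanishingSubsum (up E L) P.rep ∧
        P.mulHeight ≤ B ∧ truncCount (above K E S₀) (up E L) P.rep +
          Real.log (discNorm K E) ≤ ρ * P.logHeight + c) →
      (X.card : ℝ) ≤ C * B ^ (α * ρ + β * q + η) * discNorm K E ^ (-α) ∧
        (X.Nonempty → discNorm K E ≤ C * B ^ ρ) := by
  sorry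

/-! ### counting fields by discriminant -/

/-- FC1a -/
theorem body1 (L : Type*) [Field L] [NumberField L] (w₀ : InfinitePlace L) (Y : ℝ)
    (hY : 2 ^ Module.finrank ℚ L * √|((discr L : ℤ) : ℝ)| < Y) :
    ∃ a : 𝓞 L, a ≠ 0 ∧ (∀ w : InfinitePlace L, w ≠ w₀ → w (a : L) < 1) ∧
      w₀ (a : L) ^ w₀.mult < Y := by
  sorry

/-- FC1b -/
theorem body2 (L : Type*) [Field L] [NumberField L] (w₀ : InfinitePlace L) (hw₀ : w₀.IsComplex)
    (Y : ℝ) (hY : 2 ^ Module.finrank ℚ L * √|((discr L : ℤ) : ℝ)| < Y) :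
    ∃ a : 𝓞 L, a ≠ 0 ∧ (∀ w : InfinitePlace L, w ≠ w₀ → w (a : L) < 1) ∧
      |(w₀.embedding (a : L)).re| < 1 ∧ |(w₀.embedding (a : L)).im| < Y := by
  sorry

variable {K : Type*} {L : Type*} [Field K] [NumberField K] [Field L] [NumberField L] [Algebra K L]

/-- FC2a -/
theorem prim_of_mult {w₀ : InfinitePlace L} (h : w₀.mult = (w₀.comap (algebraMap K L)).mult)
    {a : 𝓞 L} (ha : a ≠ 0) (hw : ∀ w : InfinitePlace L, w ≠ w₀ → w (a : L) < 1) :
    IntermediateField.adjoin K {(a : L)} = ⊤ := by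
  sorry

/-- FC2b -/
theorem prim_of_im {w₀ : InfinitePlace L} {a : 𝓞 L} (ha : a ≠ 0)
    (hw : ∀ w : InfinitePlace L, w ≠ w₀ → w (a : L) < 1)
    (him : (w₀.embedding (a : L)).im ≠ 0) :
    IntermediateField.adjoin K {(a : L)} = ⊤ := by
  sorry

/-- FC2c -/
theorem finrank_of_im {w₀ : InfinitePlace L} (h0 : w₀.IsComplex)
    (h1 : (w₀.comap (algebraMap K L)).IsReal) {a : 𝓞 L} (ha : a ≠ 0)
    (hw : ∀ w : InfinitePlace L, w ≠ w₀ → w (a : L) < 1)
    (him : (w₀.embedding (a : L)).im = 0) :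
    Module.finrank (IntermediateField.adjoin K {(a : L)}) L = 2 ∧
      (w₀.comap (algebraMap (IntermediateField.adjoin K {(a : L)}) L)).IsReal := by
  sorry

/-- FC3a -/
theorem coeff_le {w₀ : InfinitePlace L} {a : 𝓞 L}
    (hw : ∀ w : InfinitePlace L, w ≠ w₀ → w (a : L) < 1) (i : ℕ) :
    (∀ v : InfinitePlace K, v ≠ w₀.comap (algebraMap K L) →
      v ((minpoly K (a : L)).coeff i) ≤ 2 ^ Module.finrank K L) ∧
    (w₀.comap (algebraMap K L)) ((minpoly K (a : L)).coeff i) ^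
        (w₀.comap (algebraMap K L)).mult ≤
      4 ^ Module.finrank K L * max 1 (w₀ (a : L) ^ w₀.mult) := by
  sorry

/-- FC3b -/
theorem coeff_one_le (hr : Module.finrank K L = 2) {w₀ : InfinitePlace L} (h0 : w₀.IsComplex)
    (h1 : (w₀.comap (algebraMap K L)).IsReal) {a : 𝓞 L}
    (ha : IntermediateField.adjoin K {(a : L)} = ⊤)
    (hre : |(w₀.embedding (a : L)).re| < 1) :
    (w₀.comap (algebraMap K L)) ((minpoly K (a : L)).coeff 1) ≤ 4 := by
  sorry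

/-- FC4 -/
theorem card_box_u (d : ℕ) (R : ℝ) : ∃ C : ℝ, 0 < C ∧
    ∀ (E : Type u) [Field E] [NumberField E], Module.finrank ℚ E ≤ d →
      ∀ (v₀ : InfinitePlace E) (Z : ℝ), 1 ≤ Z → ∀ A : Finset (𝓞 E),
        (∀ c ∈ A, (∀ v : InfinitePlace E, v ≠ v₀ → v (c : E) ≤ R) ∧
          v₀ (c : E) ^ v₀.mult ≤ Z) → (A.card : ℝ) ≤ C * Z := by
  sorry

/-- FC5 : number of extensions of degree `r` with bounded discriminant -/
theorem field_count (K : Type u) [Field K] [NumberField K] (r : ℕ) (hr : 2 ≤ r) :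
    ∃ C : ℝ, 0 < C ∧ ∀ X : ℝ, 1 ≤ X → ∀ (ι : Type) [Fintype ι]
      (E : ι → IntermediateField K (AlgebraicClosure K)) [∀ a, NumberField (E a)],
      Function.Injective E → (∀ a, Module.finrank K (E a) = r) →
      (∀ a, discNorm K (E a) ≤ X) → (Fintype.card ι : ℝ) ≤ C * X ^ ((r : ℝ) / 2) := by
  sorry

/-- FC6 -/
theorem field_sum (K : Type u) [Field K] [NumberField K] (r : ℕ) (hr : 1 ≤ r) (η : ℝ)
    (hη : 0 < η) : ∃ C : ℝ, 0 < C ∧ ∀ (ι : Type) [Fintype ι]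
      (E : ι → IntermediateField K (AlgebraicClosure K)) [∀ a, NumberField (E a)],
      Function.Injective E → (∀ a, Module.finrank K (E a) ≤ r) →
      ∑ a, discNorm K (E a) ^ (-((if r = 1 then 0 else (r : ℝ) / 2) + η)) ≤ C := by
  sorry

end Pool.Agent.Lib.MP_44a246_ntNU
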