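import Pool.Agent.Lib.MP_44a246_ntNU.NU11
import Pool.Agent.Lib.MP_44a246_ntNF.Both

set_option autoImplicit false

open NumberField IsDedekindDomain Height
open Pool.Agent.Lib.MP_4d5ce1_nt (fa nv ordv)
open Pool.Agent.Lib.MP_44a246_ntNF

namespace Pool.Agent.Lib.MP_44a246_ntNU

universe u

open Classical in
/-- `discNorm`, for all intermediate fields. -/
noncomputable def dN (K : Type u) [Field K] [NumberField K]
    (F : IntermediateField K (AlgebraicClosure K)) : ℝ :=
  if _h : NumberField F then discNorm K F else 1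

theorem dN_eq (K : Type u) [Field K] [NumberField K]
    (F : IntermediateField K (AlgebraicClosure K)) [h : NumberField F] :
    dN K F = discNorm K F := by
  unfold dN
  rw [dif_pos h]

theorem one_le_dN (K : Type u) [Field K] [NumberField K]
    (F : IntermediateField K (AlgebraicClosure K)) : 1 ≤ dN K F := by
  unfold dN
  split_ifs with h
  · exact (one_le_discNorm K F).1
  · exact le_rfl

/-- `field_sum` for finsets of intermediate fields. -/
theorem field_sum_finset (K : Type u) [Field K] [NumberField K] (r : ℕ) (hr : 1 ≤ r) (η : ℝ)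
    (hη : 0 < η) : ∃ C : ℝ, 0 < C ∧
      ∀ Fs : Finset (IntermediateField K (AlgebraicClosure K)),
        (∀ F ∈ Fs, NumberField F ∧ Module.finrank K F ≤ r) →
        ∑ F ∈ Fs, dN K F ^ (-((if r = 1 then 0 else (r : ℝ) / 2) + η)) ≤ C := by
  classical
  obtain ⟨C, hC, h⟩ := field_sum K r hr η hη
  refine ⟨C, hC, ?_⟩
  intro Fs hFs
  set e := Fs.equivFin with he
  have : ∀ i : Fin Fs.card, NumberField (e.symm i).1 := fun i => (hFs _ (e.symm i).2).1
  have h1 := h (Fin Fs.card) (fun i => (e.symm i).1) (by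
    intro i j hij
    exact e.symm.injective (Subtype.ext hij)) (fun i => (hFs _ (e.symm i).2).2)
  refine le_trans (le_of_eq ?_) h1
  rw [← Finset.sum_attach Fs]
  refine Fintype.sum_equiv e _ _ ?_
  intro x
  rw [← dN_eq K]
  simp

variable {K : Type u} [Field K] [NumberField K] {n q : ℕ}

/-- The condition on a pair `(F, P)`. -/
def Viol (S₀ : Set (HeightOneSpectrum (𝓞 K))) (L : Fin q → Fin (n + 1) → K) (r : ℕ)
    (ρ c B : ℝ) (s : Σ F : IntermediateField K (AlgebraicClosure K),
      Projectivization F (Fin (n + 1) → F)) : Prop :=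
  ∃ _ : NumberField s.1, Module.finrank K s.1 ≤ r ∧ (∀ j, lin (up s.1 L j) s.2.rep ≠ 0) ∧
    ¬ VanishingSubsum (up s.1 L) s.2.rep ∧ s.2.mulHeight ≤ B ∧
    truncCount (above K s.1 S₀) (up s.1 L) s.2.rep + Real.log (discNorm K s.1) ≤
      ρ * s.2.logHeight + c

open Classical in
/-- One field. -/
theorem count_field (hq : n + 2 ≤ q)
    {S₀ : Set (HeightOneSpectrum (𝓞 K))} (hS₀ : S₀.Finite) (L : Fin q → Fin (n + 1) → K)
    (hL : ∀ J : Fin (n + 1) → Fin q, Function.Injective J →
      LinearIndependent K (fun i => L (J i)))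
    (α β ρ : ℝ) (hα : 0 ≤ α) (hβ : 0 ≤ β) (hρ : 0 ≤ ρ)
    (hs : ∀ s : ℕ, 1 ≤ s → s ≤ n → 1 - (((q - n - 2 + s).choose s : ℕ) : ℝ) /
      ((q.choose s : ℕ) : ℝ) ≤ α + β * s) (r : ℕ) (c η : ℝ) (hη : 0 < η) :
    ∃ C : ℝ, 0 < C ∧ ∀ B : ℝ, 1 ≤ B →
      ∀ X : Finset (Σ F : IntermediateField K (AlgebraicClosure K),
        Projectivization F (Fin (n + 1) → F)), (∀ s ∈ X, Viol S₀ L r ρ c B s) →
      ∀ F : IntermediateField K (AlgebraicClosure K),
        (((X.filter (fun s : (Σ F : IntermediateField K (AlgebraicClosure K),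
          Projectivization F (Fin (n + 1) → F)) => s.1 = F)).card : ℕ) : ℝ) ≤
          C * B ^ (α * ρ + β * q + η) * dN K F ^ (-α) ∧
        ((X.filter (fun s : (Σ F : IntermediateField K (AlgebraicClosure K),
          Projectivization F (Fin (n + 1) → F)) => s.1 = F)).Nonempty → dN K F ≤ C * B ^ ρ) := by
  classical
  obtain ⟨C, hC, h⟩ := count_disc' hq hS₀ L hL α β ρ hα hβ hρ hs r c η hη
  refine ⟨C, hC, ?_⟩
  intro B hB X hX F
  have hB0 : 0 < B := by linarith
  rcases (X.filter (fun s : (Σ F : IntermediateField K (AlgebraicClosure K),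
          Projectivization F (Fin (n + 1) → F)) => s.1 = F)).eq_empty_or_nonempty with hXe | hXn
  · rw [hXe]
    refine ⟨?_, fun h => (Finset.not_nonempty_empty h).elim⟩
    have := one_le_dN K F
    rw [Finset.card_empty, Nat.cast_zero]
    positivity
  obtain ⟨s₀, hs₀⟩ := hXn
  rw [Finset.mem_filter] at hs₀
  have hNF : NumberField F := by
    obtain ⟨h1, _⟩ := hX s₀ hs₀.1
    rw [← hs₀.2]
    exact h1
  have hfin : Module.finrank K F ≤ r := by
    obtain ⟨_, h2, _⟩ := hX s₀ hs₀.1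
    rw [← hs₀.2]
    exact h2
  -- the points over `F`
  have hinj : Function.Injective (fun P : Projectivization F (Fin (n + 1) → F) =>
      (⟨F, P⟩ : Σ F : IntermediateField K (AlgebraicClosure K),
        Projectivization F (Fin (n + 1) → F))) := fun P Q h => by
    simpa using h
  set XF : Finset (Projectivization F (Fin (n + 1) → F)) :=
    X.preimage (fun P => (⟨F, P⟩ : Σ F : IntermediateField K (AlgebraicClosure K),
        Projectivization F (Fin (n + 1) → F))) hinj.injOn with hXF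
  have himg : XF.image (fun P => (⟨F, P⟩ : Σ F : IntermediateField K (AlgebraicClosure K),
        Projectivization F (Fin (n + 1) → F))) = X.filter (fun s : (Σ F : IntermediateField K (AlgebraicClosure K),
          Projectivization F (Fin (n + 1) → F)) => s.1 = F) := by
    ext s
    rw [Finset.mem_image, Finset.mem_filter]
    constructor
    · rintro ⟨P, hP, rfl⟩
      rw [hXF, Finset.mem_preimage] at hP
      exact ⟨hP, rfl⟩
    · rintro ⟨h1, h2⟩
      obtain ⟨F', P'⟩ := s
      simp only at h2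
      subst h2
      exact ⟨P', by rw [hXF, Finset.mem_preimage]; exact h1, rfl⟩
  have hcard : (X.filter (fun s : (Σ F : IntermediateField K (AlgebraicClosure K),
          Projectivization F (Fin (n + 1) → F)) => s.1 = F)).card = XF.card := by
    rw [← himg, Finset.card_image_of_injective _ hinj]
  have key := h F hfin B hB XF (by
    intro P hP
    rw [hXF, Finset.mem_preimage] at hP
    obtain ⟨h1, _, h3, h4, h5, h6⟩ := hX _ hP
    exact ⟨h3, h4, h5, h6⟩)
  rw [hcard, dN_eq K F]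
  refine ⟨key.1, fun _ => key.2 ?_⟩
  rw [← Finset.card_pos, ← hcard, Finset.card_pos]
  exact ⟨s₀, Finset.mem_filter.mpr hs₀⟩

/-- All fields. -/
theorem count_total (hq : n + 2 ≤ q)
    {S₀ : Set (HeightOneSpectrum (𝓞 K))} (hS₀ : S₀.Finite) (L : Fin q → Fin (n + 1) → K)
    (hL : ∀ J : Fin (n + 1) → Fin q, Function.Injective J →
      LinearIndependent K (fun i => L (J i)))
    (α β ρ : ℝ) (hα : 0 ≤ α) (hβ : 0 ≤ β) (hρ : 0 ≤ ρ)
    (hs : ∀ s : ℕ, 1 ≤ s → s ≤ n → 1 - (((q - n - 2 + s).choose s : ℕ) : ℝ) /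
      ((q.choose s : ℕ) : ℝ) ≤ α + β * s) (r : ℕ) (hr : 1 ≤ r) (c η : ℝ) (hη : 0 < η) :
    ∃ C : ℝ, 0 < C ∧ ∀ B : ℝ, 1 ≤ B →
      ∀ X : Finset (Σ F : IntermediateField K (AlgebraicClosure K),
        Projectivization F (Fin (n + 1) → F)), (∀ s ∈ X, Viol S₀ L r ρ c B s) →
        (X.card : ℝ) ≤ C * B ^ (α * ρ + β * q +
          ρ * max 0 ((if r = 1 then 0 else (r : ℝ) / 2) - α) + η) := by
  classical
  set a : ℝ := if r = 1 then 0 else (r : ℝ) / 2 with ha
  set e : ℝ := max 0 (a - α) with he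
  have he0 : 0 ≤ e := le_max_left _ _
  have hea : a - α ≤ e := le_max_right _ _
  set η2 : ℝ := η / (2 * (ρ + 1)) with hη2
  have hη2p : 0 < η2 := by positivity
  obtain ⟨C1, hC1, h1⟩ := count_field hq hS₀ L hL α β ρ hα hβ hρ hs r c (η / 2) (by positivity)
  obtain ⟨C2, hC2, h2⟩ := field_sum_finset K r hr η2 hη2p
  refine ⟨C1 * C1 ^ (e + η2) * C2, by positivity, ?_⟩
  intro B hB X hX
  have hB0 : 0 < B := by linarith
  set Fs : Finset (IntermediateField K (AlgebraicClosure K)) := X.image Sigma.fst with hFs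
  have hcard : (X.card : ℝ) = ∑ F ∈ Fs, (((X.filter (fun s : (Σ F : IntermediateField K (AlgebraicClosure K),
          Projectivization F (Fin (n + 1) → F)) => s.1 = F)).card : ℕ) : ℝ) := by
    rw [hFs, Finset.card_eq_sum_card_image Sigma.fst X, Nat.cast_sum]
  have hne : ∀ F ∈ Fs, (X.filter (fun s : (Σ F : IntermediateField K (AlgebraicClosure K),
          Projectivization F (Fin (n + 1) → F)) => s.1 = F)).Nonempty := by
    intro F hF
    rw [hFs, Finset.mem_image] at hF
    obtain ⟨s, hs1, hs2⟩ := hF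
    exact ⟨s, Finset.mem_filter.mpr ⟨hs1, hs2⟩⟩
  have hsum := h2 Fs (by
    intro F hF
    obtain ⟨s, hs1⟩ := hne F hF
    rw [Finset.mem_filter] at hs1
    obtain ⟨g1, g2, _⟩ := hX s hs1.1
    rw [← hs1.2]
    exact ⟨g1, g2⟩)
  rw [hcard]
  have hterm : ∀ F ∈ Fs, (((X.filter (fun s : (Σ F : IntermediateField K (AlgebraicClosure K),
          Projectivization F (Fin (n + 1) → F)) => s.1 = F)).card : ℕ) : ℝ) ≤
      C1 * B ^ (α * ρ + β * q + η / 2) * (C1 * B ^ ρ) ^ (e + η2) * dN K F ^ (-(a + η2)) := by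
    intro F hF
    obtain ⟨k1, k2⟩ := h1 B hB X hX F
    have k3 := k2 (hne F hF)
    have hD1 := one_le_dN K F
    have hD0 : 0 < dN K F := by linarith
    refine k1.trans ?_
    rw [mul_assoc (C1 * B ^ (α * ρ + β * q + η / 2))]
    apply mul_le_mul_of_nonneg_left _ (by positivity)
    calc dN K F ^ (-α) = dN K F ^ (a - α + η2) * dN K F ^ (-(a + η2)) := by
          rw [← Real.rpow_add hD0]
          congr 1
          ring
      _ ≤ dN K F ^ (e + η2) * dN K F ^ (-(a + η2)) := by
          apply mul_le_mul_of_nonneg_right _ (Real.rpow_nonneg hD0.le _)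
          exact Real.rpow_le_rpow_of_exponent_le hD1 (by linarith)
      _ ≤ (C1 * B ^ ρ) ^ (e + η2) * dN K F ^ (-(a + η2)) := by
          apply mul_le_mul_of_nonneg_right _ (Real.rpow_nonneg hD0.le _)
          exact Real.rpow_le_rpow hD0.le k3 (by linarith)
  refine (Finset.sum_le_sum hterm).trans ?_
  rw [← Finset.mul_sum]
  have e1 : (C1 * B ^ ρ) ^ (e + η2) = C1 ^ (e + η2) * B ^ (ρ * e + ρ * η2) := by
    rw [Real.mul_rpow hC1.le (by positivity), ← Real.rpow_mul hB0.le]
    congr 2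
    ring
  rw [e1]
  have e2 : B ^ (α * ρ + β * q + η / 2) * B ^ (ρ * e + ρ * η2) ≤
      B ^ (α * ρ + β * q + ρ * e + η) := by
    rw [← Real.rpow_add hB0]
    apply Real.rpow_le_rpow_of_exponent_le hB
    have : ρ * η2 ≤ η / 2 := by
      rw [hη2, mul_div_assoc', div_le_div_iff₀ (by positivity) (by norm_num)]
      nlinarith
    linarith
  calc C1 * B ^ (α * ρ + β * q + η / 2) * (C1 ^ (e + η2) * B ^ (ρ * e + ρ * η2)) *
        ∑ F ∈ Fs, dN K F ^ (-(a + η2))
      ≤ C1 * B ^ (α * ρ + β * q + η / 2) * (C1 ^ (e + η2) * B ^ (ρ * e + ρ * η2)) * C2 := by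
        apply mul_le_mul_of_nonneg_left hsum (by positivity)
    _ = C1 * C1 ^ (e + η2) * C2 * (B ^ (α * ρ + β * q + η / 2) * B ^ (ρ * e + ρ * η2)) := by
        ring
    _ ≤ C1 * C1 ^ (e + η2) * C2 * B ^ (α * ρ + β * q + ρ * e + η) :=
        mul_le_mul_of_nonneg_left e2 (by positivity)

end Pool.Agent.Lib.MP_44a246_ntNU
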